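import Mathlib

set_option autoImplicit false

/-! The first nonzero Steklov eigenvalue of a triangle: definitions.
Points of the plane are complex numbers. -/

open Complex MeasureTheory

namespace Pool.Agent.H32.Stek

/-- The gradient of `u` at `z`, written as the complex number `u_x + i u_y`. -/
noncomputable def grad (u : ℂ → ℝ) (z : ℂ) : ℂ := ⟨fderiv ℝ u z 1, fderiv ℝ u z I⟩

/-- The closed triangle with vertices `P, Q, R`. -/
noncomputable def tri (P Q R : ℂ) : Set ℂ := convexHull ℝ {P, Q, R}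

/-- Integral of `f` over the segment from `P` to `Q` with respect to arc length. -/
noncomputable def segInt (f : ℂ → ℝ) (P Q : ℂ) : ℝ :=
  ‖Q - P‖ * ∫ t in (0:ℝ)..1, f (P + t * (Q - P))

/-- Integral of `f` over the boundary of the triangle `PQR` with respect to arc length. -/
noncomputable def bdInt (P Q R : ℂ) (f : ℂ → ℝ) : ℝ :=
  segInt f P Q + segInt f Q R + segInt f R P

/-- The Dirichlet integral of `u` over the triangle `PQR`. -/
noncomputable def energy (P Q R : ℂ) (u : ℂ → ℝ) : ℝ := ∫ z in tri P Q R, ‖grad u z‖ ^ 2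

/-- The first nonzero Steklov eigenvalue of the triangle `PQR`: infimum of the Rayleigh quotient
over all `C^1` functions on the plane with boundary integral zero. -/
noncomputable def sigma1 (P Q R : ℂ) : ℝ :=
  sInf {s | ∃ u : ℂ → ℝ, ContDiff ℝ 1 u ∧ bdInt P Q R u = 0 ∧
    0 < bdInt P Q R (fun z => u z ^ 2) ∧
    s = energy P Q R u / bdInt P Q R (fun z => u z ^ 2)}

/-- Perimeter. -/
noncomputable def perim (P Q R : ℂ) : ℝ := dist P Q + dist Q R + dist R P

/-- Area. -/
noncomputable def area (P Q R : ℂ) : ℝ := (volume (tri P Q R)).toReal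

/-! ### The reference triangle and its affine images -/

/-- `exp(2 pi i / 3)` -/
noncomputable def om : ℂ := ⟨-1 / 2, √3 / 2⟩

/-- The reference equilateral triangle: inradius 1, sides `2 √3`, vertical side `re = -1`. -/
noncomputable def E : Set ℂ := tri 2 (2 * om) (2 * om ^ 2)

/-- integral over the `i`-th side of `E` (side 0 is the vertical one, side 1 the lower one,
side 2 the upper one) -/
noncomputable def side (i : ℕ) (f : ℂ → ℝ) : ℝ := segInt f (2 * om ^ (i + 1)) (2 * om ^ (i + 2))

/-- ratio of the lengths of the `i`-th sides of the affine image and of `E` -/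
noncomputable def lam (β : ℂ) (i : ℕ) : ℝ := ‖1 - β * om ^ i‖

noncomputable def Lam (β : ℂ) : ℝ := lam β 0 + lam β 1 + lam β 2

/-- boundary integral of the image of `E` under `z + β z̄`, transplanted to `E` -/
noncomputable def DE (β : ℂ) (f : ℂ → ℝ) : ℝ :=
  lam β 0 * side 0 f + lam β 1 * side 1 f + lam β 2 * side 2 f

/-- Dirichlet integral of the image of `E` under `z + β z̄`, transplanted to `E` -/
noncomputable def NE (β : ℂ) (u : ℂ → ℝ) : ℝ :=
  (∫ z in E, ‖grad u z - β * (starRingEnd ℂ) (grad u z)‖ ^ 2) / (1 - ‖β‖ ^ 2)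

/-- transplanted eigenvalue -/
noncomputable def Sb (β : ℂ) : ℝ :=
  sInf {s | ∃ u : ℂ → ℝ, ContDiff ℝ 1 u ∧ DE β u = 0 ∧ 0 < DE β (fun z => u z ^ 2) ∧
    s = NE β u / DE β (fun z => u z ^ 2)}

/-- the affine map -/
noncomputable def aff (a β t z : ℂ) : ℂ := a * (z + β * (starRingEnd ℂ) z) + t

/-! ### elementary facts on `om` -/

lemma s3 : √3 * √3 = (3:ℝ) := Real.mul_self_sqrt (by norm_num)

lemma s3sq : (√3) ^ 2 = (3:ℝ) := Real.sq_sqrt (by norm_num)

lemma s3pos : (0:ℝ) < √3 := Real.sqrt_pos.mpr (by norm_num)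

lemma om_re : om.re = -1 / 2 := rfl

lemma om_im : om.im = √3 / 2 := rfl

lemma om_sq : om ^ 2 = ⟨-1 / 2, -(√3 / 2)⟩ := by
  have h := s3
  apply Complex.ext
  · simp only [pow_two, Complex.mul_re, om_re, om_im]
    nlinarith
  · simp only [pow_two, Complex.mul_im, om_re, om_im]
    ring

lemma om_sum : 1 + om + om ^ 2 = 0 := by
  rw [om_sq]
  apply Complex.ext
  · simp [om_re]; norm_num
  · simp [om_im]

lemma om_cube : om ^ 3 = 1 := by
  have h := om_sum
  linear_combination (om - 1) * h

lemma om_conj : (starRingEnd ℂ) om = om ^ 2 := by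
  rw [om_sq]
  apply Complex.ext
  · simp [om_re]
  · simp [om_im]

lemma om_norm : ‖om‖ = 1 := by
  have h : ‖om‖ ^ 3 = 1 := by
    rw [← norm_pow, om_cube, norm_one]
  have h0 : 0 ≤ ‖om‖ := norm_nonneg _
  exact (pow_eq_one_iff_of_nonneg h0 (by norm_num)).mp h

end Pool.Agent.H32.Stek
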