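import Mathlib
import Pool.Agent.H32.Stek.Defs

set_option autoImplicit false

open Complex MeasureTheory

namespace Pool.Agent.H32.Stek

/-! elementary facts on side integrals and gradients -/

theorem om_pow_norm (i : ℕ) : ‖om ^ i‖ = 1 := by
  rw [norm_pow, om_norm, one_pow]

theorem side_len (i : ℕ) : ‖2 * om ^ (i + 2) - 2 * om ^ (i + 1)‖ = 2 * √3 := by
  have h : 2 * om ^ (i + 2) - 2 * om ^ (i + 1) = om ^ (i + 1) * (2 * om - 2) := by ring
  rw [h, norm_mul, om_pow_norm, one_mul]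
  have h2 : ‖2 * om - 2‖ ^ 2 = 12 := by
    rw [← Complex.normSq_eq_norm_sq, Complex.normSq_apply]
    have e1 : (2 * om - 2).re = -3 := by
      simp [om_re]; norm_num
    have e2 : (2 * om - 2).im = √3 := by
      simp [om_im]; ring
    rw [e1, e2, s3]; norm_num
  have h3 : (2 * √3) ^ 2 = (12:ℝ) := by rw [mul_pow, s3sq]; norm_num
  have := s3pos
  nlinarith [norm_nonneg (2 * om - 2), sq_nonneg (‖2 * om - 2‖ - 2 * √3),
    sq_nonneg (‖2 * om - 2‖ + 2 * √3)]

theorem side_def (i : ℕ) (f : ℂ → ℝ) : side i f =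
    2 * √3 * ∫ t in (0:ℝ)..1, f (2 * om ^ (i + 1) + t * (2 * om ^ (i + 2) - 2 * om ^ (i + 1))) := by
  unfold side segInt
  rw [side_len]

theorem side_period (i : ℕ) (f : ℂ → ℝ) : side (i + 3) f = side i f := by
  have h1 : om ^ (i + 3 + 1) = om ^ (i + 1) := by
    rw [show i + 3 + 1 = (i + 1) + 3 by ring, pow_add, om_cube, mul_one]
  have h2 : om ^ (i + 3 + 2) = om ^ (i + 2) := by
    rw [show i + 3 + 2 = (i + 2) + 3 by ring, pow_add, om_cube, mul_one]
  unfold side
  rw [h1, h2]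

theorem side_rot (i : ℕ) (f : ℂ → ℝ) : side i (fun z => f (om * z)) = side (i + 1) f := by
  rw [side_def, side_def]
  congr 1
  apply intervalIntegral.integral_congr
  intro t _
  simp only
  congr 1
  ring

theorem two_om : (2:ℂ) * om ^ 1 = ⟨-1, √3⟩ := by
  apply Complex.ext
  · simp [om_re]; norm_num
  · simp [om_im]; ring

theorem two_om2 : (2:ℂ) * om ^ 2 = ⟨-1, -√3⟩ := by
  rw [om_sq]
  apply Complex.ext
  · simp; norm_num
  · simp; ring

theorem side0_aux (f : ℂ → ℝ) :
    side 0 f = ∫ y in (-√3)..√3, f ⟨-1, y⟩ := by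
  rw [side_def]
  have h : ∀ t : ℝ, 2 * om ^ (0 + 1) + t * (2 * om ^ (0 + 2) - 2 * om ^ (0 + 1)) =
      (⟨-1, √3 - (2 * √3) * t⟩ : ℂ) := by
    intro t
    rw [zero_add, zero_add, two_om, two_om2]
    apply Complex.ext
    · simp
    · simp; ring
  simp only [h]
  have := intervalIntegral.integral_comp_sub_mul (fun y : ℝ => f ⟨-1, y⟩) (c := 2 * √3)
    (by have := s3pos; positivity) (√3) (a := 0) (b := 1)
  rw [this]
  have e1 : √3 - 2 * √3 * 1 = -√3 := by ring
  have e2 : √3 - 2 * √3 * 0 = √3 := by ring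
  rw [e1, e2, smul_eq_mul, ← mul_assoc, mul_inv_cancel₀ (by have := s3pos; positivity), one_mul]

theorem side2_aux (f : ℂ → ℝ) :
    side 2 f = 2 * ∫ y in (0:ℝ)..√3, f ⟨2 - √3 * y, y⟩ := by
  rw [side_def]
  have h : ∀ t : ℝ, 2 * om ^ (2 + 1) + t * (2 * om ^ (2 + 2) - 2 * om ^ (2 + 1)) =
      (⟨2 - √3 * (√3 * t), √3 * t⟩ : ℂ) := by
    intro t
    have e4 : om ^ (2 + 2) = om ^ 1 := by
      rw [show (2 + 2 : ℕ) = 3 + 1 by norm_num, pow_add, om_cube, one_mul]
    have e3 : om ^ (2 + 1) = 1 := om_cube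
    rw [e4, e3, two_om]
    apply Complex.ext
    · have := s3
      simp
      linear_combination t * this
    · simp; ring
  simp only [h]
  have := intervalIntegral.integral_comp_mul_left (fun y : ℝ => f ⟨2 - √3 * y, y⟩) (c := √3)
    (by have := s3pos; positivity) (a := 0) (b := 1)
  rw [this]
  rw [mul_zero, mul_one, smul_eq_mul]
  have := s3pos
  field_simp

theorem side1_aux (f : ℂ → ℝ) :
    side 1 f = 2 * ∫ y in (0:ℝ)..√3, f ⟨2 - √3 * y, -y⟩ := by
  rw [side_def]
  have h : ∀ t : ℝ, 2 * om ^ (1 + 1) + t * (2 * om ^ (1 + 2) - 2 * om ^ (1 + 1)) =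
      (⟨2 - √3 * (√3 - √3 * t), -(√3 - √3 * t)⟩ : ℂ) := by
    intro t
    rw [show 1 + 2 = 3 by norm_num, show 1 + 1 = 2 by norm_num, om_cube, two_om2]
    apply Complex.ext
    · have := s3
      simp
      linear_combination (1 - t) * this
    · simp; ring
  simp only [h]
  have := intervalIntegral.integral_comp_sub_mul (fun y : ℝ => f ⟨2 - √3 * y, -y⟩) (c := √3)
    (by have := s3pos; positivity) (√3) (a := 0) (b := 1)
  rw [this]
  rw [mul_zero, mul_one, smul_eq_mul, sub_self, sub_zero]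
  have := s3pos
  field_simp

theorem side_conj0 (f : ℂ → ℝ) : side 0 (fun z => f ((starRingEnd ℂ) z)) = side 0 f := by
  rw [side0_aux, side0_aux]
  have h : ∀ y : ℝ, f ((starRingEnd ℂ) ⟨-1, y⟩) = f ⟨-1, -y⟩ := by
    intro y; rfl
  simp only [h]
  rw [intervalIntegral.integral_comp_neg (fun y : ℝ => f ⟨-1, y⟩), neg_neg]

theorem side_conj1 (f : ℂ → ℝ) : side 1 (fun z => f ((starRingEnd ℂ) z)) = side 2 f := by
  rw [side1_aux, side2_aux]
  congr 1
  apply intervalIntegral.integral_congr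
  intro y _
  simp only
  congr 1
  apply Complex.ext <;> simp

theorem side_conj2 (f : ℂ → ℝ) : side 2 (fun z => f ((starRingEnd ℂ) z)) = side 1 f := by
  rw [side1_aux, side2_aux]
  congr 1

theorem continuous_line {f : ℂ → ℝ} (hf : Continuous f) (a b : ℂ) :
    Continuous (fun t : ℝ => f (a + t * b)) := by
  apply hf.comp
  fun_prop

theorem continuous_mk {g h : ℝ → ℝ} (hg : Continuous g) (hh : Continuous h) :
    Continuous (fun t : ℝ => (⟨g t, h t⟩ : ℂ)) := by
  have : (fun t : ℝ => (⟨g t, h t⟩ : ℂ)) = fun t => (g t : ℂ) + (h t : ℂ) * I := by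
    funext t
    apply Complex.ext <;> simp
  rw [this]
  fun_prop

/-- the vertical side, parametrised by arc length -/
theorem side0_eq {f : ℂ → ℝ} (hf : Continuous f) :
    side 0 f = ∫ y in (0:ℝ)..√3, (f ⟨-1, y⟩ + f ⟨-1, -y⟩) := by
  have hc : Continuous (fun y : ℝ => f ⟨-1, y⟩) :=
    hf.comp (continuous_mk continuous_const continuous_id)
  have hc2 : Continuous (fun y : ℝ => f ⟨-1, -y⟩) :=
    hf.comp (continuous_mk continuous_const continuous_neg)
  rw [side0_aux, intervalIntegral.integral_add (hc.intervalIntegrable _ _)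
    (hc2.intervalIntegrable _ _), intervalIntegral.integral_comp_neg (fun y : ℝ => f ⟨-1, y⟩),
    neg_zero, add_comm, intervalIntegral.integral_add_adjacent_intervals
    (hc.intervalIntegrable _ _) (hc.intervalIntegrable _ _)]

/-- the upper side `2, 2ω`, parametrised by height (`ds = 2 dy`) -/
theorem side2_eq {f : ℂ → ℝ} (hf : Continuous f) :
    side 2 f = ∫ y in (0:ℝ)..√3, 2 * f ⟨2 - √3 * y, y⟩ := by
  rw [side2_aux, intervalIntegral.integral_const_mul]

/-- the lower side -/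
theorem side1_eq {f : ℂ → ℝ} (hf : Continuous f) :
    side 1 f = ∫ y in (0:ℝ)..√3, 2 * f ⟨2 - √3 * y, -y⟩ := by
  rw [side1_aux, intervalIntegral.integral_const_mul]

theorem side_add {f g : ℂ → ℝ} (hf : Continuous f) (hg : Continuous g) (i : ℕ) :
    side i (fun z => f z + g z) = side i f + side i g := by
  rw [side_def, side_def, side_def, intervalIntegral.integral_add
    ((continuous_line hf _ _).intervalIntegrable _ _)
    ((continuous_line hg _ _).intervalIntegrable _ _)]
  ring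

theorem side_smul (c : ℝ) (f : ℂ → ℝ) (i : ℕ) : side i (fun z => c * f z) = c * side i f := by
  rw [side_def, side_def, intervalIntegral.integral_const_mul]
  ring

theorem side_const (c : ℝ) (i : ℕ) : side i (fun _ => c) = 2 * √3 * c := by
  rw [side_def]
  simp

theorem side_nonneg {f : ℂ → ℝ} (h : ∀ z, 0 ≤ f z) (i : ℕ) : 0 ≤ side i f := by
  rw [side_def]
  apply mul_nonneg
  · have := s3pos; positivity
  · exact intervalIntegral.integral_nonneg (by norm_num) (fun t _ => h _)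

theorem side_neg (f : ℂ → ℝ) (i : ℕ) : side i (fun z => -f z) = -side i f := by
  rw [side_def, side_def, intervalIntegral.integral_neg]
  ring

theorem side_sub {f g : ℂ → ℝ} (hf : Continuous f) (hg : Continuous g) (i : ℕ) :
    side i (fun z => f z - g z) = side i f - side i g := by
  rw [side_def, side_def, side_def, intervalIntegral.integral_sub
    ((continuous_line hf _ _).intervalIntegrable _ _)
    ((continuous_line hg _ _).intervalIntegrable _ _)]
  ring

/-- Cauchy-Schwarz on a side -/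
theorem side_cs {f : ℂ → ℝ} (hf : Continuous f) (i : ℕ) :
    side i f ^ 2 ≤ 2 * √3 * side i (fun z => f z ^ 2) := by
  -- `side i (f - m)^2 ≥ 0` with `m = side i f / (2 √3)`
  have hs := s3pos
  have hL : (0:ℝ) < 2 * √3 := by positivity
  set L : ℝ := 2 * √3 with hLdef
  set m : ℝ := side i f / L with hm
  have h0 : 0 ≤ side i (fun z => (f z - m) ^ 2) := side_nonneg (fun z => sq_nonneg _) i
  have h1 : side i (fun z => (f z - m) ^ 2) =
      side i (fun z => f z ^ 2) - 2 * m * side i f + L * m ^ 2 := by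
    have e : (fun z => (f z - m) ^ 2) = fun z => (f z ^ 2 + (-(2 * m)) * f z) + m ^ 2 := by
      funext z; ring
    rw [e, side_add (f := fun z => f z ^ 2 + (-(2 * m)) * f z) (g := fun _ => m ^ 2)
      (by fun_prop) (by fun_prop), side_add (f := fun z => f z ^ 2) (g := fun z => (-(2 * m)) * f z)
      (by fun_prop) (by fun_prop), side_smul, side_const]
    rw [← hLdef]
    ring
  have h2 : side i f = L * m := by
    rw [hm]; field_simp
  rw [h1] at h0
  rw [h2] at h0 ⊢
  nlinarith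

theorem grad_continuous {u : ℂ → ℝ} (hu : ContDiff ℝ 1 u) : Continuous (grad u) := by
  have h : Continuous (fderiv ℝ u) := hu.continuous_fderiv (by norm_num)
  have : grad u = fun z => ((fderiv ℝ u z 1 : ℝ) : ℂ) + ((fderiv ℝ u z I : ℝ) : ℂ) * I := by
    funext z
    unfold grad
    apply Complex.ext <;> simp
  rw [this]
  have h1 : Continuous (fun z => fderiv ℝ u z 1) := h.clm_apply continuous_const
  have h2 : Continuous (fun z => fderiv ℝ u z I) := h.clm_apply continuous_const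
  fun_prop

theorem diff_of {u : ℂ → ℝ} (hu : ContDiff ℝ 1 u) : Differentiable ℝ u :=
  hu.differentiable (by norm_num)

theorem grad_add {u v : ℂ → ℝ} (hu : ContDiff ℝ 1 u) (hv : ContDiff ℝ 1 v) (z : ℂ) :
    grad (fun z => u z + v z) z = grad u z + grad v z := by
  unfold grad
  rw [fderiv_fun_add (diff_of hu z) (diff_of hv z)]
  apply Complex.ext <;> simp

theorem grad_smul {u : ℂ → ℝ} (hu : ContDiff ℝ 1 u) (c : ℝ) (z : ℂ) :
    grad (fun z => c * u z) z = c * grad u z := by
  unfold grad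
  rw [fderiv_const_mul (diff_of hu z)]
  apply Complex.ext <;> simp

theorem grad_sub {u v : ℂ → ℝ} (hu : ContDiff ℝ 1 u) (hv : ContDiff ℝ 1 v) (z : ℂ) :
    grad (fun z => u z - v z) z = grad u z - grad v z := by
  unfold grad
  rw [fderiv_fun_sub (diff_of hu z) (diff_of hv z)]
  apply Complex.ext <;> simp

theorem grad_const (c : ℝ) (z : ℂ) : grad (fun _ => c) z = 0 := by
  unfold grad
  simp
  apply Complex.ext <;> simp

/-- gradient of `u ∘ (ω ·)` -/
theorem grad_rot {u : ℂ → ℝ} (hu : ContDiff ℝ 1 u) (z : ℂ) :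
    grad (fun z => u (om * z)) z = om ^ 2 * grad u (om * z) := by
  have h1 : HasFDerivAt (fun z : ℂ => om * z) ((ContinuousLinearMap.mul ℝ ℂ) om) z := by
    exact ((ContinuousLinearMap.mul ℝ ℂ) om).hasFDerivAt
  have h2 : HasFDerivAt (fun z => u (om * z))
      ((fderiv ℝ u (om * z)).comp ((ContinuousLinearMap.mul ℝ ℂ) om)) z :=
    ((diff_of hu (om * z)).hasFDerivAt).comp z h1
  unfold grad
  rw [h2.fderiv, om_sq]
  set A := fderiv ℝ u (om * z) with hA
  have e1 : om * 1 = (-1 / 2 : ℝ) • (1:ℂ) + (√3 / 2 : ℝ) • I := by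
    apply Complex.ext
    · simp [om_re]
    · simp [om_im]
  have e2 : om * I = (-(√3 / 2) : ℝ) • (1:ℂ) + (-1 / 2 : ℝ) • I := by
    apply Complex.ext
    · simp [om_im]
    · simp [om_re]
  have f1 : (A.comp ((ContinuousLinearMap.mul ℝ ℂ) om)) 1 = -1 / 2 * A 1 + √3 / 2 * A I := by
    rw [ContinuousLinearMap.comp_apply, ContinuousLinearMap.mul_apply', e1, map_add,
      map_smul, map_smul, smul_eq_mul, smul_eq_mul]
  have f2 : (A.comp ((ContinuousLinearMap.mul ℝ ℂ) om)) I = -(√3 / 2) * A 1 + -1 / 2 * A I := by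
    rw [ContinuousLinearMap.comp_apply, ContinuousLinearMap.mul_apply', e2, map_add,
      map_smul, map_smul, smul_eq_mul, smul_eq_mul]
  rw [f1, f2]
  apply Complex.ext
  · simp
  · simp; ring

theorem grad_conj {u : ℂ → ℝ} (hu : ContDiff ℝ 1 u) (z : ℂ) :
    grad (fun z => u ((starRingEnd ℂ) z)) z =
      (starRingEnd ℂ) (grad u ((starRingEnd ℂ) z)) := by
  have h1 : HasFDerivAt (fun z : ℂ => (starRingEnd ℂ) z)
      (Complex.conjCLE : ℂ →L[ℝ] ℂ) z := by
    exact Complex.conjCLE.hasFDerivAt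
  have h2 : HasFDerivAt (fun z => u ((starRingEnd ℂ) z))
      ((fderiv ℝ u ((starRingEnd ℂ) z)).comp (Complex.conjCLE : ℂ →L[ℝ] ℂ)) z :=
    ((diff_of hu ((starRingEnd ℂ) z)).hasFDerivAt).comp z h1
  unfold grad
  rw [h2.fderiv]
  apply Complex.ext
  · simp
  · simp

/-- derivative along horizontal lines -/
theorem hasDerivAt_x {u : ℂ → ℝ} (hu : ContDiff ℝ 1 u) (x y : ℝ) :
    HasDerivAt (fun x : ℝ => u ⟨x, y⟩) (grad u ⟨x, y⟩).re x := by
  have h1 : HasDerivAt (fun x : ℝ => (⟨x, y⟩ : ℂ)) 1 x := by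
    have h := (Complex.ofRealCLM.hasDerivAt (x := x)).add_const ((y:ℂ) * I)
    have e : (fun x : ℝ => (⟨x, y⟩ : ℂ)) = fun x : ℝ => Complex.ofRealCLM x + (y:ℂ) * I := by
      funext x
      apply Complex.ext <;> simp
    rw [e]
    simpa using h
  have h2 := ((diff_of hu ⟨x, y⟩).hasFDerivAt).comp_hasDerivAt x h1
  exact h2

/-- derivative along vertical lines -/
theorem hasDerivAt_y {u : ℂ → ℝ} (hu : ContDiff ℝ 1 u) (x y : ℝ) :
    HasDerivAt (fun y : ℝ => u ⟨x, y⟩) (grad u ⟨x, y⟩).im y := by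
  have h1 : HasDerivAt (fun y : ℝ => (⟨x, y⟩ : ℂ)) I y := by
    have h := ((Complex.ofRealCLM.hasDerivAt (x := y)).mul_const I).const_add (x:ℂ)
    have e : (fun y : ℝ => (⟨x, y⟩ : ℂ)) = fun y : ℝ => (x:ℂ) + Complex.ofRealCLM y * I := by
      funext y
      apply Complex.ext <;> simp
    rw [e]
    simpa using h
  have h2 := ((diff_of hu ⟨x, y⟩).hasFDerivAt).comp_hasDerivAt y h1
  exact h2

theorem contDiff_rot {u : ℂ → ℝ} (hu : ContDiff ℝ 1 u) : ContDiff ℝ 1 (fun z => u (om * z)) :=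
  hu.comp (contDiff_const.mul contDiff_id)

theorem contDiff_conj {u : ℂ → ℝ} (hu : ContDiff ℝ 1 u) :
    ContDiff ℝ 1 (fun z => u ((starRingEnd ℂ) z)) :=
  hu.comp Complex.conjCLE.contDiff

end Pool.Agent.H32.Stek
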