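import Mathlib
import Pool.Agent.H32.Stek.Defs

set_option autoImplicit false

open Complex MeasureTheory

namespace Pool.Agent.H32.Stek

private lemma Aff_conj_diff (i : ℕ) :
    (starRingEnd ℂ) (2 * om ^ (i + 2) - 2 * om ^ (i + 1)) =
      -om ^ i * (2 * om ^ (i + 2) - 2 * om ^ (i + 1)) := by
  have h3 := om_cube
  have e1 : (om ^ 2) ^ (i + 2) = om ^ (2 * i + 1) := by
    calc (om ^ 2) ^ (i + 2) = om ^ (2 * i + 1) * om ^ 3 := by ring
      _ = _ := by rw [h3, mul_one]
  rw [map_sub, map_mul, map_mul, map_pow, map_pow, om_conj, e1]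
  have h2 : (starRingEnd ℂ) 2 = 2 := Complex.conj_ofNat 2
  rw [h2]
  ring

private lemma Aff_sub (a β t z z' : ℂ) :
    aff a β t z - aff a β t z' = a * ((z - z') + β * (starRingEnd ℂ) (z - z')) := by
  unfold aff; rw [map_sub]; ring

/-- length of the image of a side of `E` -/
theorem norm_aff_side (a β t : ℂ) (i : ℕ) :
    ‖aff a β t (2 * om ^ (i + 2)) - aff a β t (2 * om ^ (i + 1))‖ =
      ‖a‖ * (lam β i * ‖2 * om ^ (i + 2) - 2 * om ^ (i + 1)‖) := by
  rw [Aff_sub, Aff_conj_diff]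
  have e : a * ((2 * om ^ (i + 2) - 2 * om ^ (i + 1)) +
      β * (-om ^ i * (2 * om ^ (i + 2) - 2 * om ^ (i + 1)))) =
      a * ((1 - β * om ^ i) * (2 * om ^ (i + 2) - 2 * om ^ (i + 1))) := by ring
  rw [e, norm_mul, norm_mul]
  rfl

private lemma Aff_norm_om_sub : ‖om - 1‖ = √3 := by
  rw [Complex.norm_eq_sqrt_sq_add_sq]
  congr 1
  simp only [Complex.sub_re, Complex.sub_im, Complex.one_re, Complex.one_im, om_re, om_im]
  have := s3sq
  nlinarith

theorem norm_side (i : ℕ) : ‖2 * om ^ (i + 2) - 2 * om ^ (i + 1)‖ = 2 * √3 := by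
  have e : 2 * om ^ (i + 2) - 2 * om ^ (i + 1) = 2 * om ^ (i + 1) * (om - 1) := by ring
  rw [e, norm_mul, norm_mul, norm_pow, om_norm, Aff_norm_om_sub]
  simp

private lemma Aff_side (a β t : ℂ) (i : ℕ) :
    ‖aff a β t (2 * om ^ (i + 2)) - aff a β t (2 * om ^ (i + 1))‖ =
      ‖a‖ * (2 * √3) * lam β i := by
  rw [norm_aff_side, norm_side]; ring

private lemma Aff_d0 (a β t : ℂ) :
    dist (aff a β t (2 * om)) (aff a β t (2 * om ^ 2)) = ‖a‖ * (2 * √3) * lam β 0 := by
  rw [← Aff_side a β t 0, dist_comm, dist_eq_norm]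
  norm_num

private lemma Aff_d1 (a β t : ℂ) :
    dist (aff a β t (2 * om ^ 2)) (aff a β t 2) = ‖a‖ * (2 * √3) * lam β 1 := by
  rw [← Aff_side a β t 1, dist_comm, dist_eq_norm]
  have : (2 : ℂ) * om ^ (1 + 2) = 2 := by norm_num [om_cube]
  rw [this]

private lemma Aff_d2 (a β t : ℂ) :
    dist (aff a β t 2) (aff a β t (2 * om)) = ‖a‖ * (2 * √3) * lam β 2 := by
  rw [← Aff_side a β t 2, dist_comm, dist_eq_norm]
  have h1 : (2 : ℂ) * om ^ (2 + 1) = 2 := by norm_num [om_cube]
  have h2 : (2 : ℂ) * om ^ (2 + 2) = 2 * om := by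
    have : om ^ (2 + 2) = om ^ 3 * om := by ring
    rw [this, om_cube, one_mul]
  rw [h1, h2]

/-- A4. -/
theorem perim_aff (a β t : ℂ) :
    perim (aff a β t 2) (aff a β t (2 * om)) (aff a β t (2 * om ^ 2)) =
      ‖a‖ * (2 * √3) * Lam β := by
  unfold perim Lam
  rw [Aff_d0, Aff_d1, Aff_d2]
  ring

private lemma Aff_lam_sq (β : ℂ) (i : ℕ) :
    lam β i ^ 2 = 1 + ‖β‖ ^ 2 - 2 * (β * om ^ i).re := by
  unfold lam
  rw [← Complex.normSq_eq_norm_sq, ← Complex.normSq_eq_norm_sq, Complex.normSq_sub]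
  have h : Complex.normSq (β * om ^ i) = Complex.normSq β := by
    rw [Complex.normSq_mul, Complex.normSq_eq_norm_sq (om ^ i), norm_pow, om_norm]; simp
  rw [h]
  simp only [Complex.normSq_one, one_mul, Complex.conj_re]

private lemma Aff_beta_zero {β : ℂ} : β = 0 ↔ (lam β 2 = lam β 0 ∧ lam β 0 = lam β 1) := by
  constructor
  · rintro rfl
    unfold lam
    simp
  · rintro ⟨h1, h2⟩
    have e0 := Aff_lam_sq β 0
    have e1 := Aff_lam_sq β 1
    have e2 := Aff_lam_sq β 2
    rw [h1] at e2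
    rw [← h2] at e1
    simp only [pow_zero, mul_one, pow_one, om_sq, Complex.mul_re, om_re, om_im] at e0 e1 e2
    have h3 := s3pos
    have hre : β.re = 0 := by linarith
    have him : β.im * √3 = 0 := by
      rw [hre] at e0 e1 e2
      linarith
    have him' : β.im = 0 := (mul_eq_zero.1 him).resolve_right h3.ne'
    exact Complex.ext hre him'

private lemma Aff_val0 {a' b' : ℂ} (ha : a' ≠ 0) (t : ℂ) :
    aff a' (b' / a') t 2 = 2 * a' + 2 * b' + t := by
  unfold aff
  have h2 : (starRingEnd ℂ) 2 = 2 := Complex.conj_ofNat 2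
  rw [h2]
  field_simp

private lemma Aff_val1 {a' b' : ℂ} (ha : a' ≠ 0) (t : ℂ) :
    aff a' (b' / a') t (2 * om) = 2 * om * a' + 2 * om ^ 2 * b' + t := by
  unfold aff
  have h2 : (starRingEnd ℂ) 2 = 2 := Complex.conj_ofNat 2
  rw [map_mul, h2, om_conj]
  field_simp

private lemma Aff_val2 {a' b' : ℂ} (ha : a' ≠ 0) (t : ℂ) :
    aff a' (b' / a') t (2 * om ^ 2) = 2 * om ^ 2 * a' + 2 * om * b' + t := by
  unfold aff
  have h2 : (starRingEnd ℂ) 2 = 2 := Complex.conj_ofNat 2
  have h4 : (om ^ 2) ^ 2 = om := by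
    have : (om ^ 2) ^ 2 = om ^ 3 * om := by ring
    rw [this, om_cube, one_mul]
  rw [map_mul, h2, map_pow, om_conj, h4]
  field_simp

private lemma Aff_eqP (P Q R : ℂ) :
    P = 2 * ((P + om ^ 2 * Q + om * R) / 6) + 2 * ((P + om * Q + om ^ 2 * R) / 6) +
      (P + Q + R) / 3 := by
  have h := om_sum
  have h' : om ^ 2 = -1 - om := by linear_combination h
  rw [h']; ring

private lemma Aff_eqQ (P Q R : ℂ) :
    Q = 2 * om * ((P + om ^ 2 * Q + om * R) / 6) + 2 * om ^ 2 * ((P + om * Q + om ^ 2 * R) / 6) +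
      (P + Q + R) / 3 := by
  have h := om_sum
  linear_combination (-(P + R) / 3 - Q * (2 * om - 2) / 3 - (om ^ 2 - om) * R / 3) * h

private lemma Aff_eqR (P Q R : ℂ) :
    R = 2 * om ^ 2 * ((P + om ^ 2 * Q + om * R) / 6) + 2 * om * ((P + om * Q + om ^ 2 * R) / 6) +
      (P + Q + R) / 3 := by
  have h := om_sum
  linear_combination (-(P + Q) / 3 - R * (2 * om - 2) / 3 - (om ^ 2 - om) * Q / 3) * h

private lemma Aff_det (P Q R : ℂ)
    (h : ‖(P + om ^ 2 * Q + om * R) / 6‖ = ‖(P + om * Q + om ^ 2 * R) / 6‖) :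
    (Q.re - P.re) * (R.im - P.im) = (Q.im - P.im) * (R.re - P.re) := by
  have h1 : Complex.normSq ((P + om ^ 2 * Q + om * R)) = Complex.normSq ((P + om * Q + om ^ 2 * R)) := by
    rw [norm_div, norm_div] at h
    have h6 : ‖(6 : ℂ)‖ ≠ 0 := by simp
    have h2 := (div_left_inj' h6).1 h
    rw [Complex.normSq_eq_norm_sq, Complex.normSq_eq_norm_sq, h2]
  rw [Complex.normSq_apply, Complex.normSq_apply] at h1
  simp only [om_sq, Complex.add_re, Complex.add_im, Complex.mul_re, Complex.mul_im, om_re, om_im] at h1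
  have h3 := s3pos
  have h4 : √3 * ((Q.re - P.re) * (R.im - P.im) - (Q.im - P.im) * (R.re - P.re)) = 0 := by
    linear_combination (1 / 2) * h1
  have h5 := (mul_eq_zero.1 h4).resolve_left h3.ne'
  linarith

private lemma Aff_indep {P Q R : ℂ} (h : AffineIndependent ℝ ![P, Q, R]) :
    (Q.re - P.re) * (R.im - P.im) ≠ (Q.im - P.im) * (R.re - P.re) := by
  intro hd
  rw [affineIndependent_iff_not_collinear_set] at h
  apply h
  have hP : P ∈ ({P, Q, R} : Set ℂ) := by simp
  rw [collinear_iff_of_mem hP]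
  by_cases hre : Q.re - P.re = 0
  · by_cases him : Q.im - P.im = 0
    · refine ⟨R - P, ?_⟩
      intro p hp
      rcases hp with rfl | rfl | rfl
      · exact ⟨0, by simp⟩
      · refine ⟨0, ?_⟩
        simp only [zero_smul, zero_vadd]
        exact Complex.ext (by linarith) (by linarith)
      · exact ⟨1, by simp⟩
    · refine ⟨Q - P, ?_⟩
      intro p hp
      rcases hp with rfl | rfl | rfl
      · exact ⟨0, by simp⟩
      · exact ⟨1, by simp⟩
      · refine ⟨(p.im - P.im) / (Q.im - P.im), ?_⟩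
        rw [hre, zero_mul] at hd
        have h1 : p.re - P.re = 0 := (mul_eq_zero.1 hd.symm).resolve_left him
        apply Complex.ext
        · simp only [vadd_eq_add, Complex.add_re, Complex.real_smul, Complex.mul_re, Complex.sub_re,
            Complex.ofReal_re, Complex.ofReal_im, Complex.sub_im]
          rw [hre]
          simp
          linarith
        · simp only [vadd_eq_add, Complex.add_im, Complex.real_smul, Complex.mul_im, Complex.sub_re,
            Complex.ofReal_re, Complex.ofReal_im, Complex.sub_im]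
          rw [div_mul_cancel₀ _ him]
          ring
  · refine ⟨Q - P, ?_⟩
    intro p hp
    rcases hp with rfl | rfl | rfl
    · exact ⟨0, by simp⟩
    · exact ⟨1, by simp⟩
    · refine ⟨(p.re - P.re) / (Q.re - P.re), ?_⟩
      apply Complex.ext
      · simp only [vadd_eq_add, Complex.add_re, Complex.real_smul, Complex.mul_re, Complex.sub_re,
          Complex.ofReal_re, Complex.ofReal_im, Complex.sub_im]
        rw [div_mul_cancel₀ _ hre]
        ring
      · simp only [vadd_eq_add, Complex.add_im, Complex.real_smul, Complex.mul_im, Complex.sub_re,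
          Complex.ofReal_re, Complex.ofReal_im, Complex.sub_im]
        field_simp
        linarith

/-- A1. every nondegenerate triangle is, up to exchanging two vertices, the image of the
reference triangle under `z ↦ a (z + β z̄) + t` with `|β| < 1`; it is equilateral iff `β = 0`.
Proof idea: `P, Q, R = a' ω^j 2 + b' ω^{-j} 2 + t` with `t` the centroid, `a' = (P + ω² Q + ω R)/6`,
`b' = (P + ω Q + ω² R)/6`; nondegenerate iff `|a'| ≠ |b'|`; exchanging `Q, R` exchanges `a', b'`. -/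
theorem normal_form {P Q R : ℂ} (h : AffineIndependent ℝ ![P, Q, R]) :
    ∃ a β t : ℂ, a ≠ 0 ∧ ‖β‖ < 1 ∧
      (β = 0 ↔ (dist P Q = dist Q R ∧ dist Q R = dist R P)) ∧
      ((P = aff a β t 2 ∧ Q = aff a β t (2 * om) ∧ R = aff a β t (2 * om ^ 2)) ∨
       (P = aff a β t 2 ∧ R = aff a β t (2 * om) ∧ Q = aff a β t (2 * om ^ 2))) := by
  have hne := Aff_indep h
  set a' : ℂ := (P + om ^ 2 * Q + om * R) / 6 with ha'
  set b' : ℂ := (P + om * Q + om ^ 2 * R) / 6 with hb'
  have hab : ‖a'‖ ≠ ‖b'‖ := fun h => hne (Aff_det P Q R h)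
  have s3 := s3pos
  rcases lt_or_gt_of_ne hab with hlt | hlt
  · -- |a'| < |b'|
    have hb0 : b' ≠ 0 := by
      intro h0
      rw [h0, norm_zero] at hlt
      exact absurd (norm_nonneg a') (not_le.2 hlt)
    have eP : P = aff b' (a' / b') ((P + Q + R) / 3) 2 := by
      rw [Aff_val0 hb0]
      conv_lhs => rw [Aff_eqP P Q R]
      rw [← ha', ← hb']; ring
    have eR : R = aff b' (a' / b') ((P + Q + R) / 3) (2 * om) := by
      rw [Aff_val1 hb0]
      conv_lhs => rw [Aff_eqR P Q R]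
      rw [← ha', ← hb']; ring
    have eQ : Q = aff b' (a' / b') ((P + Q + R) / 3) (2 * om ^ 2) := by
      rw [Aff_val2 hb0]
      conv_lhs => rw [Aff_eqQ P Q R]
      rw [← ha', ← hb']; ring
    refine ⟨b', a' / b', (P + Q + R) / 3, hb0, ?_, ?_, Or.inr ⟨eP, eR, eQ⟩⟩
    · rw [norm_div, div_lt_one (norm_pos_iff.2 hb0)]; exact hlt
    · have d0 := Aff_d0 b' (a' / b') ((P + Q + R) / 3)
      have d1 := Aff_d1 b' (a' / b') ((P + Q + R) / 3)
      have d2 := Aff_d2 b' (a' / b') ((P + Q + R) / 3)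
      rw [← eR, ← eQ] at d0
      rw [← eP, ← eQ] at d1
      rw [← eP, ← eR] at d2
      have hc : ‖b'‖ * (2 * √3) ≠ 0 := by
        have := norm_pos_iff.2 hb0
        positivity
      rw [Aff_beta_zero, dist_comm P Q, dist_comm Q R, dist_comm R P, d0, d1, d2,
        mul_right_inj' hc, mul_right_inj' hc]
      constructor
      · rintro ⟨h1, h2⟩; exact ⟨h2.symm, h1.symm⟩
      · rintro ⟨h1, h2⟩; exact ⟨h2.symm, h1.symm⟩
  · have ha0 : a' ≠ 0 := by
      intro h0
      rw [h0, norm_zero] at hlt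
      exact absurd (norm_nonneg b') (not_le.2 hlt)
    have eP : P = aff a' (b' / a') ((P + Q + R) / 3) 2 := by
      rw [Aff_val0 ha0]
      conv_lhs => rw [Aff_eqP P Q R]
    have eQ : Q = aff a' (b' / a') ((P + Q + R) / 3) (2 * om) := by
      rw [Aff_val1 ha0]
      conv_lhs => rw [Aff_eqQ P Q R]
    have eR : R = aff a' (b' / a') ((P + Q + R) / 3) (2 * om ^ 2) := by
      rw [Aff_val2 ha0]
      conv_lhs => rw [Aff_eqR P Q R]
    refine ⟨a', b' / a', (P + Q + R) / 3, ha0, ?_, ?_, Or.inl ⟨eP, eQ, eR⟩⟩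
    · rw [norm_div, div_lt_one (norm_pos_iff.2 ha0)]; exact hlt
    · have d0 := Aff_d0 a' (b' / a') ((P + Q + R) / 3)
      have d1 := Aff_d1 a' (b' / a') ((P + Q + R) / 3)
      have d2 := Aff_d2 a' (b' / a') ((P + Q + R) / 3)
      rw [← eR, ← eQ] at d0
      rw [← eP, ← eR] at d1
      rw [← eP, ← eQ] at d2
      have hc : ‖a'‖ * (2 * √3) ≠ 0 := by
        have := norm_pos_iff.2 ha0
        positivity
      rw [Aff_beta_zero, d0, d1, d2, mul_right_inj' hc, mul_right_inj' hc]

private lemma Aff_segInt_symm (f : ℂ → ℝ) (P Q : ℂ) : segInt f P Q = segInt f Q P := by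
  unfold segInt
  rw [norm_sub_rev Q P]
  congr 1
  have h := intervalIntegral.integral_comp_sub_left (a := 0) (b := 1)
    (fun t : ℝ => f (P + t * (Q - P))) 1
  simp only [sub_zero, sub_self] at h
  rw [← h]
  refine intervalIntegral.integral_congr fun t _ => ?_
  congr 1
  push_cast
  ring

private lemma Aff_tri_swap (P Q R : ℂ) : tri P R Q = tri P Q R := by
  unfold tri
  rw [Set.pair_comm R Q]

private lemma Aff_bdInt_swap (P Q R : ℂ) (f : ℂ → ℝ) : bdInt P R Q f = bdInt P Q R f := by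
  unfold bdInt
  rw [Aff_segInt_symm f P R, Aff_segInt_symm f R Q, Aff_segInt_symm f Q P]
  ring

/-- A2. -/
theorem sigma1_swap (P Q R : ℂ) : sigma1 P R Q = sigma1 P Q R := by
  unfold sigma1 energy
  simp only [Aff_tri_swap P Q R, Aff_bdInt_swap P Q R]

theorem perim_swap (P Q R : ℂ) : perim P R Q = perim P Q R := by
  unfold perim
  rw [dist_comm P R, dist_comm R Q, dist_comm Q P]
  ring

theorem area_swap (P Q R : ℂ) : area P R Q = area P Q R := by
  unfold area
  rw [Aff_tri_swap]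

end Pool.Agent.H32.Stek
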