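import Mathlib
import Pool.Agent.H32.Stek.Aff

set_option autoImplicit false

open Complex MeasureTheory
open scoped Pointwise

namespace Pool.Agent.H32.Stek

/-- linear part of the affine map -/
noncomputable def affL (a β : ℂ) : ℂ →L[ℝ] ℂ :=
  a • (ContinuousLinearMap.id ℝ ℂ + β • (Complex.conjCLE : ℂ →L[ℝ] ℂ))

lemma affL_apply (a β z : ℂ) : affL a β z = a * (z + β * (starRingEnd ℂ) z) := by
  simp only [affL, _root_.smul_apply, _root_.add_apply,
    ContinuousLinearMap.id_apply, smul_eq_mul]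
  rfl

lemma aff_eq_affL (a β t z : ℂ) : aff a β t z = affL a β z + t := by
  rw [affL_apply]; rfl

lemma aff_sub (a β t z w : ℂ) : aff a β t w - aff a β t z = affL a β (w - z) := by
  rw [aff_eq_affL, aff_eq_affL, map_sub]; ring

lemma aff_line (a β t P Q : ℂ) (s : ℝ) :
    aff a β t P + s * (aff a β t Q - aff a β t P) = aff a β t (P + s * (Q - P)) := by
  rw [aff_sub, aff_eq_affL, aff_eq_affL, map_add]
  have h : affL a β ((s : ℂ) * (Q - P)) = (s : ℂ) * affL a β (Q - P) := by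
    have := (affL a β).map_smul s (Q - P)
    rwa [Complex.real_smul, Complex.real_smul] at this
  rw [h]; ring

/-- the affine map as a bundled affine map -/
noncomputable def affA (a β t : ℂ) : ℂ →ᵃ[ℝ] ℂ :=
  (affL a β : ℂ →ₗ[ℝ] ℂ).toAffineMap + AffineMap.const ℝ ℂ t

lemma affA_coe (a β t : ℂ) : (affA a β t : ℂ → ℂ) = aff a β t := by
  funext z
  rw [aff_eq_affL]
  rfl

/-- the affine map sends `E` to the image triangle -/
theorem image_E (a β t : ℂ) :
    aff a β t '' E = tri (aff a β t 2) (aff a β t (2 * om)) (aff a β t (2 * om ^ 2)) := by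
  rw [E, tri, tri, ← affA_coe, AffineMap.image_convexHull, affA_coe]
  congr 1
  rw [Set.image_insert_eq, Set.image_insert_eq, Set.image_singleton]

lemma hasFDerivAt_aff (a β t z : ℂ) : HasFDerivAt (aff a β t) (affL a β) z := by
  have h : HasFDerivAt (fun z => affL a β z + t) (affL a β) z :=
    ((affL a β).hasFDerivAt).add_const t
  have he : aff a β t = fun z => affL a β z + t := by
    funext w; rw [aff_eq_affL]
  rw [he]; exact h

lemma contDiff_aff (a β t : ℂ) : ContDiff ℝ 1 (aff a β t) := by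
  have he : aff a β t = fun z => affL a β z + t := by
    funext w; rw [aff_eq_affL]
  rw [he]
  exact (affL a β).contDiff.add contDiff_const

/-- inverse of the affine map -/
noncomputable def affInv (a β t z : ℂ) : ℂ :=
  ((z - t) / a - β * (starRingEnd ℂ) ((z - t) / a)) / ((1 - ‖β‖ ^ 2 : ℝ) : ℂ)

lemma one_sub_pos {β : ℂ} (hβ : ‖β‖ < 1) : 0 < 1 - ‖β‖ ^ 2 := by
  have := norm_nonneg β
  nlinarith

lemma affInv_aff {a β t : ℂ} (ha : a ≠ 0) (hβ : ‖β‖ < 1) (z : ℂ) :
    affInv a β t (aff a β t z) = z := by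
  have h1 : (aff a β t z - t) / a = z + β * (starRingEnd ℂ) z := by
    rw [aff]; field_simp; ring
  rw [affInv, h1, map_add, map_mul, Complex.conj_conj]
  have h2 : ((1 - ‖β‖ ^ 2 : ℝ) : ℂ) ≠ 0 := by
    exact_mod_cast (one_sub_pos hβ).ne'
  rw [div_eq_iff h2]
  have h3 : β * (starRingEnd ℂ) β = ((‖β‖ ^ 2 : ℝ) : ℂ) := by
    rw [Complex.mul_conj, Complex.normSq_eq_norm_sq]
  push_cast at h3 ⊢
  linear_combination (-z) * h3

lemma injective_aff {a β t : ℂ} (ha : a ≠ 0) (hβ : ‖β‖ < 1) :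
    Function.Injective (aff a β t) :=
  Function.LeftInverse.injective (g := affInv a β t) (affInv_aff ha hβ)

lemma contDiff_affInv (a β t : ℂ) : ContDiff ℝ 1 (affInv a β t) := by
  have h1 : ContDiff ℝ 1 (fun z : ℂ => (z - t) / a) := by
    have : (fun z : ℂ => (z - t) / a) = fun z => (z - t) * a⁻¹ := by
      funext z; rw [div_eq_mul_inv]
    rw [this]
    exact (contDiff_id.sub contDiff_const).mul contDiff_const
  have h2 : ContDiff ℝ 1 (fun z : ℂ => (starRingEnd ℂ) ((z - t) / a)) :=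
    (Complex.conjCLE : ℂ →L[ℝ] ℂ).contDiff.comp h1
  have h3 : affInv a β t = fun z : ℂ =>
      ((z - t) / a - β * (starRingEnd ℂ) ((z - t) / a)) * ((1 - ‖β‖ ^ 2 : ℝ) : ℂ)⁻¹ := by
    funext z; rw [affInv, div_eq_mul_inv]
  rw [h3]
  exact (h1.sub (contDiff_const.mul h2)).mul contDiff_const

lemma det_affL (a β : ℂ) : (affL a β).det = ‖a‖ ^ 2 * (1 - ‖β‖ ^ 2) := by
  rw [ContinuousLinearMap.det, ← LinearMap.det_toMatrix Complex.basisOneI, Matrix.det_fin_two]
  simp only [LinearMap.toMatrix_apply, Complex.coe_basisOneI, Complex.coe_basisOneI_repr]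
  simp only [ContinuousLinearMap.coe_coe, Matrix.cons_val_zero, Matrix.cons_val_one, affL_apply]
  rw [← Complex.normSq_eq_norm_sq, ← Complex.normSq_eq_norm_sq, Complex.normSq_apply,
    Complex.normSq_apply]
  simp
  ring

lemma measurableSet_E : MeasurableSet E := by
  have h : IsCompact E := by
    rw [E, tri]
    exact (Set.toFinite _).isCompact_convexHull ℝ
  exact h.isClosed.measurableSet

lemma abs_det_affL {a β : ℂ} (hβ : ‖β‖ < 1) :
    |(affL a β).det| = ‖a‖ ^ 2 * (1 - ‖β‖ ^ 2) := by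
  rw [det_affL]
  exact abs_of_nonneg (mul_nonneg (by positivity) (one_sub_pos hβ).le)

lemma setIntegral_aff {a β t : ℂ} (ha : a ≠ 0) (hβ : ‖β‖ < 1) (g : ℂ → ℝ) :
    ∫ z in tri (aff a β t 2) (aff a β t (2 * om)) (aff a β t (2 * om ^ 2)), g z =
      ‖a‖ ^ 2 * (1 - ‖β‖ ^ 2) * ∫ z in E, g (aff a β t z) := by
  rw [← image_E, integral_image_eq_integral_abs_det_fderiv_smul volume measurableSet_E
    (fun z _ => (hasFDerivAt_aff a β t z).hasFDerivWithinAt) (injective_aff ha hβ).injOn,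
    abs_det_affL hβ]
  simp only [smul_eq_mul]
  rw [integral_const_mul]

/-- change of variables for the area (Jacobian `|a|² (1 - |β|²)`) -/
theorem area_aff_eq {a β t : ℂ} (ha : a ≠ 0) (hβ : ‖β‖ < 1) :
    area (aff a β t 2) (aff a β t (2 * om)) (aff a β t (2 * om ^ 2)) =
      ‖a‖ ^ 2 * (1 - ‖β‖ ^ 2) * (volume E).toReal := by
  have h := setIntegral_aff (t := t) ha hβ (fun _ => (1 : ℝ))
  simp only [integral_const, MeasurableSet.univ, measureReal_restrict_apply, Set.univ_inter,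
    smul_eq_mul, mul_one] at h
  exact h

lemma grad_comp_aff {a β t : ℂ} {u : ℂ → ℝ} (hu : ContDiff ℝ 1 u) (z : ℂ) :
    grad (fun z => u (aff a β t z)) z =
      (starRingEnd ℂ) a * grad u (aff a β t z) +
        a * β * (starRingEnd ℂ) (grad u (aff a β t z)) := by
  have hd : HasFDerivAt u (fderiv ℝ u (aff a β t z)) (aff a β t z) :=
    (hu.differentiable one_ne_zero _).hasFDerivAt
  have hc : HasFDerivAt (fun z => u (aff a β t z))
      ((fderiv ℝ u (aff a β t z)).comp (affL a β)) z := hd.comp z (hasFDerivAt_aff a β t z)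
  have hl : ∀ h : ℂ, fderiv ℝ u (aff a β t z) h =
      h.re * fderiv ℝ u (aff a β t z) 1 + h.im * fderiv ℝ u (aff a β t z) I := by
    intro h
    have : h = h.re • (1 : ℂ) + h.im • I := by
      apply Complex.ext <;> simp
    conv_lhs => rw [this]
    rw [map_add, map_smul, map_smul, smul_eq_mul, smul_eq_mul]
  rw [grad, hc.fderiv, grad]
  simp only [ContinuousLinearMap.comp_apply]
  rw [hl (affL a β 1), hl (affL a β I), affL_apply, affL_apply]
  apply Complex.ext
  · simp
    ring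
  · simp
    ring

lemma norm_grad_comp {a β t : ℂ} {u : ℂ → ℝ} (hu : ContDiff ℝ 1 u) (z : ℂ) :
    ‖grad (fun z => u (aff a β t z)) z -
      β * (starRingEnd ℂ) (grad (fun z => u (aff a β t z)) z)‖ ^ 2 =
      ‖a‖ ^ 2 * (1 - ‖β‖ ^ 2) ^ 2 * ‖grad u (aff a β t z)‖ ^ 2 := by
  rw [grad_comp_aff hu]
  set g := grad u (aff a β t z) with hg
  have h3 : β * (starRingEnd ℂ) β = ((‖β‖ ^ 2 : ℝ) : ℂ) := by
    rw [Complex.mul_conj, Complex.normSq_eq_norm_sq]
  have h : (starRingEnd ℂ) a * g + a * β * (starRingEnd ℂ) g -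
      β * (starRingEnd ℂ) ((starRingEnd ℂ) a * g + a * β * (starRingEnd ℂ) g) =
      (starRingEnd ℂ) a * ((1 - ‖β‖ ^ 2 : ℝ) : ℂ) * g := by
    simp only [map_add, map_mul, Complex.conj_conj]
    push_cast at h3 ⊢
    linear_combination (-(starRingEnd ℂ) a * g) * h3
  rw [h, norm_mul, norm_mul, Complex.norm_conj, Complex.norm_real, mul_pow, mul_pow,
    Real.norm_eq_abs, sq_abs]

/-- Dirichlet integral of `u` on the image triangle, in terms of `u ∘ aff` on `E` -/
theorem energy_aff {a β t : ℂ} (ha : a ≠ 0) (hβ : ‖β‖ < 1) {u : ℂ → ℝ} (hu : ContDiff ℝ 1 u) :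
    energy (aff a β t 2) (aff a β t (2 * om)) (aff a β t (2 * om ^ 2)) u =
      NE β (fun z => u (aff a β t z)) := by
  rw [energy, setIntegral_aff ha hβ, NE]
  have h : (fun z => ‖grad (fun z => u (aff a β t z)) z -
      β * (starRingEnd ℂ) (grad (fun z => u (aff a β t z)) z)‖ ^ 2) =
      fun z => ‖a‖ ^ 2 * (1 - ‖β‖ ^ 2) ^ 2 * ‖grad u (aff a β t z)‖ ^ 2 := by
    funext z; exact norm_grad_comp hu z
  rw [h, integral_const_mul]
  have := (one_sub_pos hβ).ne'
  field_simp

/-- boundary integrals -/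
theorem bdInt_aff (a β t : ℂ) (f : ℂ → ℝ) :
    bdInt (aff a β t 2) (aff a β t (2 * om)) (aff a β t (2 * om ^ 2)) f =
      ‖a‖ * DE β (fun z => f (aff a β t z)) := by
  have key : ∀ i : ℕ, segInt f (aff a β t (2 * om ^ (i + 1))) (aff a β t (2 * om ^ (i + 2))) =
      ‖a‖ * (lam β i * side i (fun z => f (aff a β t z))) := by
    intro i
    rw [segInt, norm_aff_side, side, segInt]
    have : (fun s : ℝ => f (aff a β t (2 * om ^ (i + 1)) +
        s * (aff a β t (2 * om ^ (i + 2)) - aff a β t (2 * om ^ (i + 1))))) =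
        fun s : ℝ => f (aff a β t (2 * om ^ (i + 1) +
          s * (2 * om ^ (i + 2) - 2 * om ^ (i + 1)))) := by
      funext s; rw [aff_line]
    rw [this]; ring
  have h0 := key 0
  have h1 := key 1
  have h2 := key 2
  have e3 : om ^ 3 = 1 := om_cube
  have e4 : om ^ 4 = om := by
    calc om ^ 4 = om ^ 3 * om := by ring
      _ = om := by rw [e3, one_mul]
  norm_num at h0 h1 h2
  rw [e3, mul_one] at h1 h2
  rw [e4] at h2
  rw [bdInt, DE, h0, h1, h2]
  ring

/-- A3. -/
theorem sigma1_aff {a β t : ℂ} (ha : a ≠ 0) (hβ : ‖β‖ < 1) :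
    sigma1 (aff a β t 2) (aff a β t (2 * om)) (aff a β t (2 * om ^ 2)) = Sb β / ‖a‖ := by
  have hna : 0 < ‖a‖ := norm_pos_iff.mpr ha
  rw [sigma1, Sb]
  have hset : {s | ∃ u : ℂ → ℝ, ContDiff ℝ 1 u ∧
      bdInt (aff a β t 2) (aff a β t (2 * om)) (aff a β t (2 * om ^ 2)) u = 0 ∧
      0 < bdInt (aff a β t 2) (aff a β t (2 * om)) (aff a β t (2 * om ^ 2)) (fun z => u z ^ 2) ∧
      s = energy (aff a β t 2) (aff a β t (2 * om)) (aff a β t (2 * om ^ 2)) u /
        bdInt (aff a β t 2) (aff a β t (2 * om)) (aff a β t (2 * om ^ 2)) (fun z => u z ^ 2)} =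
      (‖a‖⁻¹ : ℝ) • {s | ∃ u : ℂ → ℝ, ContDiff ℝ 1 u ∧ DE β u = 0 ∧
        0 < DE β (fun z => u z ^ 2) ∧ s = NE β u / DE β (fun z => u z ^ 2)} := by
    ext s
    rw [Set.mem_smul_set]
    constructor
    · rintro ⟨u, hu, h0, hp, rfl⟩
      rw [bdInt_aff] at h0 hp
      refine ⟨NE β (fun z => u (aff a β t z)) / DE β (fun z => u (aff a β t z) ^ 2),
        ⟨fun z => u (aff a β t z), hu.comp (contDiff_aff a β t), ?_, ?_, rfl⟩, ?_⟩
      · rcases mul_eq_zero.mp h0 with h | h
        · exact absurd h hna.ne'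
        · exact h
      · exact (pos_iff_pos_of_mul_pos hp).mp hna
      · rw [energy_aff ha hβ hu, bdInt_aff, smul_eq_mul, inv_mul_eq_div, div_div, mul_comm ‖a‖]
    · rintro ⟨s', ⟨w, hw, h0, hp, rfl⟩, rfl⟩
      have hu : ContDiff ℝ 1 (fun z => w (affInv a β t z)) := hw.comp (contDiff_affInv a β t)
      have hc : (fun z => w (affInv a β t (aff a β t z))) = w := by
        funext z; rw [affInv_aff ha hβ]
      have hc2 : (fun z => w (affInv a β t (aff a β t z)) ^ 2) = fun z => w z ^ 2 := by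
        funext z; rw [affInv_aff ha hβ]
      refine ⟨fun z => w (affInv a β t z), hu, ?_, ?_, ?_⟩
      · rw [bdInt_aff, hc, h0, mul_zero]
      · rw [bdInt_aff, hc2]
        exact mul_pos hna hp
      · rw [energy_aff ha hβ hu, bdInt_aff, hc, hc2, smul_eq_mul, inv_mul_eq_div, div_div,
          mul_comm ‖a‖]
  rw [hset, Real.sInf_smul_of_nonneg (inv_nonneg.mpr hna.le), smul_eq_mul, inv_mul_eq_div]

end Pool.Agent.H32.Stek
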