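import Mathlib
import Pool.Agent.H32.Stek.Defs

set_option autoImplicit false

open Complex MeasureTheory

namespace Pool.Agent.H32.Stek

theorem mem_E3 {z : ℂ} : z ∈ E ↔ -1 ≤ z.re ∧ z.re + √3 * z.im ≤ 2 ∧ z.re - √3 * z.im ≤ 2 := by
  have h3 := s3
  have h0 := s3pos
  constructor
  · intro hz
    have hconv : Convex ℝ {z : ℂ | -1 ≤ z.re ∧ z.re + √3 * z.im ≤ 2 ∧ z.re - √3 * z.im ≤ 2} := by
      intro x hx y hy a b ha hb hab
      obtain ⟨hx1, hx2, hx3⟩ := hx
      obtain ⟨hy1, hy2, hy3⟩ := hy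
      have hb' : b = 1 - a := by linarith
      subst hb'
      simp only [Set.mem_ofPred_eq, Complex.add_re, Complex.add_im, Complex.real_smul,
        Complex.mul_re, Complex.mul_im, Complex.ofReal_re, Complex.ofReal_im, zero_mul, sub_zero,
        add_zero]
      refine ⟨?_, ?_, ?_⟩
      · nlinarith
      · nlinarith [mul_le_mul_of_nonneg_left hx2 ha, mul_le_mul_of_nonneg_left hy2 hb]
      · nlinarith [mul_le_mul_of_nonneg_left hx3 ha, mul_le_mul_of_nonneg_left hy3 hb]
    refine convexHull_min ?_ hconv hz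
    intro w hw
    simp only [Set.mem_insert_iff, Set.mem_singleton_iff] at hw
    rcases hw with rfl | rfl | rfl
    · simp only [Set.mem_ofPred_eq, Complex.re_ofNat, Complex.im_ofNat]
      norm_num
    · simp only [Set.mem_ofPred_eq, Complex.mul_re, Complex.mul_im, Complex.re_ofNat,
        Complex.im_ofNat, om_re, om_im]
      refine ⟨by norm_num, ?_, ?_⟩ <;> nlinarith
    · simp only [Set.mem_ofPred_eq, om_sq, Complex.mul_re, Complex.mul_im, Complex.re_ofNat,
        Complex.im_ofNat]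
      refine ⟨by norm_num, ?_, ?_⟩ <;> nlinarith
  · rintro ⟨h1, h2, h3'⟩
    have key : z = ((1 + z.re) / 3 : ℝ) • (2 : ℂ) + ((2 - z.re + √3 * z.im) / 6 : ℝ) • (2 * om)
        + ((2 - z.re - √3 * z.im) / 6 : ℝ) • (2 * om ^ 2) := by
      rw [om_sq]
      apply Complex.ext
      · simp only [Complex.add_re, Complex.real_smul, Complex.mul_re, Complex.ofReal_re,
          Complex.ofReal_im, Complex.re_ofNat, Complex.im_ofNat, om_re, om_im]
        ring
      · simp only [Complex.add_im, Complex.real_smul, Complex.mul_im, Complex.mul_re,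
          Complex.ofReal_re, Complex.ofReal_im, Complex.re_ofNat, Complex.im_ofNat, om_re, om_im]
        nlinarith
    rw [key]
    have hc := convex_convexHull ℝ ({2, 2 * om, 2 * om ^ 2} : Set ℂ)
    have m1 : (2 : ℂ) ∈ convexHull ℝ ({2, 2 * om, 2 * om ^ 2} : Set ℂ) :=
      subset_convexHull ℝ _ (by simp)
    have m2 : (2 * om : ℂ) ∈ convexHull ℝ ({2, 2 * om, 2 * om ^ 2} : Set ℂ) :=
      subset_convexHull ℝ _ (by simp)
    have m3 : (2 * om ^ 2 : ℂ) ∈ convexHull ℝ ({2, 2 * om, 2 * om ^ 2} : Set ℂ) :=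
      subset_convexHull ℝ _ (by simp)
    have := hc.sum_mem (t := Finset.univ) (w := ![(1 + z.re) / 3, (2 - z.re + √3 * z.im) / 6,
      (2 - z.re - √3 * z.im) / 6]) (z := ![(2:ℂ), 2 * om, 2 * om ^ 2]) ?_ ?_ ?_
    · simpa [Fin.sum_univ_three, E, tri] using this
    · intro i _
      fin_cases i
      · show 0 ≤ (1 + z.re) / 3
        linarith
      · show 0 ≤ (2 - z.re + √3 * z.im) / 6
        linarith
      · show 0 ≤ (2 - z.re - √3 * z.im) / 6
        linarith
    · simp [Fin.sum_univ_three]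
      ring
    · intro i _
      fin_cases i
      · exact m1
      · exact m2
      · exact m3

/-- B1. -/
theorem mem_E {z : ℂ} : z ∈ E ↔ -1 ≤ z.re ∧ z.re + √3 * |z.im| ≤ 2 := by
  have h0 := s3pos
  rw [mem_E3]
  rcases abs_cases z.im with ⟨h, h'⟩ | ⟨h, h'⟩ <;> rw [h]
  · constructor
    · rintro ⟨a, b, c⟩
      exact ⟨a, b⟩
    · rintro ⟨a, b⟩
      exact ⟨a, b, by nlinarith⟩
  · constructor
    · rintro ⟨a, b, c⟩
      exact ⟨a, by linarith⟩
    · rintro ⟨a, b⟩
      exact ⟨a, by nlinarith, by linarith⟩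

theorem isCompact_E : IsCompact E := by
  unfold E tri
  exact Set.Finite.isCompact_convexHull (𝕜 := ℝ) (Set.toFinite _)

theorem measurableSet_E : MeasurableSet E := isCompact_E.isClosed.measurableSet

theorem integrableOn_E {V : Type*} [NormedAddCommGroup V] {F : ℂ → V} (hF : Continuous F) :
    IntegrableOn F E := hF.continuousOn.integrableOn_compact isCompact_E

/-- Fubini, outer variable `y` -/
theorem fub_yx {S : Set ℂ} (hS : MeasurableSet S) {F : ℂ → ℝ} (hF : IntegrableOn F S) :
    ∫ z in S, F z = ∫ y : ℝ, ∫ x : ℝ, S.indicator F ⟨x, y⟩ := by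
  have hi : Integrable (S.indicator F) := (integrable_indicator_iff hS).mpr hF
  have mp := Complex.volume_preserving_equiv_real_prod.symm
  rw [← integral_indicator hS, ← mp.integral_comp' (S.indicator F)]
  have hi2 : Integrable (fun p : ℝ × ℝ => S.indicator F (Complex.measurableEquivRealProd.symm p))
      (volume : Measure (ℝ × ℝ)) := (mp.integrable_comp_emb
        (MeasurableEquiv.measurableEmbedding _)).mpr hi
  rw [Measure.volume_eq_prod] at hi2 ⊢
  rw [integral_prod_symm _ hi2]
  rfl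

/-- Fubini, outer variable `x` -/
theorem fub_xy {S : Set ℂ} (hS : MeasurableSet S) {F : ℂ → ℝ} (hF : IntegrableOn F S) :
    ∫ z in S, F z = ∫ x : ℝ, ∫ y : ℝ, S.indicator F ⟨x, y⟩ := by
  have hi : Integrable (S.indicator F) := (integrable_indicator_iff hS).mpr hF
  have mp := Complex.volume_preserving_equiv_real_prod.symm
  rw [← integral_indicator hS, ← mp.integral_comp' (S.indicator F)]
  have hi2 : Integrable (fun p : ℝ × ℝ => S.indicator F (Complex.measurableEquivRealProd.symm p))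
      (volume : Measure (ℝ × ℝ)) := (mp.integrable_comp_emb
        (MeasurableEquiv.measurableEmbedding _)).mpr hi
  rw [Measure.volume_eq_prod] at hi2 ⊢
  rw [integral_prod _ hi2]
  rfl


lemma cont_mk {F : ℂ → ℝ} (hF : Continuous F) :
    Continuous fun p : ℝ × ℝ => F ⟨p.1, p.2⟩ := by
  refine hF.comp ?_
  have : (fun p : ℝ × ℝ => (⟨p.1, p.2⟩ : ℂ)) = fun p : ℝ × ℝ => (p.1 : ℂ) + (p.2 : ℂ) * I := by
    funext p
    exact Complex.mk_eq_add_mul_I _ _
  rw [this]
  fun_prop

/-- splitting a symmetric interval -/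
lemma fold_symm {g : ℝ → ℝ} (hg : Continuous g) (c : ℝ) :
    ∫ y in (-c)..c, g y = ∫ y in (0:ℝ)..c, (g y + g (-y)) := by
  have hg2 : Continuous fun y => g (-y) := hg.comp continuous_neg
  rw [intervalIntegral.integral_add (hg.intervalIntegrable _ _)
    (hg2.intervalIntegrable _ _)]
  have : ∫ y in (0:ℝ)..c, g (-y) = ∫ y in (-c)..0, g y := by
    rw [intervalIntegral.integral_comp_neg (fun y => g y)]
    simp
  rw [this, add_comm]
  exact (intervalIntegral.integral_add_adjacent_intervals (hg.intervalIntegrable _ _)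
    (hg.intervalIntegrable _ _)).symm

/-- B2. Fubini, horizontal slices -/
theorem integral_E_yx {F : ℂ → ℝ} (hF : Continuous F) :
    ∫ z in E, F z =
      ∫ y in (0:ℝ)..√3, ∫ x in (-1:ℝ)..(2 - √3 * y), (F ⟨x, y⟩ + F ⟨x, -y⟩) := by
  have h0 := s3pos
  have h3 := s3
  have hc := cont_mk hF
  rw [fub_yx measurableSet_E (integrableOn_E hF)]
  set g : ℝ → ℝ := fun y => ∫ x in (-1:ℝ)..(2 - √3 * |y|), F ⟨x, y⟩ with hg
  have hgc : Continuous g := by
    apply intervalIntegral.continuous_parametric_intervalIntegral_of_continuous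
    · exact hc.comp (continuous_snd.prodMk continuous_fst)
    · fun_prop
  have key : ∀ y : ℝ, ∫ x : ℝ, E.indicator F ⟨x, y⟩ = (Set.Icc (-√3) √3).indicator g y := by
    intro y
    by_cases hy : y ∈ Set.Icc (-√3) √3
    · rw [Set.indicator_of_mem hy]
      have hy' : |y| ≤ √3 := abs_le.mpr ⟨hy.1, hy.2⟩
      have hle : (-1:ℝ) ≤ 2 - √3 * |y| := by nlinarith
      rw [hg]
      simp only
      rw [intervalIntegral.integral_of_le hle, ← integral_Icc_eq_integral_Ioc,
        ← integral_indicator measurableSet_Icc]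
      congr 1
      funext x
      by_cases hx : x ∈ Set.Icc (-1:ℝ) (2 - √3 * |y|)
      · rw [Set.indicator_of_mem hx, Set.indicator_of_mem]
        rw [mem_E]
        exact ⟨hx.1, by have := hx.2; simp only; linarith⟩
      · rw [Set.indicator_of_notMem hx, Set.indicator_of_notMem]
        rw [mem_E]
        rintro ⟨h1, h2⟩
        exact hx ⟨h1, by simp only at h2; linarith⟩
    · rw [Set.indicator_of_notMem hy]
      have : ∀ x : ℝ, E.indicator F ⟨x, y⟩ = 0 := by
        intro x
        rw [Set.indicator_of_notMem]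
        rw [mem_E]
        rintro ⟨h1, h2⟩
        simp only at h1 h2
        apply hy
        have : |y| ≤ √3 := by
          by_contra hcon
          push Not at hcon
          nlinarith
        exact abs_le.mp this
      simp [this]
  simp only [key]
  rw [integral_indicator measurableSet_Icc, integral_Icc_eq_integral_Ioc,
    ← intervalIntegral.integral_of_le (by linarith), fold_symm hgc]
  apply intervalIntegral.integral_congr
  intro y hy
  rw [Set.uIcc_of_le h0.le] at hy
  have hy0 : |y| = y := abs_of_nonneg hy.1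
  simp only [hg, abs_neg, hy0]
  have c1 : Continuous fun x : ℝ => F ⟨x, y⟩ := hc.comp (by fun_prop : Continuous fun x : ℝ => (x, y))
  have c2 : Continuous fun x : ℝ => F ⟨x, -y⟩ :=
    hc.comp (by fun_prop : Continuous fun x : ℝ => (x, -y))
  rw [intervalIntegral.integral_add (c1.intervalIntegrable _ _) (c2.intervalIntegrable _ _)]

/-- B3. Fubini, vertical slices -/
theorem integral_E_xy {F : ℂ → ℝ} (hF : Continuous F) :
    ∫ z in E, F z =
      ∫ x in (-1:ℝ)..2, ∫ y in (0:ℝ)..((2 - x) / √3), (F ⟨x, y⟩ + F ⟨x, -y⟩) := by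
  have h0 := s3pos
  have h3 := s3
  have hc := cont_mk hF
  rw [fub_xy measurableSet_E (integrableOn_E hF)]
  set g : ℝ → ℝ := fun x => ∫ y in (0:ℝ)..((2 - x) / √3), (F ⟨x, y⟩ + F ⟨x, -y⟩) with hg
  have key : ∀ x : ℝ, ∫ y : ℝ, E.indicator F ⟨x, y⟩ = (Set.Icc (-1:ℝ) 2).indicator g x := by
    intro x
    by_cases hx : x ∈ Set.Icc (-1:ℝ) 2
    · rw [Set.indicator_of_mem hx]
      have hp : 0 ≤ (2 - x) / √3 := div_nonneg (by linarith [hx.2]) h0.le
      have c1 : Continuous fun y : ℝ => F ⟨x, y⟩ :=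
        hc.comp (by fun_prop : Continuous fun y : ℝ => (x, y))
      rw [hg]
      simp only
      rw [← fold_symm c1, intervalIntegral.integral_of_le (by linarith),
        ← integral_Icc_eq_integral_Ioc, ← integral_indicator measurableSet_Icc]
      congr 1
      funext y
      have hiff : y ∈ Set.Icc (-((2 - x) / √3)) ((2 - x) / √3) ↔ x + √3 * |y| ≤ 2 := by
        rw [Set.mem_Icc, ← abs_le, le_div_iff₀ h0]
        constructor <;> intro h <;> linarith
      by_cases hy : y ∈ Set.Icc (-((2 - x) / √3)) ((2 - x) / √3)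
      · rw [Set.indicator_of_mem hy, Set.indicator_of_mem]
        rw [mem_E]
        exact ⟨hx.1, hiff.mp hy⟩
      · rw [Set.indicator_of_notMem hy, Set.indicator_of_notMem]
        rw [mem_E]
        rintro ⟨h1, h2⟩
        exact hy (hiff.mpr h2)
    · rw [Set.indicator_of_notMem hx]
      have : ∀ y : ℝ, E.indicator F ⟨x, y⟩ = 0 := by
        intro y
        rw [Set.indicator_of_notMem]
        rw [mem_E]
        rintro ⟨h1, h2⟩
        simp only at h1 h2
        apply hx
        refine ⟨h1, ?_⟩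
        have := mul_nonneg h0.le (abs_nonneg y)
        linarith
      simp [this]
  simp only [key]
  rw [integral_indicator measurableSet_Icc, integral_Icc_eq_integral_Ioc,
    ← intervalIntegral.integral_of_le (by norm_num)]

/-- rotation as a measure preserving map -/
lemma mp_rot : MeasurePreserving (fun z : ℂ => om * z) (volume : Measure ℂ) volume := by
  have h := (rotation (⟨om, by simp [Submonoid.unitSphere, om_norm]⟩ : Circle)).measurePreserving
  exact h

lemma emb_rot : MeasurableEmbedding (fun z : ℂ => om * z) := by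
  have h := (rotation (⟨om, by simp [Submonoid.unitSphere, om_norm]⟩ : Circle)).toHomeomorph.measurableEmbedding
  exact h

lemma mp_conj : MeasurePreserving (fun z : ℂ => (starRingEnd ℂ) z) (volume : Measure ℂ) volume := by
  have h := Complex.conjLIE.measurePreserving
  exact h

lemma emb_conj : MeasurableEmbedding (fun z : ℂ => (starRingEnd ℂ) z) := by
  have h := Complex.conjLIE.toHomeomorph.measurableEmbedding
  exact h


lemma rot_mem {z : ℂ} : om * z ∈ E ↔ z ∈ E := by
  have h3 := s3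
  rw [mem_E3, mem_E3]
  simp only [Complex.mul_re, Complex.mul_im, om_re, om_im]
  constructor
  · rintro ⟨a, b, c⟩
    refine ⟨?_, ?_, ?_⟩ <;> nlinarith
  · rintro ⟨a, b, c⟩
    refine ⟨?_, ?_, ?_⟩ <;> nlinarith

lemma conj_mem {z : ℂ} : (starRingEnd ℂ) z ∈ E ↔ z ∈ E := by
  rw [mem_E, mem_E, Complex.conj_re, Complex.conj_im, abs_neg]

lemma int_rot {V : Type*} [NormedAddCommGroup V] [NormedSpace ℝ V] (S : Set ℂ) (F : ℂ → V) :
    ∫ z in (fun z : ℂ => om * z) ⁻¹' S, F (om * z) = ∫ z in S, F z :=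
  mp_rot.setIntegral_preimage_emb emb_rot F S

lemma int_conj {V : Type*} [NormedAddCommGroup V] [NormedSpace ℝ V] (S : Set ℂ) (F : ℂ → V) :
    ∫ z in (fun z : ℂ => (starRingEnd ℂ) z) ⁻¹' S, F ((starRingEnd ℂ) z) = ∫ z in S, F z :=
  mp_conj.setIntegral_preimage_emb emb_conj F S

/-- B4. -/
theorem integral_E_rot {V : Type*} [NormedAddCommGroup V] [NormedSpace ℝ V] (F : ℂ → V) :
    ∫ z in E, F (om * z) = ∫ z in E, F z := by
  have h := int_rot E F
  have he : (fun z : ℂ => om * z) ⁻¹' E = E := by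
    ext z
    exact rot_mem
  rwa [he] at h

/-- B5. -/
theorem integral_E_conj {V : Type*} [NormedAddCommGroup V] [NormedSpace ℝ V] (F : ℂ → V) :
    ∫ z in E, F ((starRingEnd ℂ) z) = ∫ z in E, F z := by
  have h := int_conj E F
  have he : (fun z : ℂ => (starRingEnd ℂ) z) ⁻¹' E = E := by
    ext z
    exact conj_mem
  rwa [he] at h

/-- area of E -/
theorem volume_E : (volume E).toReal = 3 * √3 := by
  have h0 := s3pos
  have h3 := s3
  have h1 : ∫ z in E, (1:ℝ) = (volume E).toReal := by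
    simp [Measure.real]
  rw [← h1, integral_E_yx (F := fun _ => (1:ℝ)) continuous_const]
  have h2 : ∀ y : ℝ, ∫ x in (-1:ℝ)..(2 - √3 * y), ((1:ℝ) + 1) = 6 - 2 * √3 * y := by
    intro y
    rw [intervalIntegral.integral_const]
    simp only [smul_eq_mul]
    ring
  simp only [h2]
  rw [intervalIntegral.integral_sub (by simp) (by
    apply Continuous.intervalIntegrable; fun_prop)]
  rw [intervalIntegral.integral_const, intervalIntegral.integral_const_mul, integral_id]
  simp only [smul_eq_mul]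
  nlinarith

/-- the open sector of `E` between the directions `120` and `180` degrees -/
def Sec : Set ℂ := {z | z ∈ E ∧ 0 < z.im ∧ 0 < (om ^ 2 * z).im}

lemma measurable_Sec : MeasurableSet Sec := by
  have h1 : IsOpen {z : ℂ | 0 < z.im} := isOpen_lt continuous_const Complex.continuous_im
  have h2 : IsOpen {z : ℂ | 0 < (om ^ 2 * z).im} :=
    isOpen_lt continuous_const (Complex.continuous_im.comp (by fun_prop))
  exact measurableSet_E.inter (h1.measurableSet.inter h2.measurableSet)

lemma om2_im (z : ℂ) : (om ^ 2 * z).im = (-√3 * z.re - z.im) / 2 := by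
  rw [om_sq]
  simp only [Complex.mul_im]
  ring

lemma om1_im (z : ℂ) : (om * z).im = (√3 * z.re - z.im) / 2 := by
  simp only [Complex.mul_im, om_re, om_im]
  ring

/-- integral over the sector as an iterated integral -/
lemma int_Sec {F : ℂ → ℝ} (hF : Continuous F) :
    ∫ z in Sec, F z = ∫ y in (0:ℝ)..√3, ∫ x in (-1:ℝ)..(-y / √3), F ⟨x, y⟩ := by
  have h0 := s3pos
  have h3 := s3
  have hi : IntegrableOn F Sec := (integrableOn_E hF).mono_set (fun z hz => hz.1)
  rw [fub_yx measurable_Sec hi]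
  have hmem : ∀ x y : ℝ, (⟨x, y⟩ : ℂ) ∈ Sec ↔ y ∈ Set.Ioo 0 √3 ∧ x ∈ Set.Ico (-1) (-y / √3) := by
    intro x y
    have e : x < -y / √3 ↔ √3 * x < -y := by
      rw [lt_div_iff₀ h0, mul_comm]
    show ((⟨x, y⟩ : ℂ) ∈ E ∧ 0 < y ∧ 0 < (om ^ 2 * (⟨x, y⟩ : ℂ)).im) ↔ _
    rw [om2_im, mem_E3]
    simp only [Set.mem_Ioo, Set.mem_Ico, e]
    constructor
    · rintro ⟨⟨a, b, c⟩, d, f⟩
      refine ⟨⟨d, ?_⟩, a, by linarith⟩
      nlinarith
    · rintro ⟨⟨a, b⟩, c, d⟩
      have hx : x ≤ 0 := by
        by_contra hcon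
        push Not at hcon
        nlinarith
      refine ⟨⟨c, ?_, ?_⟩, a, by linarith⟩ <;> nlinarith
  have key : ∀ y : ℝ, ∫ x : ℝ, Sec.indicator F ⟨x, y⟩ =
      (Set.Ioo 0 √3).indicator (fun y => ∫ x in (-1:ℝ)..(-y / √3), F ⟨x, y⟩) y := by
    intro y
    by_cases hy : y ∈ Set.Ioo 0 √3
    · rw [Set.indicator_of_mem hy]
      have hle : (-1:ℝ) ≤ -y / √3 := by
        rw [le_div_iff₀ h0]
        linarith [hy.2]
      rw [intervalIntegral.integral_of_le hle, ← integral_Ico_eq_integral_Ioc,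
        ← integral_indicator measurableSet_Ico]
      congr 1
      funext x
      by_cases hx : x ∈ Set.Ico (-1:ℝ) (-y / √3)
      · rw [Set.indicator_of_mem hx, Set.indicator_of_mem]
        exact (hmem x y).mpr ⟨hy, hx⟩
      · rw [Set.indicator_of_notMem hx, Set.indicator_of_notMem]
        exact fun h => hx ((hmem x y).mp h).2
    · rw [Set.indicator_of_notMem hy]
      have : ∀ x : ℝ, Sec.indicator F ⟨x, y⟩ = 0 := by
        intro x
        rw [Set.indicator_of_notMem]
        exact fun h => hy ((hmem x y).mp h).1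
      simp [this]
  simp only [key]
  rw [integral_indicator measurableSet_Ioo, ← integral_Ioc_eq_integral_Ioo,
    ← intervalIntegral.integral_of_le h0.le]

/-- B6. six-fold lower bound: the six images of the open triangle `0, -1, 2ω` under the
symmetry group are disjoint subsets of `E`. -/
theorem six_fold {F : ℂ → ℝ} (hF : Continuous F) (h0 : ∀ z, 0 ≤ F z)
    (hr : ∀ z, F (om * z) = F z) (hc : ∀ z, F ((starRingEnd ℂ) z) = F z) :
    6 * ∫ y in (0:ℝ)..√3, ∫ x in (-1:ℝ)..(-y / √3), F ⟨x, y⟩ ≤ ∫ z in E, F z := by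
  rw [← int_Sec hF]
  set ρ : ℂ → ℂ := fun z => om * z with hρ
  set κ : ℂ → ℂ := fun z => (starRingEnd ℂ) z with hκ
  set S2 : Set ℂ := ρ ⁻¹' Sec with hS2
  set S3 : Set ℂ := ρ ⁻¹' S2 with hS3
  set U : Set ℂ := Sec ∪ (S2 ∪ S3) with hU
  have mρ : Measurable ρ := emb_rot.measurable
  have mκ : Measurable κ := emb_conj.measurable
  have m1 := measurable_Sec
  have m2 : MeasurableSet S2 := mρ m1
  have m3 : MeasurableSet S3 := mρ m2
  have mU : MeasurableSet U := m1.union (m2.union m3)
  have hom3 : ∀ z : ℂ, om ^ 2 * (om * z) = z := by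
    intro z
    rw [← mul_assoc, show om ^ 2 * om = om ^ 3 by ring, om_cube, one_mul]
  have e2 : ∀ z : ℂ, z ∈ S2 ↔ z ∈ E ∧ 0 < (om * z).im ∧ 0 < z.im := by
    intro z
    show (om * z ∈ E ∧ 0 < (om * z).im ∧ 0 < (om ^ 2 * (om * z)).im) ↔ _
    rw [rot_mem, hom3]
  have e3 : ∀ z : ℂ, z ∈ S3 ↔ z ∈ E ∧ 0 < (om ^ 2 * z).im ∧ 0 < (om * z).im := by
    intro z
    show om * z ∈ S2 ↔ _
    rw [e2, rot_mem, ← mul_assoc, show om * om = om ^ 2 by ring]
  have hsum : ∀ z : ℂ, z.im + (om * z).im + (om ^ 2 * z).im = 0 := by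
    intro z
    rw [om1_im, om2_im]
    ring
  have e1 : ∀ z : ℂ, z ∈ Sec ↔ z ∈ E ∧ 0 < z.im ∧ 0 < (om ^ 2 * z).im := fun z => Iff.rfl
  have hi1 : ∀ s : Set ℂ, s ⊆ E → IntegrableOn F s := fun s hs => (integrableOn_E hF).mono_set hs
  have s1 : Sec ⊆ E := fun z hz => hz.1
  have s2 : S2 ⊆ E := fun z hz => ((e2 z).mp hz).1
  have s3' : S3 ⊆ E := fun z hz => ((e3 z).mp hz).1
  have sU : U ⊆ E := Set.union_subset s1 (Set.union_subset s2 s3')
  have i2 : ∫ z in S2, F z = ∫ z in Sec, F z := by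
    rw [← int_rot Sec F]
    simp only [hr]
    rfl
  have i3 : ∫ z in S3, F z = ∫ z in Sec, F z := by
    rw [← i2, ← int_rot S2 F]
    simp only [hr]
    rfl
  have d23 : Disjoint S2 S3 := by
    rw [Set.disjoint_left]
    intro z hz hz'
    have a := ((e2 z).mp hz).2
    have b := ((e3 z).mp hz').2
    linarith [hsum z, a.1, a.2, b.1, b.2]
  have d1 : Disjoint Sec (S2 ∪ S3) := by
    rw [Set.disjoint_left]
    intro z hz hz'
    have a := ((e1 z).mp hz).2
    rcases hz' with hz' | hz'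
    · have b := ((e2 z).mp hz').2
      linarith [hsum z, a.1, a.2, b.1, b.2]
    · have b := ((e3 z).mp hz').2
      linarith [hsum z, a.1, a.2, b.1, b.2]
  have iU : ∫ z in U, F z = 3 * ∫ z in Sec, F z := by
    rw [hU, setIntegral_union d1 (m2.union m3) (hi1 _ s1) (hi1 _ (Set.union_subset s2 s3')),
      setIntegral_union d23 m3 (hi1 _ s2) (hi1 _ s3'), i2, i3]
    ring
  set W : Set ℂ := κ ⁻¹' U with hW
  have mW : MeasurableSet W := mκ mU
  have iW : ∫ z in W, F z = 3 * ∫ z in Sec, F z := by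
    rw [← iU, ← int_conj U F]
    simp only [hc]
    rfl
  have sW : W ⊆ E := fun z hz => conj_mem.mp (sU hz)
  -- signs
  have two : ∀ z : ℂ, z ∈ U → (0 < z.im ∧ 0 < (om ^ 2 * z).im) ∨ (0 < (om * z).im ∧ 0 < z.im) ∨
      (0 < (om ^ 2 * z).im ∧ 0 < (om * z).im) := by
    intro z hz
    rcases hz with hz | hz | hz
    · exact Or.inl ((e1 z).mp hz).2
    · exact Or.inr (Or.inl ((e2 z).mp hz).2)
    · exact Or.inr (Or.inr ((e3 z).mp hz).2)
  have c1 : ∀ z : ℂ, ((starRingEnd ℂ) z).im = - z.im := fun z => Complex.conj_im z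
  have c2 : ∀ z : ℂ, (om * (starRingEnd ℂ) z).im = - (om ^ 2 * z).im := by
    intro z
    rw [om1_im, om2_im, Complex.conj_im, Complex.conj_re]
    ring
  have c3 : ∀ z : ℂ, (om ^ 2 * (starRingEnd ℂ) z).im = - (om * z).im := by
    intro z
    rw [om1_im, om2_im, Complex.conj_im, Complex.conj_re]
    ring
  have dW : Disjoint U W := by
    rw [Set.disjoint_left]
    intro z hz hz'
    have a := two z hz
    have b := two ((starRingEnd ℂ) z) hz'
    rw [c1, c2, c3] at b
    rcases a with ⟨a, a'⟩ | ⟨a, a'⟩ | ⟨a, a'⟩ <;> rcases b with ⟨b, b'⟩ | ⟨b, b'⟩ | ⟨b, b'⟩ <;>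
      linarith
  calc 6 * ∫ z in Sec, F z = ∫ z in U ∪ W, F z := by
        rw [setIntegral_union dW mW (hi1 _ sU) (hi1 _ sW), iU, iW]
        ring
    _ ≤ ∫ z in E, F z := by
        apply setIntegral_mono_set (integrableOn_E hF)
        · exact Filter.Eventually.of_forall h0
        · exact (Set.union_subset sU sW).eventuallyLE

end Pool.Agent.H32.Stek
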