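import Mathlib
import Pool.Agent.H32.Stek.Reg
import Pool.Agent.H32.Stek.Side

set_option autoImplicit false

open Complex MeasureTheory

namespace Pool.Agent.H32.Stek

/-! Barta type lower bounds for functions vanishing on the real axis. -/

theorem barta_g_cont {φ φ' : ℝ → ℝ} {η b : ℝ} (hη : 0 < η) (hηb : η * b < Real.pi)
    (hφ : ∀ y, HasDerivAt φ (φ' y) y) (h0 : φ 0 = 0) :
    ContinuousOn (fun y => η * (Real.cos (η * y) / Real.sin (η * y)) * φ y ^ 2) (Set.Icc 0 b) := by
  have hd : Continuous φ := continuous_iff_continuousAt.2 fun y => (hφ y).continuousAt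
  set s : ℝ → ℝ := fun y => Real.sin (η * y) with hs
  have hsd : ∀ y, HasDerivAt s (Real.cos (η * y) * η) y := by
    intro y
    have h1 : HasDerivAt (fun y => η * y) η y := by
      simpa using (hasDerivAt_id y).const_mul η
    exact h1.sin
  have c1 : Continuous (dslope φ 0) := by
    rw [continuous_iff_continuousAt]
    intro y
    by_cases hy : y = 0
    · rw [hy, continuousAt_dslope_same]
      exact (hφ 0).differentiableAt
    · rw [continuousAt_dslope_of_ne hy]
      exact (hφ y).continuousAt
  have c2 : Continuous (dslope s 0) := by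
    rw [continuous_iff_continuousAt]
    intro y
    by_cases hy : y = 0
    · rw [hy, continuousAt_dslope_same]
      exact (hsd 0).differentiableAt
    · rw [continuousAt_dslope_of_ne hy]
      exact (hsd y).continuousAt
  have hs0 : s 0 = 0 := by simp [hs]
  have e1 : ∀ y, φ y = y * dslope φ 0 y := by
    intro y
    have := sub_smul_dslope φ 0 y
    simp only [sub_zero, smul_eq_mul, h0] at this
    exact this.symm
  have e2 : ∀ y, s y = y * dslope s 0 y := by
    intro y
    have := sub_smul_dslope s 0 y
    simp only [sub_zero, smul_eq_mul, hs0] at this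
    exact this.symm
  have ne : ∀ y ∈ Set.Icc 0 b, dslope s 0 y ≠ 0 := by
    intro y hy
    by_cases hy0 : y = 0
    · rw [hy0, dslope_same, (hsd 0).deriv]
      simp [hη.ne']
    · have hypos : 0 < y := lt_of_le_of_ne hy.1 (Ne.symm hy0)
      have : 0 < s y := by
        apply Real.sin_pos_of_pos_of_lt_pi (by positivity)
        have : η * y ≤ η * b := mul_le_mul_of_nonneg_left hy.2 hη.le
        linarith
      intro h
      rw [e2 y, h, mul_zero] at this
      exact lt_irrefl _ this
  have main : ContinuousOn (fun y => η * Real.cos (η * y) * φ y * dslope φ 0 y / dslope s 0 y)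
      (Set.Icc 0 b) := by
    apply ContinuousOn.div
    · apply Continuous.continuousOn
      exact ((continuous_const.mul (Real.continuous_cos.comp (continuous_const.mul
        continuous_id))).mul hd).mul c1
    · exact c2.continuousOn
    · exact ne
  refine main.congr ?_
  intro y hy
  by_cases hy0 : y = 0
  · simp [hy0, h0]
  · have h1 := ne y hy
    have h2 : Real.sin (η * y) = y * dslope s 0 y := e2 y
    simp only
    rw [h2]
    have h3 : φ y ^ 2 = φ y * (y * dslope φ 0 y) := by rw [← e1 y]; ring
    rw [h3]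
    field_simp

/-- one-dimensional inequality with the weight `η cot (η y)`.
Proof: `g y = η cot(η y) φ(y)²` (value 0 at 0) is continuous on `[0,b]`, and
`g' = 2 η cot φ φ' - η² (1 + cot²) φ² ≤ φ'² - η² φ²`;
use `intervalIntegral.sub_le_integral_of_hasDeriv_right_of_le`. -/
theorem cot_ineq {φ φ' : ℝ → ℝ} {η b : ℝ} (hη : 0 < η) (hb : 0 < b) (hηb : η * b < Real.pi)
    (hφ : ∀ y, HasDerivAt φ (φ' y) y) (hc : Continuous φ') (h0 : φ 0 = 0) :
    η * (Real.cos (η * b) / Real.sin (η * b)) * φ b ^ 2 ≤
      ∫ y in (0:ℝ)..b, (φ' y ^ 2 - η ^ 2 * φ y ^ 2) := by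
  have hd : Continuous φ := continuous_iff_continuousAt.2 fun y => (hφ y).continuousAt
  set g : ℝ → ℝ := fun y => η * (Real.cos (η * y) / Real.sin (η * y)) * φ y ^ 2 with hg
  have hsin : ∀ y ∈ Set.Ioo 0 b, 0 < Real.sin (η * y) := by
    intro y hy
    apply Real.sin_pos_of_pos_of_lt_pi (mul_pos hη hy.1)
    have : η * y ≤ η * b := mul_le_mul_of_nonneg_left hy.2.le hη.le
    linarith
  have hgd : ∀ y ∈ Set.Ioo 0 b, HasDerivAt g
      (η * ((-Real.sin (η * y) * η * Real.sin (η * y) - Real.cos (η * y) * (Real.cos (η * y) * η)) /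
        Real.sin (η * y) ^ 2) * φ y ^ 2 +
        η * (Real.cos (η * y) / Real.sin (η * y)) * (2 * φ y * φ' y)) y := by
    intro y hy
    have h1 : HasDerivAt (fun y => η * y) η y := by
      simpa using (hasDerivAt_id y).const_mul η
    have h2 := (h1.cos.div h1.sin (hsin y hy).ne').const_mul η
    have h3 := h2.mul ((hφ y).pow 2)
    refine HasDerivAt.congr_deriv h3 ?_
    simp only [Pi.pow_apply, Nat.cast_ofNat, Nat.add_one_sub_one, pow_one]
    rfl
  have key := intervalIntegral.sub_le_integral_of_hasDeriv_right_of_le (g := g)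
    (g' := fun y => η * ((-Real.sin (η * y) * η * Real.sin (η * y) - Real.cos (η * y) *
        (Real.cos (η * y) * η)) / Real.sin (η * y) ^ 2) * φ y ^ 2 +
        η * (Real.cos (η * y) / Real.sin (η * y)) * (2 * φ y * φ' y))
    (φ := fun y => φ' y ^ 2 - η ^ 2 * φ y ^ 2) hb.le (barta_g_cont hη hηb hφ h0)
    (fun y hy => (hgd y hy).hasDerivWithinAt)
    (by
      apply Continuous.integrableOn_Icc
      exact (hc.pow 2).sub (continuous_const.mul (hd.pow 2)))
    (by
      intro y hy
      have hs := hsin y hy
      have hs2 : Real.sin (η * y) ^ 2 + Real.cos (η * y) ^ 2 = 1 := Real.sin_sq_add_cos_sq _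
      set S := Real.sin (η * y)
      set C := Real.cos (η * y)
      have e1 : (-S * η * S - C * (C * η)) / S ^ 2 = -η * (1 + (C / S) ^ 2) := by
        field_simp
        ring
      rw [e1]
      nlinarith [sq_nonneg (φ' y - η * (C / S) * φ y)])
  have g0 : g 0 = 0 := by simp [hg, h0]
  rw [g0, sub_zero] at key
  exact key

/-- one-dimensional inequality with an exponential weight: `(φ' + ξ φ)² ≥ 0` -/
theorem exp_ineq {φ φ' : ℝ → ℝ} {ξ p q : ℝ} (hpq : p ≤ q)
    (hφ : ∀ y, HasDerivAt φ (φ' y) y) (hc : Continuous φ') :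
    ξ * (φ p ^ 2 - φ q ^ 2) ≤ ∫ x in p..q, (φ' x ^ 2 + ξ ^ 2 * φ x ^ 2) := by
  have hd : Continuous φ := continuous_iff_continuousAt.2 fun y => (hφ y).continuousAt
  have h1 : ∫ x in p..q, (-(2 * ξ * (φ x * φ' x))) = ξ * (φ p ^ 2 - φ q ^ 2) := by
    have := intervalIntegral.integral_eq_sub_of_hasDerivAt (a := p) (b := q)
      (f := fun x => -(ξ * φ x ^ 2)) (f' := fun x => -(2 * ξ * (φ x * φ' x)))
      (fun x _ => by
        have h := (((hφ x).pow 2).const_mul ξ).neg
        refine HasDerivAt.congr_deriv h ?_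
        norm_num
        ring)
      (Continuous.intervalIntegrable (by fun_prop) _ _)
    rw [this]; ring
  rw [← h1]
  apply intervalIntegral.integral_mono_on hpq
  · exact Continuous.intervalIntegrable (by fun_prop) _ _
  · exact Continuous.intervalIntegrable (by fun_prop) _ _
  · intro x _
    nlinarith [sq_nonneg (φ' x + ξ * φ x)]

/-- one-dimensional inequality with weight `1/(2-x)`: `(φ' + φ/(2-x))² ≥ 0` -/
theorem lin_ineq {φ φ' : ℝ → ℝ} {q : ℝ} (hq1 : -1 ≤ q) (hq : q < 2)
    (hφ : ∀ y, HasDerivAt φ (φ' y) y) (hc : Continuous φ') :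
    φ (-1) ^ 2 / 3 - φ q ^ 2 / (2 - q) ≤ ∫ x in (-1:ℝ)..q, φ' x ^ 2 := by
  have hd : Continuous φ := continuous_iff_continuousAt.2 fun y => (hφ y).continuousAt
  have hx2 : ∀ x ∈ Set.uIcc (-1) q, 0 < 2 - x := by
    intro x hx
    rw [Set.uIcc_of_le hq1] at hx
    linarith [hx.2]
  have hcont : ContinuousOn (fun x => -(2 * φ x * φ' x / (2 - x) + φ x ^ 2 / (2 - x) ^ 2))
      (Set.uIcc (-1) q) := by
    apply ContinuousOn.neg
    apply ContinuousOn.add
    · apply ContinuousOn.div (by fun_prop) (by fun_prop)
      intro x hx; exact (hx2 x hx).ne'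
    · apply ContinuousOn.div (by fun_prop) (by fun_prop)
      intro x hx; exact pow_ne_zero 2 (hx2 x hx).ne'
  have h1 : ∫ x in (-1:ℝ)..q, (-(2 * φ x * φ' x / (2 - x) + φ x ^ 2 / (2 - x) ^ 2)) =
      φ (-1) ^ 2 / 3 - φ q ^ 2 / (2 - q) := by
    have := intervalIntegral.integral_eq_sub_of_hasDerivAt (a := -1) (b := q)
      (f := fun x => -(φ x ^ 2 / (2 - x)))
      (f' := fun x => -(2 * φ x * φ' x / (2 - x) + φ x ^ 2 / (2 - x) ^ 2))
      (fun x hx => by
        have h2 : HasDerivAt (fun x : ℝ => 2 - x) (-1) x := by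
          simpa using (hasDerivAt_id x).const_sub 2
        have h := (((hφ x).pow 2).div h2 (hx2 x hx).ne').neg
        refine HasDerivAt.congr_deriv h ?_
        have := (hx2 x hx).ne'
        simp only [Pi.pow_apply, Nat.cast_ofNat, Nat.add_one_sub_one, pow_one]
        field_simp
        ring)
      (ContinuousOn.intervalIntegrable hcont)
    rw [this]; norm_num; ring
  rw [← h1]
  apply intervalIntegral.integral_mono_on hq1
  · exact ContinuousOn.intervalIntegrable hcont
  · exact Continuous.intervalIntegrable (by fun_prop) _ _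
  · intro x hx
    have hx' : 0 < 2 - x := hx2 x (by rw [Set.uIcc_of_le hq1]; exact hx)
    have e : 2 * φ x * φ' x / (2 - x) + φ x ^ 2 / (2 - x) ^ 2 =
        2 * φ' x * (φ x / (2 - x)) + (φ x / (2 - x)) ^ 2 := by
      field_simp
    rw [e]
    nlinarith [sq_nonneg (φ' x + φ x / (2 - x))]

/-- Cauchy-Schwarz: `φ(b)² ≤ b ∫_0^b φ'²` if `φ(0) = 0` -/
theorem cs_ineq {φ φ' : ℝ → ℝ} {b : ℝ} (hb : 0 < b)
    (hφ : ∀ y, HasDerivAt φ (φ' y) y) (hc : Continuous φ') (h0 : φ 0 = 0) :
    φ b ^ 2 / b ≤ ∫ y in (0:ℝ)..b, φ' y ^ 2 := by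
  have h1 : ∫ y in (0:ℝ)..b, (2 * (φ b / b) * φ' y - (φ b / b) ^ 2) = φ b ^ 2 / b := by
    have := intervalIntegral.integral_eq_sub_of_hasDerivAt (a := 0) (b := b)
      (f := fun x => 2 * (φ b / b) * φ x - (φ b / b) ^ 2 * x)
      (f' := fun x => 2 * (φ b / b) * φ' x - (φ b / b) ^ 2)
      (fun x _ => by
        have h := ((hφ x).const_mul (2 * (φ b / b))).sub
          ((hasDerivAt_id x).const_mul ((φ b / b) ^ 2))
        refine HasDerivAt.congr_deriv h ?_
        simp)
      (Continuous.intervalIntegrable (by fun_prop) _ _)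
    rw [this, h0]
    field_simp
    ring
  rw [← h1]
  apply intervalIntegral.integral_mono_on hb.le
  · exact Continuous.intervalIntegrable (by fun_prop) _ _
  · exact Continuous.intervalIntegrable (by fun_prop) _ _
  · intro x _
    nlinarith [sq_nonneg (φ' x - φ b / b)]

/-! ### the two-dimensional bounds -/

theorem barta_cont_mk {α : Type*} [TopologicalSpace α] {g h : α → ℝ} (hg : Continuous g)
    (hh : Continuous h) : Continuous fun a => (⟨g a, h a⟩ : ℂ) := by
  have e : (fun a => (⟨g a, h a⟩ : ℂ)) = fun a => (g a : ℂ) + (h a : ℂ) * I := by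
    funext a
    exact Complex.mk_eq_add_mul_I _ _
  rw [e]
  exact (continuous_ofReal.comp hg).add ((continuous_ofReal.comp hh).mul continuous_const)

theorem barta_conj (x y : ℝ) : (starRingEnd ℂ) (⟨x, y⟩ : ℂ) = ⟨x, -y⟩ := by
  apply Complex.ext <;> simp

section anti

variable {v : ℂ → ℝ} (hv : ContDiff ℝ 1 v) (hanti : ∀ z, v ((starRingEnd ℂ) z) = -v z)

include hanti in
theorem barta_neg (x y : ℝ) : v ⟨x, -y⟩ = -v ⟨x, y⟩ := by
  rw [← barta_conj, hanti]

include hanti in
theorem barta_zero (x : ℝ) : v ⟨x, 0⟩ = 0 := by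
  have := barta_neg hanti x 0
  rw [neg_zero] at this
  linarith

include hv hanti in
theorem barta_grad (z : ℂ) : grad v ((starRingEnd ℂ) z) = -(starRingEnd ℂ) (grad v z) := by
  have h1 := grad_conj hv z
  have h2 : (fun z => v ((starRingEnd ℂ) z)) = fun z => (-1) * v z := by
    funext z
    rw [hanti]; ring
  rw [h2, grad_smul hv] at h1
  have h3 := congrArg (starRingEnd ℂ) h1
  rw [Complex.conj_conj] at h3
  rw [← h3]
  simp

include hv hanti in
theorem barta_grad_re (x y : ℝ) : (grad v ⟨x, -y⟩).re ^ 2 = (grad v ⟨x, y⟩).re ^ 2 := by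
  rw [← barta_conj, barta_grad hv hanti]
  simp

include hv hanti in
theorem barta_grad_im (x y : ℝ) : (grad v ⟨x, -y⟩).im ^ 2 = (grad v ⟨x, y⟩).im ^ 2 := by
  rw [← barta_conj, barta_grad hv hanti]
  simp

include hv hanti in
theorem barta_side0 : side 0 (fun z => v z ^ 2) = ∫ y in (0:ℝ)..√3, 2 * v ⟨-1, y⟩ ^ 2 := by
  have hc : Continuous (fun z => v z ^ 2) := hv.continuous.pow 2
  rw [side0_eq hc]
  congr 1
  funext y
  rw [barta_neg hanti]
  ring

include hv hanti in
theorem barta_side1 : side 1 (fun z => v z ^ 2) =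
    ∫ y in (0:ℝ)..√3, 2 * v ⟨2 - √3 * y, y⟩ ^ 2 := by
  have hc : Continuous (fun z => v z ^ 2) := hv.continuous.pow 2
  rw [side1_eq hc]
  congr 1
  funext y
  rw [barta_neg hanti]
  ring

/-- change of variables on the slanted side -/
theorem barta_subst (k : ℝ → ℝ) :
    ∫ x in (-1:ℝ)..2, k ((2 - x) / √3) = √3 * ∫ y in (0:ℝ)..√3, k y := by
  have h3 := s3pos
  have e : (fun x : ℝ => k ((2 - x) / √3)) = fun x => k (2 / √3 - x / √3) := by
    funext x
    rw [sub_div]
  rw [e, intervalIntegral.integral_comp_sub_div _ h3.ne']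
  have e1 : 2 / √3 - 2 / √3 = (0:ℝ) := by ring
  have e2 : 2 / √3 - -1 / √3 = √3 := by
    field_simp
    rw [s3sq]; norm_num
  rw [e1, e2, smul_eq_mul]

include hv hanti in
/-- C1. weighted inequality, on the reference triangle.
Half energy: for `0 < y < √3`, `-1 < x < 2 - √3 y`,
`μ⁻¹ v_x² ≥ -η ∂_x(v²) - μ η² v²` and `μ v_y² ≥ ∂_y (μ η cot(η y) v²) + μ η² v²`. -/
theorem barta_weighted {μ θ : ℝ} (hμ : 0 < μ) (hθ : 0 < θ)
    (hθ2 : θ < Real.pi) :
    θ / √3 * side 0 (fun z => v z ^ 2) +
      θ / √3 * (√3 * μ * (Real.cos θ / Real.sin θ) - 1) * side 1 (fun z => v z ^ 2) ≤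
    ∫ z in E, (μ⁻¹ * (grad v z).re ^ 2 + μ * (grad v z).im ^ 2) := by
  have h3 := s3pos
  have hvc := hv.continuous
  have hgc := grad_continuous hv
  set η : ℝ := θ / √3 with hη
  have hη0 : 0 < η := by positivity
  have hηθ : η * √3 = θ := by rw [hη]; field_simp
  have hre : Continuous fun z => (grad v z).re := Complex.continuous_re.comp hgc
  have him : Continuous fun z => (grad v z).im := Complex.continuous_im.comp hgc
  have cF1 : Continuous fun z => μ⁻¹ * ((grad v z).re ^ 2 + (μ * η) ^ 2 * v z ^ 2) :=
    continuous_const.mul ((hre.pow 2).add (continuous_const.mul (hvc.pow 2)))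
  have cF2 : Continuous fun z => μ * ((grad v z).im ^ 2 - η ^ 2 * v z ^ 2) :=
    continuous_const.mul ((him.pow 2).sub (continuous_const.mul (hvc.pow 2)))
  have split : ∫ z in E, (μ⁻¹ * (grad v z).re ^ 2 + μ * (grad v z).im ^ 2) =
      (∫ z in E, μ⁻¹ * ((grad v z).re ^ 2 + (μ * η) ^ 2 * v z ^ 2)) +
      ∫ z in E, μ * ((grad v z).im ^ 2 - η ^ 2 * v z ^ 2) := by
    rw [← integral_add (integrableOn_E cF1) (integrableOn_E cF2)]
    congr 1
    funext z
    field_simp
    ring
  -- the `x` part
  have X : η * side 0 (fun z => v z ^ 2) - η * side 1 (fun z => v z ^ 2) ≤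
      ∫ z in E, μ⁻¹ * ((grad v z).re ^ 2 + (μ * η) ^ 2 * v z ^ 2) := by
    rw [integral_E_yx cF1, barta_side0 hv hanti, barta_side1 hv hanti,
      ← intervalIntegral.integral_const_mul, ← intervalIntegral.integral_const_mul,
      ← intervalIntegral.integral_sub
        (Continuous.intervalIntegrable (by
          exact continuous_const.mul (continuous_const.mul
            ((hvc.comp (barta_cont_mk continuous_const continuous_id)).pow 2))) _ _)
        (Continuous.intervalIntegrable (by
          exact continuous_const.mul (continuous_const.mul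
            ((hvc.comp (barta_cont_mk (by fun_prop) continuous_id)).pow 2))) _ _)]
    apply intervalIntegral.integral_mono_on h3.le
    · apply Continuous.intervalIntegrable
      exact (continuous_const.mul (continuous_const.mul
            ((hvc.comp (barta_cont_mk continuous_const continuous_id)).pow 2))).sub
        (continuous_const.mul (continuous_const.mul
            ((hvc.comp (barta_cont_mk (by fun_prop) continuous_id)).pow 2)))
    · apply Continuous.intervalIntegrable
      apply intervalIntegral.continuous_parametric_intervalIntegral_of_continuous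
      · apply Continuous.add
        · exact cF1.comp (barta_cont_mk continuous_snd continuous_fst)
        · exact cF1.comp (barta_cont_mk continuous_snd continuous_fst.neg)
      · fun_prop
    · intro y hy
      have e : ∀ x : ℝ, (μ⁻¹ * ((grad v ⟨x, y⟩).re ^ 2 + (μ * η) ^ 2 * v ⟨x, y⟩ ^ 2) +
          μ⁻¹ * ((grad v ⟨x, -y⟩).re ^ 2 + (μ * η) ^ 2 * v ⟨x, -y⟩ ^ 2)) =
          2 * μ⁻¹ * ((grad v ⟨x, y⟩).re ^ 2 + (μ * η) ^ 2 * v ⟨x, y⟩ ^ 2) := by
        intro x
        rw [barta_grad_re hv hanti, barta_neg hanti]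
        ring
      simp only [e]
      rw [intervalIntegral.integral_const_mul]
      have hle : (-1:ℝ) ≤ 2 - √3 * y := by
        have : √3 * y ≤ √3 * √3 := mul_le_mul_of_nonneg_left hy.2 h3.le
        rw [s3] at this
        linarith
      have k := exp_ineq (ξ := μ * η) hle (φ := fun x => v ⟨x, y⟩)
        (φ' := fun x => (grad v ⟨x, y⟩).re) (fun x => hasDerivAt_x hv x y)
        (hre.comp (barta_cont_mk continuous_id continuous_const))
      have k2 := mul_le_mul_of_nonneg_left k (show 0 ≤ 2 * μ⁻¹ by positivity)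
      refine le_trans (le_of_eq ?_) k2
      field_simp
  -- the `y` part
  have hsθ : 0 < Real.sin θ := Real.sin_pos_of_pos_of_lt_pi hθ hθ2
  have Y : √3 * μ * η * (Real.cos θ / Real.sin θ) * side 1 (fun z => v z ^ 2) ≤
      ∫ z in E, μ * ((grad v z).im ^ 2 - η ^ 2 * v z ^ 2) := by
    rw [integral_E_xy cF2, barta_side1 hv hanti]
    have e0 : √3 * μ * η * (Real.cos θ / Real.sin θ) *
        ∫ y in (0:ℝ)..√3, 2 * v ⟨2 - √3 * y, y⟩ ^ 2 =
        ∫ x in (-1:ℝ)..2, 2 * μ * (η * (Real.cos θ / Real.sin θ) * v ⟨x, (2 - x) / √3⟩ ^ 2) := by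
      have := barta_subst (fun y => 2 * μ * (η * (Real.cos θ / Real.sin θ) *
        v ⟨2 - √3 * y, y⟩ ^ 2))
      have e1 : ∀ x : ℝ, 2 - √3 * ((2 - x) / √3) = x := by
        intro x
        field_simp
        ring
      simp only [e1] at this
      rw [this, ← intervalIntegral.integral_const_mul, ← intervalIntegral.integral_const_mul]
      congr 1
      funext y
      ring
    rw [e0]
    apply intervalIntegral.integral_mono_on (by norm_num)
    · apply Continuous.intervalIntegrable
      exact continuous_const.mul (continuous_const.mul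
            ((hvc.comp (barta_cont_mk continuous_id (by fun_prop))).pow 2))
    · apply Continuous.intervalIntegrable
      apply intervalIntegral.continuous_parametric_intervalIntegral_of_continuous
      · apply Continuous.add
        · exact cF2.comp (barta_cont_mk continuous_fst continuous_snd)
        · exact cF2.comp (barta_cont_mk continuous_fst continuous_snd.neg)
      · fun_prop
    · intro x hx
      have e : ∀ y : ℝ, (μ * ((grad v ⟨x, y⟩).im ^ 2 - η ^ 2 * v ⟨x, y⟩ ^ 2) +
          μ * ((grad v ⟨x, -y⟩).im ^ 2 - η ^ 2 * v ⟨x, -y⟩ ^ 2)) =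
          2 * μ * ((grad v ⟨x, y⟩).im ^ 2 - η ^ 2 * v ⟨x, y⟩ ^ 2) := by
        intro y
        rw [barta_grad_im hv hanti, barta_neg hanti]
        ring
      simp only [e]
      rw [intervalIntegral.integral_const_mul]
      apply mul_le_mul_of_nonneg_left _ (by positivity : 0 ≤ 2 * μ)
      rcases eq_or_lt_of_le hx.2 with hx2 | hx2
      · rw [hx2]
        simp [barta_zero hanti]
      · have hb : 0 < (2 - x) / √3 := div_pos (by linarith) h3
        have hb3 : (2 - x) / √3 ≤ √3 := by
          rw [div_le_iff₀ h3, s3]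
          linarith [hx.1]
        have hηb : η * ((2 - x) / √3) ≤ θ := by
          rw [← hηθ]
          exact mul_le_mul_of_nonneg_left hb3 hη0.le
        have k := cot_ineq hη0 hb (by linarith) (φ := fun y => v ⟨x, y⟩)
          (φ' := fun y => (grad v ⟨x, y⟩).im) (fun y => hasDerivAt_y hv x y)
          (him.comp (barta_cont_mk continuous_const continuous_id)) (barta_zero hanti x)
        refine le_trans ?_ k
        apply mul_le_mul_of_nonneg_right _ (sq_nonneg _)
        apply mul_le_mul_of_nonneg_left _ hη0.le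
        have hs : 0 < Real.sin (η * ((2 - x) / √3)) :=
          Real.sin_pos_of_pos_of_lt_pi (by positivity) (by linarith)
        rw [div_le_div_iff₀ hsθ hs]
        have hdiff : 0 ≤ Real.sin (θ - η * ((2 - x) / √3)) :=
          Real.sin_nonneg_of_nonneg_of_le_pi (by linarith) (by
            have : 0 < η * ((2 - x) / √3) := by positivity
            linarith)
        rw [Real.sin_sub] at hdiff
        linarith
  rw [split]
  refine le_trans (le_of_eq ?_) (add_le_add X Y)
  ring

include hv hanti in
/-- C2. the same with `w = y (2 - x)`: lowest antisymmetric eigenvalue at least `1/3`. -/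
theorem barta_third :
    1 / 3 * (side 0 (fun z => v z ^ 2) + 2 * side 1 (fun z => v z ^ 2)) ≤
    ∫ z in E, ‖grad v z‖ ^ 2 := by
  have h3 := s3pos
  have hvc := hv.continuous
  have hgc := grad_continuous hv
  have hre : Continuous fun z => (grad v z).re := Complex.continuous_re.comp hgc
  have him : Continuous fun z => (grad v z).im := Complex.continuous_im.comp hgc
  set f : ℝ → ℝ := fun y => v ⟨2 - √3 * y, y⟩ with hf
  have hfd : Differentiable ℝ f := by
    have e : f = fun y => v (((2 - √3 * y : ℝ) : ℂ) + (y : ℂ) * I) := by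
      funext y
      rw [hf]
      simp only
      rw [Complex.mk_eq_add_mul_I]
    rw [e]
    apply (hv.differentiable (by norm_num)).comp
    apply Differentiable.add
    · have hd : Differentiable ℝ (fun y : ℝ => 2 - √3 * y) := by fun_prop
      exact Complex.ofRealCLM.differentiable.comp hd
    · exact (Complex.ofRealCLM.differentiable).mul_const I
  have hf0 : f 0 = 0 := by
    rw [hf]
    simp only [mul_zero, sub_zero]
    exact barta_zero hanti 2
  have c1 : Continuous (dslope f 0) := by
    rw [continuous_iff_continuousAt]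
    intro y
    by_cases hy : y = 0
    · rw [hy, continuousAt_dslope_same]
      exact hfd 0
    · rw [continuousAt_dslope_of_ne hy]
      exact (hfd y).continuousAt
  have cW : Continuous fun y => f y ^ 2 / y := by
    have e : (fun y => f y ^ 2 / y) = fun y => f y * dslope f 0 y := by
      funext y
      have h := sub_smul_dslope f 0 y
      simp only [sub_zero, smul_eq_mul, hf0] at h
      by_cases hy : y = 0
      · rw [hy, hf0]; simp
      · rw [pow_two]
        nth_rewrite 2 [← h]
        field_simp
    rw [e]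
    exact hfd.continuous.mul c1
  have cP : Continuous fun z => (grad v z).re ^ 2 := hre.pow 2
  have cQ : Continuous fun z => (grad v z).im ^ 2 := him.pow 2
  have split : ∫ z in E, ‖grad v z‖ ^ 2 =
      (∫ z in E, (grad v z).re ^ 2) + ∫ z in E, (grad v z).im ^ 2 := by
    rw [← integral_add (integrableOn_E cP) (integrableOn_E cQ)]
    congr 1
    funext z
    rw [Complex.sq_norm, Complex.normSq_apply]
    ring
  have X : ∫ y in (0:ℝ)..√3, (2 / 3 * v ⟨-1, y⟩ ^ 2 - 2 / √3 * (f y ^ 2 / y)) ≤
      ∫ z in E, (grad v z).re ^ 2 := by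
    rw [integral_E_yx cP]
    apply intervalIntegral.integral_mono_on h3.le
    · apply Continuous.intervalIntegrable
      exact (continuous_const.mul
        ((hvc.comp (barta_cont_mk continuous_const continuous_id)).pow 2)).sub
        (continuous_const.mul cW)
    · apply Continuous.intervalIntegrable
      apply intervalIntegral.continuous_parametric_intervalIntegral_of_continuous
      · apply Continuous.add
        · exact cP.comp (barta_cont_mk continuous_snd continuous_fst)
        · exact cP.comp (barta_cont_mk continuous_snd continuous_fst.neg)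
      · fun_prop
    · intro y hy
      have e : ∀ x : ℝ, ((grad v ⟨x, y⟩).re ^ 2 + (grad v ⟨x, -y⟩).re ^ 2) =
          2 * (grad v ⟨x, y⟩).re ^ 2 := by
        intro x
        rw [barta_grad_re hv hanti]
        ring
      simp only [e]
      rw [intervalIntegral.integral_const_mul]
      have hle : (-1:ℝ) ≤ 2 - √3 * y := by
        have : √3 * y ≤ √3 * √3 := mul_le_mul_of_nonneg_left hy.2 h3.le
        rw [s3] at this
        linarith
      rcases eq_or_lt_of_le hy.1 with hy0 | hy0
      · rw [← hy0]
        simp only [barta_zero hanti, hf0]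
        have : 0 ≤ ∫ x in (-1:ℝ)..(2 - √3 * 0), (grad v ⟨x, 0⟩).re ^ 2 := by
          apply intervalIntegral.integral_nonneg (by norm_num)
          intro x _
          positivity
        norm_num at this ⊢
        exact this
      · have k := lin_ineq hle (by nlinarith) (φ := fun x => v ⟨x, y⟩)
          (φ' := fun x => (grad v ⟨x, y⟩).re) (fun x => hasDerivAt_x hv x y)
          (hre.comp (barta_cont_mk continuous_id continuous_const))
        have e2 : v ⟨2 - √3 * y, y⟩ ^ 2 / (2 - (2 - √3 * y)) = 1 / √3 * (f y ^ 2 / y) := by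
          rw [hf]
          simp only
          rw [show 2 - (2 - √3 * y) = √3 * y by ring]
          field_simp
        rw [e2] at k
        calc 2 / 3 * v ⟨-1, y⟩ ^ 2 - 2 / √3 * (f y ^ 2 / y) =
            2 * (v ⟨-1, y⟩ ^ 2 / 3 - 1 / √3 * (f y ^ 2 / y)) := by ring
          _ ≤ _ := mul_le_mul_of_nonneg_left k (by norm_num)
  have Y : √3 * ∫ y in (0:ℝ)..√3, 2 * (f y ^ 2 / y) ≤ ∫ z in E, (grad v z).im ^ 2 := by
    rw [integral_E_xy cQ, ← barta_subst (fun y => 2 * (f y ^ 2 / y))]
    have hsc : Continuous fun x : ℝ => (2 - x) / √3 := by fun_prop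
    apply intervalIntegral.integral_mono_on (by norm_num)
    · apply Continuous.intervalIntegrable
      exact continuous_const.mul (cW.comp hsc)
    · apply Continuous.intervalIntegrable
      apply intervalIntegral.continuous_parametric_intervalIntegral_of_continuous
      · apply Continuous.add
        · exact cQ.comp (barta_cont_mk continuous_fst continuous_snd)
        · exact cQ.comp (barta_cont_mk continuous_fst continuous_snd.neg)
      · fun_prop
    · intro x hx
      have e : ∀ y : ℝ, ((grad v ⟨x, y⟩).im ^ 2 + (grad v ⟨x, -y⟩).im ^ 2) =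
          2 * (grad v ⟨x, y⟩).im ^ 2 := by
        intro y
        rw [barta_grad_im hv hanti]
        ring
      simp only [e]
      rw [intervalIntegral.integral_const_mul]
      apply mul_le_mul_of_nonneg_left _ (by norm_num : (0:ℝ) ≤ 2)
      rcases eq_or_lt_of_le hx.2 with hx2 | hx2
      · rw [hx2]
        simp [hf0]
      · have hb : 0 < (2 - x) / √3 := div_pos (by linarith) h3
        have k := cs_ineq hb (φ := fun y => v ⟨x, y⟩)
          (φ' := fun y => (grad v ⟨x, y⟩).im) (fun y => hasDerivAt_y hv x y)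
          (him.comp (barta_cont_mk continuous_const continuous_id)) (barta_zero hanti x)
        have e1 : 2 - √3 * ((2 - x) / √3) = x := by
          field_simp
          ring
        have e2 : f ((2 - x) / √3) = v ⟨x, (2 - x) / √3⟩ := by
          rw [hf]
          simp only [e1]
        rw [e2]
        exact k
  rw [split, barta_side0 hv hanti, barta_side1 hv hanti]
  refine le_trans ?_ (add_le_add X Y)
  have cv : Continuous fun y : ℝ => v ⟨-1, y⟩ ^ 2 :=
    (hvc.comp (barta_cont_mk continuous_const continuous_id)).pow 2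
  have cf : Continuous fun y : ℝ => v ⟨2 - √3 * y, y⟩ ^ 2 :=
    (hvc.comp (barta_cont_mk (by fun_prop) continuous_id)).pow 2
  have Z : ∫ y in (0:ℝ)..√3, 4 / 3 * v ⟨2 - √3 * y, y⟩ ^ 2 ≤
      ∫ y in (0:ℝ)..√3, 4 / √3 * (f y ^ 2 / y) := by
    apply intervalIntegral.integral_mono_on h3.le
    · exact Continuous.intervalIntegrable (continuous_const.mul cf) _ _
    · exact Continuous.intervalIntegrable (continuous_const.mul cW) _ _
    · intro y hy
      rcases eq_or_lt_of_le hy.1 with hy0 | hy0
      · rw [← hy0]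
        simp [barta_zero hanti]
      · have e : 4 / √3 * (f y ^ 2 / y) - 4 / 3 * v ⟨2 - √3 * y, y⟩ ^ 2 =
            4 / 3 * f y ^ 2 * ((√3 - y) / y) := by
          rw [hf]
          simp only
          have h9 := s3sq
          have : 4 / √3 = 4 / 3 * √3 := by
            field_simp
            linarith
          rw [this]
          field_simp
        have : 0 ≤ 4 / 3 * f y ^ 2 * ((√3 - y) / y) := by
          have : 0 ≤ (√3 - y) / y := div_nonneg (by linarith [hy.2]) hy0.le
          positivity
        linarith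
  rw [intervalIntegral.integral_const_mul, intervalIntegral.integral_const_mul] at Z
  have i1 : IntervalIntegrable (fun y : ℝ => 2 / 3 * v ⟨-1, y⟩ ^ 2) volume 0 √3 :=
    Continuous.intervalIntegrable (continuous_const.mul cv) _ _
  have i2 : IntervalIntegrable (fun y : ℝ => 2 / √3 * (f y ^ 2 / y)) volume 0 √3 :=
    Continuous.intervalIntegrable (continuous_const.mul cW) _ _
  rw [intervalIntegral.integral_sub i1 i2]
  simp only [intervalIntegral.integral_const_mul]
  have h9 := s3sq
  have e5 : (4:ℝ) / √3 = 2 * √3 - 2 / √3 := by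
    field_simp
    linarith
  rw [e5] at Z
  linarith

end anti

end Pool.Agent.H32.Stek
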