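import Mathlib
import Pool.Agent.H32.Stek.Side

set_option autoImplicit false

open Complex MeasureTheory

namespace Pool.Agent.H32.Stek

theorem lam_nonneg (β : ℂ) (i : ℕ) : 0 ≤ lam β i := norm_nonneg _

theorem Lam_ge (β : ℂ) : 3 ≤ Lam β := by
  unfold Lam lam
  have h : (1 - β * om ^ 0) + (1 - β * om ^ 1) + (1 - β * om ^ 2) = 3 := by
    have := om_sum
    linear_combination (-β) * this
  calc (3:ℝ) = ‖(1 - β * om ^ 0) + (1 - β * om ^ 1) + (1 - β * om ^ 2)‖ := by
        rw [h]; norm_num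
    _ ≤ ‖(1 - β * om ^ 0) + (1 - β * om ^ 1)‖ + ‖1 - β * om ^ 2‖ := norm_add_le _ _
    _ ≤ _ := by
        gcongr
        exact norm_add_le _ _

theorem Lam_zero : Lam 0 = 3 := by
  unfold Lam lam
  simp
  norm_num

theorem Lam_pos (β : ℂ) : 0 < Lam β := lt_of_lt_of_le (by norm_num) (Lam_ge β)

theorem DE_const (β : ℂ) (c : ℝ) : DE β (fun _ => c) = 2 * √3 * Lam β * c := by
  unfold DE Lam
  rw [side_const, side_const, side_const]
  ring

theorem DE_add (β : ℂ) {f g : ℂ → ℝ} (hf : Continuous f) (hg : Continuous g) :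
    DE β (fun z => f z + g z) = DE β f + DE β g := by
  unfold DE
  rw [side_add hf hg, side_add hf hg, side_add hf hg]
  ring

theorem DE_smul (β : ℂ) (c : ℝ) (f : ℂ → ℝ) : DE β (fun z => c * f z) = c * DE β f := by
  unfold DE
  rw [side_smul, side_smul, side_smul]
  ring

theorem DE_nonneg (β : ℂ) {f : ℂ → ℝ} (h : ∀ z, 0 ≤ f z) : 0 ≤ DE β f := by
  unfold DE
  have h0 := mul_nonneg (lam_nonneg β 0) (side_nonneg h 0)
  have h1 := mul_nonneg (lam_nonneg β 1) (side_nonneg h 1)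
  have h2 := mul_nonneg (lam_nonneg β 2) (side_nonneg h 2)
  linarith

theorem NE_nonneg {β : ℂ} (hβ : ‖β‖ < 1) (u : ℂ → ℝ) : 0 ≤ NE β u := by
  unfold NE
  apply div_nonneg
  · exact integral_nonneg (fun z => sq_nonneg _)
  · nlinarith [norm_nonneg β]

theorem Sb_bddBelow {β : ℂ} (hβ : ‖β‖ < 1) :
    BddBelow {s | ∃ u : ℂ → ℝ, ContDiff ℝ 1 u ∧ DE β u = 0 ∧ 0 < DE β (fun z => u z ^ 2) ∧
      s = NE β u / DE β (fun z => u z ^ 2)} := by
  refine ⟨0, ?_⟩
  rintro s ⟨u, _, _, h, rfl⟩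
  exact div_nonneg (NE_nonneg hβ u) h.le

/-- T. upper bounds for `Sb` from test functions with arbitrary mean -/
theorem Sb_le {β : ℂ} (hβ : ‖β‖ < 1) {w : ℂ → ℝ} (hw : ContDiff ℝ 1 w)
    (hpos : 0 < DE β (fun z => w z ^ 2) - (DE β w) ^ 2 / (2 * √3 * Lam β)) :
    Sb β ≤ NE β w / (DE β (fun z => w z ^ 2) - (DE β w) ^ 2 / (2 * √3 * Lam β)) := by
  have hL : 0 < 2 * √3 * Lam β := by
    have := s3pos
    have := Lam_pos β
    positivity
  set L : ℝ := 2 * √3 * Lam β with hLdef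
  set m : ℝ := DE β w / L with hm
  have hwc : Continuous w := hw.continuous
  have hmL : DE β w = L * m := by rw [hm]; field_simp
  have h0 : DE β (fun z => w z + (-m)) = 0 := by
    rw [DE_add β hwc continuous_const, DE_const, ← hLdef, hmL]; ring
  have h2 : DE β (fun z => (w z + (-m)) ^ 2) =
      DE β (fun z => w z ^ 2) - (DE β w) ^ 2 / L := by
    have e : (fun z => (w z + (-m)) ^ 2) = fun z => (w z ^ 2 + (-(2 * m)) * w z) + m ^ 2 := by
      funext z; ring
    rw [e, DE_add β (f := fun z => w z ^ 2 + (-(2 * m)) * w z) (g := fun _ => m ^ 2)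
      (by fun_prop) (by fun_prop), DE_add β (f := fun z => w z ^ 2)
      (g := fun z => (-(2 * m)) * w z) (by fun_prop) (by fun_prop), DE_smul, DE_const, ← hLdef,
      hmL]
    field_simp
    ring
  have hN : NE β (fun z => w z + (-m)) = NE β w := by
    unfold NE
    have : ∀ z, grad (fun z => w z + (-m)) z = grad w z := by
      intro z
      rw [grad_add (u := w) (v := fun _ => -m) hw contDiff_const, grad_const, add_zero]
    simp only [this]
  apply csInf_le (Sb_bddBelow hβ)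
  refine ⟨fun z => w z + (-m), hw.add contDiff_const, h0, ?_, ?_⟩
  · rw [h2]; exact hpos
  · rw [h2, hN]

end Pool.Agent.H32.Stek
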