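import Mathlib
import Pool.Agent.H32.Stek.Test

set_option autoImplicit false

open Complex MeasureTheory

namespace Pool.Agent.H32.Stek

set_option maxHeartbeats 4000000

/-! Elementary inequalities for the side ratios. `c² = β/|β|`. -/

/-- weighted sums -/
noncomputable def XX (β c : ℂ) : ℝ :=
  lam β 0 * ((starRingEnd ℂ) c ^ 2 * (-om ^ (2 * 0))).re +
  lam β 1 * ((starRingEnd ℂ) c ^ 2 * (-om ^ (2 * 1))).re +
  lam β 2 * ((starRingEnd ℂ) c ^ 2 * (-om ^ (2 * 2))).re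

noncomputable def YY (β c : ℂ) : ℝ :=
  lam β 0 * ((starRingEnd ℂ) c * (-om ^ 0)).re +
  lam β 1 * ((starRingEnd ℂ) c * (-om ^ 1)).re +
  lam β 2 * ((starRingEnd ℂ) c * (-om ^ 2)).re

theorem exists_c {β : ℂ} (hβ : β ≠ 0) : ∃ c : ℂ, ‖c‖ = 1 ∧ c ^ 2 = β / ‖β‖ := by
  obtain ⟨c, hc⟩ := IsAlgClosed.exists_pow_nat_eq (β / ‖β‖) (n := 2) (by norm_num)
  refine ⟨c, ?_, hc⟩
  have h1 : ‖c‖ ^ 2 = 1 := by
    rw [← norm_pow, hc, norm_div]
    simp [hβ]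
  have h0 : 0 ≤ ‖c‖ := norm_nonneg _
  nlinarith

/-- the three numbers `ρ_i = - Re (β ω^i)` in coordinates, `lam_i² = 1 + r² + 2 ρ_i` -/
lemma num_lam_sq0 (β : ℂ) : lam β 0 ^ 2 = 1 + ‖β‖ ^ 2 + 2 * (-β.re) := by
  simp only [lam, pow_zero, mul_one, ← Complex.normSq_eq_norm_sq, Complex.normSq_apply,
    Complex.sub_re, Complex.sub_im, Complex.one_re, Complex.one_im]
  ring

lemma num_lam_sq1 (β : ℂ) :
    lam β 1 ^ 2 = 1 + ‖β‖ ^ 2 + 2 * (β.re / 2 + √3 / 2 * β.im) := by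
  have h := s3
  simp only [lam, pow_one, ← Complex.normSq_eq_norm_sq, Complex.normSq_apply,
    Complex.sub_re, Complex.sub_im, Complex.one_re, Complex.one_im, Complex.mul_re,
    Complex.mul_im, om_re, om_im]
  linear_combination (β.re ^ 2 + β.im ^ 2) / 4 * h

lemma num_lam_sq2 (β : ℂ) :
    lam β 2 ^ 2 = 1 + ‖β‖ ^ 2 + 2 * (β.re / 2 - √3 / 2 * β.im) := by
  have h := s3
  simp only [lam, ← Complex.normSq_eq_norm_sq, om_sq, Complex.normSq_apply,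
    Complex.sub_re, Complex.sub_im, Complex.one_re, Complex.one_im, Complex.mul_re,
    Complex.mul_im]
  linear_combination (β.re ^ 2 + β.im ^ 2) / 4 * h

lemma num_lam_le (β : ℂ) (i : ℕ) : lam β i ≤ 1 + ‖β‖ := by
  unfold lam
  calc ‖1 - β * om ^ i‖ ≤ ‖(1:ℂ)‖ + ‖β * om ^ i‖ := norm_sub_le _ _
    _ = 1 + ‖β‖ := by rw [norm_mul, norm_pow, om_norm]; simp

lemma num_le_lam (β : ℂ) (i : ℕ) : 1 - ‖β‖ ≤ lam β i := by
  unfold lam
  have h := norm_sub_norm_le (1:ℂ) (β * om ^ i)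
  rw [norm_mul, norm_pow, om_norm] at h
  simpa using h

lemma num_Lam_ge (β : ℂ) : 3 ≤ Lam β := by
  have h : (3:ℂ) = (1 - β * om ^ 0) + (1 - β * om ^ 1) + (1 - β * om ^ 2) := by
    linear_combination β * om_sum
  have h2 : ‖(3:ℂ)‖ ≤ lam β 0 + lam β 1 + lam β 2 := by
    rw [h]
    exact norm_add₃_le
  have h3 : ‖(3:ℂ)‖ = 3 := by norm_num
  unfold Lam
  linarith

/-- abstract real data: `a_i` with `a_i² = 1 + r² + 2 ρ_i`, `∑ ρ_i = 0`, `∑ ρ_i² = 3 r²/2` -/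
lemma num_sum_ident {a M ρ : ℝ} (ha : 0 < a + M) (h : a ^ 2 = M ^ 2 + 2 * ρ) :
    a - M = 2 * ρ / (a + M) := by
  rw [eq_div_iff ha.ne']
  linarith

lemma num_core {a0 a1 a2 r M q0 q1 q2 : ℝ} (hr : r < 1) (hM : M ^ 2 = 1 + r ^ 2)
    (hM0 : 0 < M)
    (h0 : a0 ^ 2 = 1 + r ^ 2 + 2 * q0) (h1 : a1 ^ 2 = 1 + r ^ 2 + 2 * q1)
    (h2 : a2 ^ 2 = 1 + r ^ 2 + 2 * q2)
    (hs : q0 + q1 + q2 = 0) (hq : q0 ^ 2 + q1 ^ 2 + q2 ^ 2 = 3 * r ^ 2 / 2)
    (l0 : 1 - r ≤ a0) (l1 : 1 - r ≤ a1) (l2 : 1 - r ≤ a2)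
    (u0 : a0 ≤ 1 + r) (u1 : a1 ≤ 1 + r) (u2 : a2 ≤ 1 + r) :
    a0 + a1 + a2 ≤ 3 * M ∧
    3 * r ^ 2 ≤ (1 + r + M) * (a0 * q0 + a1 * q1 + a2 * q2) ∧
    (a0 * q0 + a1 * q1 + a2 * q2) * (2 - r) ≤ 3 * r ^ 2 ∧
    ((a0 - M) ^ 2 + (a1 - M) ^ 2 + (a2 - M) ^ 2) * (2 - r) ^ 2 ≤ 6 * r ^ 2 := by
  have hM1 : 1 ≤ M := by nlinarith
  have p0 : 0 < a0 + M := by linarith
  have p1 : 0 < a1 + M := by linarith
  have p2 : 0 < a2 + M := by linarith
  have e0 : a0 - M = 2 * q0 / (a0 + M) := num_sum_ident p0 (by rw [hM]; exact h0)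
  have e1 : a1 - M = 2 * q1 / (a1 + M) := num_sum_ident p1 (by rw [hM]; exact h1)
  have e2 : a2 - M = 2 * q2 / (a2 + M) := num_sum_ident p2 (by rw [hM]; exact h2)
  have key : a0 * q0 + a1 * q1 + a2 * q2 =
      2 * q0 ^ 2 / (a0 + M) + 2 * q1 ^ 2 / (a1 + M) + 2 * q2 ^ 2 / (a2 + M) := by
    have : a0 * q0 + a1 * q1 + a2 * q2 =
        (a0 - M) * q0 + (a1 - M) * q1 + (a2 - M) * q2 := by
      linear_combination (-M) * hs * (-1)
    rw [this, e0, e1, e2]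
    ring
  refine ⟨?_, ?_, ?_, ?_⟩
  · have hh : 0 ≤ 2 * M * (3 * M - (a0 + a1 + a2)) := by
      have : 2 * M * (3 * M - (a0 + a1 + a2)) = (a0 - M) ^ 2 + (a1 - M) ^ 2 + (a2 - M) ^ 2 := by
        linear_combination -h0 - h1 - h2 - 2 * hs + 3 * hM
      rw [this]
      positivity
    have := nonneg_of_mul_nonneg_right hh (by linarith)
    linarith
  · rw [key]
    have t : ∀ {a q : ℝ}, 0 < a + M → a ≤ 1 + r →
        2 * q ^ 2 ≤ (1 + r + M) * (2 * q ^ 2 / (a + M)) := by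
      intro a q ha hu
      rw [← mul_div_assoc, le_div_iff₀ ha]
      nlinarith [sq_nonneg q]
    have := t (q := q0) p0 u0
    have := t (q := q1) p1 u1
    have := t (q := q2) p2 u2
    nlinarith
  · rw [key]
    have t : ∀ {a q : ℝ}, 0 < a + M → 1 - r ≤ a →
        2 * q ^ 2 / (a + M) * (2 - r) ≤ 2 * q ^ 2 := by
      intro a q ha hu
      rw [div_mul_eq_mul_div, div_le_iff₀ ha]
      nlinarith [sq_nonneg q]
    have := t (q := q0) p0 l0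
    have := t (q := q1) p1 l1
    have := t (q := q2) p2 l2
    nlinarith
  · have t : ∀ {a q : ℝ}, 0 < a + M → 1 - r ≤ a → a - M = 2 * q / (a + M) →
        (a - M) ^ 2 * (2 - r) ^ 2 ≤ 4 * q ^ 2 := by
      intro a q ha hu he
      rw [he, div_pow, div_mul_eq_mul_div, div_le_iff₀ (by positivity)]
      have h3 : (2 - r) ^ 2 ≤ (a + M) ^ 2 := by
        apply pow_le_pow_left₀ <;> linarith
      nlinarith [sq_nonneg q]
    have := t (q := q0) p0 l0 e0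
    have := t (q := q1) p1 l1 e1
    have := t (q := q2) p2 l2 e2
    nlinarith

/-- real form of `XX` -/
lemma num_XX {β c : ℂ} (h0 : β ≠ 0) (hc : c ^ 2 = β / ‖β‖) :
    ‖β‖ * XX β c = lam β 0 * (-β.re) + lam β 1 * (β.re / 2 + √3 / 2 * β.im) +
      lam β 2 * (β.re / 2 - √3 / 2 * β.im) := by
  have hn : (‖β‖:ℝ) ≠ 0 := by simpa using h0
  have hcc : (starRingEnd ℂ) c ^ 2 = ⟨β.re / ‖β‖, -(β.im / ‖β‖)⟩ := by
    rw [← map_pow, hc]
    apply Complex.ext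
    · rw [Complex.conj_re, Complex.div_ofReal_re]
    · rw [Complex.conj_im, Complex.div_ofReal_im]
  have h4 : om ^ 4 = om := by
    calc om ^ 4 = om ^ 3 * om := by ring
      _ = om := by rw [om_cube, one_mul]
  unfold XX
  rw [hcc]
  norm_num [h4, om_sq, om_re, om_im, Complex.mul_re]
  field_simp
  ring

/-- With `ρ_i = Re(-β ω^{-2i}...)`: `lam_i² = 1 + r² + 2 ρ_i`, `XX = (1/r) ∑ lam_i ρ_i
= (1/r) ∑ 2 ρ_i²/(lam_i + M)`, `M = √(1+r²)`, `∑ ρ_i² = 3r²/2`. -/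
lemma num_all (β : ℂ) (hβ : ‖β‖ < 1) :
    ∃ M : ℝ, M ^ 2 = 1 + ‖β‖ ^ 2 ∧ 1 ≤ M ∧ Lam β ≤ 3 * M ∧
    3 * ‖β‖ ^ 2 ≤ (1 + ‖β‖ + M) * (lam β 0 * (-β.re) + lam β 1 * (β.re / 2 + √3 / 2 * β.im) +
      lam β 2 * (β.re / 2 - √3 / 2 * β.im)) ∧
    (lam β 0 * (-β.re) + lam β 1 * (β.re / 2 + √3 / 2 * β.im) +
      lam β 2 * (β.re / 2 - √3 / 2 * β.im)) * (2 - ‖β‖) ≤ 3 * ‖β‖ ^ 2 ∧
    ((lam β 0 - M) ^ 2 + (lam β 1 - M) ^ 2 + (lam β 2 - M) ^ 2) * (2 - ‖β‖) ^ 2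
      ≤ 6 * ‖β‖ ^ 2 := by
  have hr0 : 0 ≤ ‖β‖ := norm_nonneg β
  have hM : (√(1 + ‖β‖ ^ 2)) ^ 2 = 1 + ‖β‖ ^ 2 := Real.sq_sqrt (by positivity)
  have hM0 : 0 < √(1 + ‖β‖ ^ 2) := Real.sqrt_pos.mpr (by positivity)
  have hn : ‖β‖ ^ 2 = β.re ^ 2 + β.im ^ 2 := by
    rw [← Complex.normSq_eq_norm_sq, Complex.normSq_apply]; ring
  have h := num_core hβ hM hM0 (num_lam_sq0 β) (num_lam_sq1 β) (num_lam_sq2 β)
    (by ring) (by rw [hn]; linear_combination (β.im ^ 2 / 2) * s3)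
    (num_le_lam β 0) (num_le_lam β 1) (num_le_lam β 2)
    (num_lam_le β 0) (num_lam_le β 1) (num_lam_le β 2)
  refine ⟨_, hM, by nlinarith, ?_, h.2.1, h.2.2.1, h.2.2.2⟩
  exact h.1

theorem XX_ge {β c : ℂ} (h0 : β ≠ 0) (hβ : ‖β‖ < 1) (hc : c ^ 2 = β / ‖β‖) :
    ‖β‖ * (1 - ‖β‖) / 2 * Lam β ≤ XX β c := by
  obtain ⟨M, hM, hM1, hL, h1, h2, h3⟩ := num_all β hβ
  rw [← num_XX h0 hc] at h1
  have hr0 : 0 < ‖β‖ := norm_pos_iff.mpr h0
  set r := ‖β‖ with hr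
  have h4 : 3 * r ≤ (1 + r + M) * XX β c := by
    have : r * (3 * r) ≤ r * ((1 + r + M) * XX β c) := by nlinarith
    exact le_of_mul_le_mul_left this hr0
  have hMr : M ≤ 1 + r := by nlinarith
  have hM2 : (1 - r ^ 2) * M ≤ 1 := by
    have h5 : ((1 - r ^ 2) * M) ^ 2 ≤ 1 := by
      rw [mul_pow, hM]
      have : r ^ 2 < 1 := by nlinarith
      nlinarith [sq_nonneg r, mul_nonneg (sq_nonneg r) (sq_nonneg r)]
    nlinarith
  have h6 : (1 - r) * M * (1 + r + M) ≤ 2 := by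
    have : (1 - r) * M * (1 + r + M) ≤ (1 - r) * M * (2 * (1 + r)) := by
      apply mul_le_mul_of_nonneg_left (by linarith)
      apply mul_nonneg <;> linarith
    nlinarith
  have h7 : (1 + r + M) * (r * (1 - r) / 2 * Lam β) ≤ (1 + r + M) * XX β c := by
    calc (1 + r + M) * (r * (1 - r) / 2 * Lam β) ≤ (1 + r + M) * (r * (1 - r) / 2 * (3 * M)) := by
          apply mul_le_mul_of_nonneg_left _ (by linarith)
          apply mul_le_mul_of_nonneg_left hL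
          have : 0 < 1 - r := by linarith
          positivity
      _ = 3 * r / 2 * ((1 - r) * M * (1 + r + M)) := by ring
      _ ≤ 3 * r / 2 * 2 := by apply mul_le_mul_of_nonneg_left h6; positivity
      _ = 3 * r := by ring
      _ ≤ _ := h4
  exact le_of_mul_le_mul_left h7 (by linarith)

theorem XX_le {β c : ℂ} (h0 : β ≠ 0) (hβ : ‖β‖ < 1) (hc : c ^ 2 = β / ‖β‖) :
    XX β c ≤ ‖β‖ / (2 - ‖β‖) * Lam β := by
  obtain ⟨M, hM, hM1, hL, h1, h2, h3⟩ := num_all β hβ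
  rw [← num_XX h0 hc] at h2
  have hr0 : 0 < ‖β‖ := norm_pos_iff.mpr h0
  have hL3 := num_Lam_ge β
  set r := ‖β‖ with hr
  have h4 : XX β c * (2 - r) ≤ 3 * r := by
    have : r * (XX β c * (2 - r)) ≤ r * (3 * r) := by nlinarith
    exact le_of_mul_le_mul_left this hr0
  rw [div_mul_eq_mul_div, le_div_iff₀ (by linarith)]
  nlinarith

/-- Cauchy-Schwarz for `∑ (lam_i - M) Re(...)`. -/
theorem YY_abs_le {β c : ℂ} (hβ : ‖β‖ < 1) (hc : ‖c‖ = 1) :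
    |YY β c| ≤ ‖β‖ / (2 - ‖β‖) * Lam β := by
  obtain ⟨M, hM, hM1, hL, h1, h2, h3⟩ := num_all β hβ
  have hr0 : 0 ≤ ‖β‖ := norm_nonneg β
  have hL3 := num_Lam_ge β
  have hcn : c.re ^ 2 + c.im ^ 2 = 1 := by
    have : ‖c‖ ^ 2 = c.re ^ 2 + c.im ^ 2 := by
      rw [← Complex.normSq_eq_norm_sq, Complex.normSq_apply]; ring
    rw [← this, hc]; norm_num
  have hY : YY β c = (lam β 0 - M) * (-c.re) + (lam β 1 - M) * (c.re / 2 - √3 / 2 * c.im) +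
      (lam β 2 - M) * (c.re / 2 + √3 / 2 * c.im) := by
    unfold YY
    rw [om_sq]
    simp only [pow_zero, pow_one, Complex.mul_re, Complex.conj_re, Complex.conj_im,
      Complex.neg_re, Complex.neg_im, Complex.one_re, Complex.one_im, om_re, om_im]
    ring
  have hcs : (YY β c) ^ 2 ≤
      ((lam β 0 - M) ^ 2 + (lam β 1 - M) ^ 2 + (lam β 2 - M) ^ 2) * (3 / 2) := by
    have hw : (-c.re) ^ 2 + (c.re / 2 - √3 / 2 * c.im) ^ 2 + (c.re / 2 + √3 / 2 * c.im) ^ 2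
        = 3 / 2 := by
      linear_combination (c.im ^ 2 / 2) * s3 + (3 / 2) * hcn
    rw [hY, ← hw]
    generalize lam β 0 - M = a
    generalize lam β 1 - M = b
    generalize lam β 2 - M = d
    generalize -c.re = u
    generalize c.re / 2 - √3 / 2 * c.im = v
    generalize c.re / 2 + √3 / 2 * c.im = w
    nlinarith [sq_nonneg (a * v - b * u), sq_nonneg (a * w - d * u), sq_nonneg (b * w - d * v)]
  set r := ‖β‖ with hr
  have h5 : (YY β c * (2 - r)) ^ 2 ≤ (3 * r) ^ 2 := by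
    have : (YY β c) ^ 2 * (2 - r) ^ 2 ≤
      ((lam β 0 - M) ^ 2 + (lam β 1 - M) ^ 2 + (lam β 2 - M) ^ 2) * (3 / 2) * (2 - r) ^ 2 := by
      apply mul_le_mul_of_nonneg_right hcs (by positivity)
    nlinarith
  have h6 : |YY β c * (2 - r)| ≤ 3 * r := by
    rw [← abs_of_nonneg (show 0 ≤ 3 * r by positivity)]
    exact sq_le_sq.mp h5
  rw [abs_mul, abs_of_pos (show 0 < 2 - r by linarith)] at h6
  rw [div_mul_eq_mul_div, le_div_iff₀ (by linarith)]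
  nlinarith

lemma num_cos_dbl {x y : ℝ} (hy : 0 ≤ y) (h : y ≤ Real.cos x) :
    2 * y ^ 2 - 1 ≤ Real.cos (2 * x) := by
  rw [Real.cos_two_mul]
  nlinarith

lemma num_cos : (0.7647:ℝ) ≤ Real.cos 0.7 := by
  have h0 : (0.99904296:ℝ) ≤ Real.cos 0.04375 := by
    have := Real.one_sub_sq_div_two_le_cos (x := 0.04375)
    norm_num at this ⊢
    linarith
  have h1 : (0.9961736:ℝ) ≤ Real.cos 0.0875 := by
    have := num_cos_dbl (by norm_num) h0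
    norm_num at this ⊢
    linarith
  have h2 : (0.9847236:ℝ) ≤ Real.cos 0.175 := by
    have := num_cos_dbl (by norm_num) h1
    norm_num at this ⊢
    linarith
  have h3 : (0.939361:ℝ) ≤ Real.cos 0.35 := by
    have := num_cos_dbl (by norm_num) h2
    norm_num at this ⊢
    linarith
  have := num_cos_dbl (by norm_num) h3
  norm_num at this ⊢
  linarith

/-- `2 √3 cot 0.7 - 1 ≥ 3.11` and the resulting bound `η = 0.7/√3 ≥ 0.404` -/
theorem cot_num : 3.11 ≤ √3 * 2 * (Real.cos 0.7 / Real.sin 0.7) - 1 := by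
  have hs : 0 < Real.sin 0.7 := Real.sin_pos_of_pos_of_lt_pi (by norm_num)
    (by linarith [Real.pi_gt_three])
  have hc := num_cos
  have h1 := Real.sin_sq_add_cos_sq 0.7
  have h3 : (4.11 * Real.sin 0.7) ^ 2 ≤ (√3 * 2 * Real.cos 0.7) ^ 2 := by
    rw [mul_pow, mul_pow, mul_pow, s3sq]
    nlinarith
  have h4 : 4.11 * Real.sin 0.7 ≤ √3 * 2 * Real.cos 0.7 := by
    apply le_of_sq_le_sq h3
    have := s3pos
    positivity
  have h5 : 4.11 ≤ √3 * 2 * (Real.cos 0.7 / Real.sin 0.7) := by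
    rw [← mul_div_assoc, le_div_iff₀ hs]
    exact h4
  linarith

theorem eta_num : (0.404:ℝ) ≤ 0.7 / √3 := by
  rw [le_div_iff₀ s3pos]
  have : √3 ≤ 1.7321 := Real.sqrt_le_iff.mpr ⟨by norm_num, by norm_num⟩
  linarith

lemma num_sq_div {r y : ℝ} (hr : r < 2) (hy : y ^ 2 ≤ (r / (2 - r)) ^ 2) :
    y ^ 2 * (2 - r) ^ 2 ≤ r ^ 2 := by
  rw [div_pow, le_div_iff₀ (by have : 0 < 2 - r := by linarith
                               positivity)] at hy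
  exact hy

lemma num_near0 {r : ℝ} (hr0 : 0 < r) (hr : r ≤ 0.21) :
    (1 + r ^ 2 + 10 * r / 3 - 1.6752 / 0.3737 * r) * (2 - r) ^ 2 ≤
      (1 - r ^ 2) * (1 - r / 100) * ((2 - r) ^ 2 - r * (2 - r) - 2 * r ^ 2) := by
  have h1 : 0 ≤ 2.55762 - 13.5376273304 * r + 11.1894 * r ^ 2 - 1.06 * r ^ 3 := by
    have h2 : r ^ 3 ≤ 0.21 * r ^ 2 := by nlinarith [sq_nonneg r]
    nlinarith [sq_nonneg (r - 0.21)]
  have h3 : 0 ≤ r * (2.55762 - 13.5376273304 * r + 11.1894 * r ^ 2 - 1.06 * r ^ 3) :=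
    mul_nonneg hr0.le h1
  have h4 : 0 ≤ r ^ 3 := by positivity
  have h5 : 0 ≤ r ^ 2 := by positivity
  nlinarith

lemma num_near1 {r : ℝ} (hr0 : 0 < r) (hr : r ≤ 0.21) :
    (1 + r ^ 2 + 10 * r / 3 - 8 / 3 * (0.6282 - 0.2243 * (2 / 3)) / 0.3737 * r) ≤
      (1 - r ^ 2) * (1 - r / 100) * (1 + r * (1 - r) / 2) := by
  have h1 : 0 ≤ 0.57235 - 2.505 * r - 0.485 * r ^ 2 + 0.505 * r ^ 3 - 0.005 * r ^ 4 := by
    have h2 : r ^ 2 ≤ 0.0441 := by nlinarith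
    have h3 : 0 ≤ r ^ 3 := by positivity
    have h4 : r ^ 4 ≤ 0.002 := by nlinarith [sq_nonneg (r ^ 2)]
    linarith
  have h3 : 0 ≤ r * (0.57235 - 2.505 * r - 0.485 * r ^ 2 + 0.505 * r ^ 3 - 0.005 * r ^ 4) :=
    mul_nonneg hr0.le h1
  nlinarith

/-- N2. the near inequality (real variables) -/
theorem near_ineq {r t L p K x y : ℝ} (hr0 : 0 < r) (hr : r ≤ 0.21) (hL0 : 0 < L)
    (hL : L ≤ 0.3737) (ht : t ≤ L) (hp0 : 0 ≤ p) (hp : p ≤ 2 / 3)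
    (hK : 4 / 3 * (0.6282 - 0.2243 * p - 1.25 * t) ≤ K)
    (hx0 : r * (1 - r) / 2 ≤ x) (hx1 : x ≤ r / (2 - r)) (hy : y ^ 2 ≤ (r / (2 - r)) ^ 2) :
    ((1 + r ^ 2) * t - 2 * r * K) / (1 - r ^ 2) ≤
      (1 - r / 100) * (L * (1 + (3 * p - 1) * x - (2 - 3 * p) * y ^ 2)) := by
  have h1r : 0 < 1 - r ^ 2 := by nlinarith
  have h2r : 0 < (2 - r) ^ 2 := by
    have : 0 < 2 - r := by linarith
    positivity
  have hx2 : x * (2 - r) ^ 2 ≤ r * (2 - r) := by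
    rw [le_div_iff₀ (by linarith)] at hx1
    nlinarith
  have hy2 := num_sq_div (by linarith) hy
  rw [div_le_iff₀ h1r]
  have e1 : (1 + r ^ 2) * t - 2 * r * K ≤
      L * (1 + r ^ 2 + 10 * r / 3) - 8 * r / 3 * (0.6282 - 0.2243 * p) := by
    have a1 : 2 * r * (4 / 3 * (0.6282 - 0.2243 * p - 1.25 * t)) ≤ 2 * r * K :=
      mul_le_mul_of_nonneg_left hK (by linarith)
    have a2 : t * (1 + r ^ 2 + 10 * r / 3) ≤ L * (1 + r ^ 2 + 10 * r / 3) :=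
      mul_le_mul_of_nonneg_right ht (by positivity)
    nlinarith
  refine e1.trans ?_
  -- the two end points
  have g0 : 0 ≤ (1 - r ^ 2) * (1 - r / 100) * (L * (1 - x - 2 * y ^ 2)) -
      L * (1 + r ^ 2 + 10 * r / 3) + 1.6752 * r := by
    have n0 := num_near0 hr0 hr
    have b1 : (1 - r ^ 2) * (1 - r / 100) * ((2 - r) ^ 2 - r * (2 - r) - 2 * r ^ 2) ≤
        (1 - r ^ 2) * (1 - r / 100) * ((1 - x - 2 * y ^ 2) * (2 - r) ^ 2) := by
      apply mul_le_mul_of_nonneg_left _ (mul_nonneg h1r.le (by linarith))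
      nlinarith
    have b2 : (1 + r ^ 2 + 10 * r / 3 - 1.6752 / 0.3737 * r) * (2 - r) ^ 2 ≤
        ((1 - r ^ 2) * (1 - r / 100) * (1 - x - 2 * y ^ 2)) * (2 - r) ^ 2 := by
      calc _ ≤ _ := n0.trans b1
        _ = _ := by ring
    have b3 := le_of_mul_le_mul_right b2 h2r
    have b4 : L * (1 + r ^ 2 + 10 * r / 3 - 1.6752 / 0.3737 * r) ≤
        L * ((1 - r ^ 2) * (1 - r / 100) * (1 - x - 2 * y ^ 2)) :=
      mul_le_mul_of_nonneg_left b3 hL0.le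
    have b5 : L * (1.6752 / 0.3737 * r) ≤ 1.6752 * r := by
      have : L * (1.6752 / 0.3737 * r) ≤ 0.3737 * (1.6752 / 0.3737 * r) :=
        mul_le_mul_of_nonneg_right hL (by positivity)
      refine this.trans (le_of_eq ?_)
      ring
    nlinarith
  have g1 : 0 ≤ (1 - r ^ 2) * (1 - r / 100) * (L * (1 + x)) -
      L * (1 + r ^ 2 + 10 * r / 3) + 8 * r / 3 * (0.6282 - 0.2243 * (2 / 3)) := by
    have n1 := num_near1 hr0 hr
    have b1 : (1 - r ^ 2) * (1 - r / 100) * (1 + r * (1 - r) / 2) ≤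
        (1 - r ^ 2) * (1 - r / 100) * (1 + x) := by
      apply mul_le_mul_of_nonneg_left (by linarith) (mul_nonneg h1r.le (by linarith))
    have b4 := mul_le_mul_of_nonneg_left (n1.trans b1) hL0.le
    have b5 : L * (8 / 3 * (0.6282 - 0.2243 * (2 / 3)) / 0.3737 * r) ≤
        8 * r / 3 * (0.6282 - 0.2243 * (2 / 3)) := by
      have : L * (8 / 3 * (0.6282 - 0.2243 * (2 / 3)) / 0.3737 * r) ≤
          0.3737 * (8 / 3 * (0.6282 - 0.2243 * (2 / 3)) / 0.3737 * r) := by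
        apply mul_le_mul_of_nonneg_right hL
        have : (0:ℝ) ≤ 8 / 3 * (0.6282 - 0.2243 * (2 / 3)) / 0.3737 := by norm_num
        positivity
      refine this.trans (le_of_eq ?_)
      ring
    nlinarith
  have g2 : 0 ≤ (1 - 3 * p / 2) * ((1 - r ^ 2) * (1 - r / 100) * (L * (1 - x - 2 * y ^ 2)) -
      L * (1 + r ^ 2 + 10 * r / 3) + 1.6752 * r) + (3 * p / 2) *
      ((1 - r ^ 2) * (1 - r / 100) * (L * (1 + x)) -
      L * (1 + r ^ 2 + 10 * r / 3) + 8 * r / 3 * (0.6282 - 0.2243 * (2 / 3))) := by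
    apply add_nonneg
    · exact mul_nonneg (by linarith) g0
    · exact mul_nonneg (by linarith) g1
  linarith

theorem near_pos {r p x y : ℝ} (hr0 : 0 < r) (hr : r ≤ 0.21) (hp0 : 0 ≤ p) (hp : p ≤ 2 / 3)
    (hx0 : r * (1 - r) / 2 ≤ x) (hx1 : x ≤ r / (2 - r)) (hy : y ^ 2 ≤ (r / (2 - r)) ^ 2) :
    0 < 1 + (3 * p - 1) * x - (2 - 3 * p) * y ^ 2 := by
  have hd : r / (2 - r) ≤ 0.12 := by
    rw [div_le_iff₀ (by linarith)]
    linarith
  have hd0 : 0 ≤ r / (2 - r) := div_nonneg hr0.le (by linarith)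
  have hy1 : y ^ 2 ≤ 0.0144 := by
    refine hy.trans ?_
    nlinarith
  have hx2 : x ≤ 0.12 := hx1.trans hd
  have hx3 : 0 ≤ x := by
    refine le_trans ?_ hx0
    have : 0 ≤ 1 - r := by linarith
    positivity
  have h1 : -x ≤ (3 * p - 1) * x := by nlinarith
  have h2 : (2 - 3 * p) * y ^ 2 ≤ 2 * y ^ 2 := by nlinarith [sq_nonneg y]
  linarith

/-- N3. the far inequality -/
theorem far_ineq {r y : ℝ} (hr : 0.21 ≤ r) (hr1 : r < 1) (hy : y ^ 2 ≤ (r / (2 - r)) ^ 2) :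
    (1 - r) / (1 + r) < 2 / 3 * (1 - y ^ 2) := by
  have hy2 := num_sq_div (by linarith) hy
  have h2r : 0 < (2 - r) ^ 2 := by
    have : 0 < 2 - r := by linarith
    positivity
  rw [div_lt_iff₀ (by linarith)]
  have h3 : (1 - r) * (2 - r) ^ 2 < (2 / 3 * (1 - y ^ 2) * (1 + r)) * (2 - r) ^ 2 := by
    have h4 : (2 / 3 * (1 + r)) * ((2 - r) ^ 2 - r ^ 2) ≤
        (2 / 3 * (1 + r)) * ((1 - y ^ 2) * (2 - r) ^ 2) := by
      apply mul_le_mul_of_nonneg_left _ (by linarith)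
      nlinarith
    have h5 : (1 - r) * (2 - r) ^ 2 < (2 / 3 * (1 + r)) * ((2 - r) ^ 2 - r ^ 2) := by
      have h6 : 3 * r ^ 2 - 20 * r + 4 < 0 := by nlinarith
      nlinarith
    calc _ < _ := h5.trans_le h4
      _ = _ := by ring
  exact lt_of_mul_lt_mul_right h3 h2r.le

end Pool.Agent.H32.Stek
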