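import Mathlib
import Pool.Agent.H32.Stek.Reg
import Pool.Agent.H32.Stek.Side

set_option autoImplicit false

open Complex MeasureTheory

namespace Pool.Agent.H32.Stek

/-! The pair generated by an antisymmetric function `v` with `v + v(ω·) + v(ω²·) = 0`. -/

/-- the hypothesis on `v` -/
def Good (v : ℂ → ℝ) : Prop :=
  ContDiff ℝ 1 v ∧ (∀ z, v ((starRingEnd ℂ) z) = -v z) ∧
    (∀ z, v z + v (om * z) + v (om ^ 2 * z) = 0)

/-- the test function `c₁ u₁ + c₂ v`, `u₁ = (v(ω·) - v(ω²·))/√3` -/
noncomputable def tst (v : ℂ → ℝ) (c : ℂ) (z : ℂ) : ℝ :=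
  c.re * ((v (om * z) - v (om ^ 2 * z)) / √3) + c.im * v z

/-- total energy, traceless part, boundary masses -/
noncomputable def tauv (v : ℂ → ℝ) : ℝ := ∫ z in E, ‖grad v z‖ ^ 2
noncomputable def Kv (v : ℂ → ℝ) : ℝ := ∫ z in E, ((grad v z).im ^ 2 - (grad v z).re ^ 2)
noncomputable def pv (v : ℂ → ℝ) : ℝ := side 0 (fun z => v z ^ 2)
noncomputable def qv (v : ℂ → ℝ) : ℝ := side 1 (fun z => v z ^ 2)
noncomputable def Mv (v : ℂ → ℝ) : ℝ := side 2 v

/-- `u₁ = (v + 2 v(ω·))/√3` -/
theorem tst_eq {v : ℂ → ℝ} (hv : Good v) (c z : ℂ) :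
    tst v c z = (c.re / √3 + c.im) * v z + (2 * c.re / √3) * v (om * z) := by
  have h1 := hv.2.2 z
  have h2 : v (om ^ 2 * z) = -v z - v (om * z) := by linarith
  rw [tst, h2]
  field_simp
  ring

theorem tst_contDiff {v : ℂ → ℝ} (hv : Good v) (c : ℂ) : ContDiff ℝ 1 (tst v c) := by
  have h1 : tst v c = fun z => (c.re / √3 + c.im) * v z + (2 * c.re / √3) * v (om * z) :=
    funext fun z => tst_eq hv c z
  rw [h1]
  exact (contDiff_const.mul hv.1).add (contDiff_const.mul (contDiff_rot hv.1))

section energy
variable {v : ℂ → ℝ}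

/-- gradients of `v` and `v(ω·)` -/
theorem pair_G2 (hv : Good v) (z : ℂ) :
    om ^ 2 * grad (fun z => v (om * z)) (om * z) =
      -(grad v z + grad (fun z => v (om * z)) z) := by
  have h1 := grad_rot (contDiff_rot hv.1) z
  have h2 : (fun z => v (om * (om * z))) = fun z => (-1) * (v z + v (om * z)) := by
    funext z
    have := hv.2.2 z
    have e : om * (om * z) = om ^ 2 * z := by ring
    rw [e]
    linarith
  rw [← h1, h2, grad_smul (hv.1.add (contDiff_rot hv.1)), grad_add hv.1 (contDiff_rot hv.1)]
  push_cast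
  ring

theorem pair_om4 : om ^ 4 = om := by
  calc om ^ 4 = om ^ 3 * om := by ring
    _ = om := by rw [om_cube, one_mul]

theorem pair_lin {f g k : ℂ → ℂ} (hf : Continuous f) (hg : Continuous g) (hk : Continuous k)
    (a b c : ℂ) : ∫ z in E, (a * f z + b * g z + c * k z) =
      a * (∫ z in E, f z) + b * (∫ z in E, g z) + c * ∫ z in E, k z := by
  have h1 : Integrable (fun z => a * f z) (volume.restrict E) :=
    (integrableOn_E hf).const_mul a
  have h2 : Integrable (fun z => b * g z) (volume.restrict E) :=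
    (integrableOn_E hg).const_mul b
  have h3 : Integrable (fun z => c * k z) (volume.restrict E) :=
    (integrableOn_E hk).const_mul c
  have h4 : Integrable (fun z => a * f z + b * g z) (volume.restrict E) := h1.add h2
  rw [integral_add h4 h3, integral_add h1 h2, integral_const_mul, integral_const_mul,
    integral_const_mul]

theorem pair_linR {f g k : ℂ → ℝ} (hf : Continuous f) (hg : Continuous g) (hk : Continuous k)
    (a b c : ℝ) : ∫ z in E, (a * f z + b * g z + c * k z) =
      a * (∫ z in E, f z) + b * (∫ z in E, g z) + c * ∫ z in E, k z := by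
  have h1 : Integrable (fun z => a * f z) (volume.restrict E) :=
    (integrableOn_E hf).const_mul a
  have h2 : Integrable (fun z => b * g z) (volume.restrict E) :=
    (integrableOn_E hg).const_mul b
  have h3 : Integrable (fun z => c * k z) (volume.restrict E) :=
    (integrableOn_E hk).const_mul c
  have h4 : Integrable (fun z => a * f z + b * g z) (volume.restrict E) := h1.add h2
  rw [integral_add h4 h3, integral_add h1 h2, integral_const_mul, integral_const_mul,
    integral_const_mul]

/-- the three complex integrals -/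
theorem pair_a (hv : Good v) :
    (∫ z in E, grad (fun z => v (om * z)) z ^ 2) = om * ∫ z in E, grad v z ^ 2 ∧
    (∫ z in E, grad v z * grad (fun z => v (om * z)) z) = om ^ 2 * ∫ z in E, grad v z ^ 2 := by
  have c0 : Continuous (grad v) := grad_continuous hv.1
  have c1 : Continuous (grad (fun z => v (om * z))) := grad_continuous (contDiff_rot hv.1)
  have h1 : (∫ z in E, grad (fun z => v (om * z)) z ^ 2) = om * ∫ z in E, grad v z ^ 2 := by
    have e1 : (fun z => grad (fun z => v (om * z)) z ^ 2) =
        fun z => om * (grad v (om * z) ^ 2) := by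
      funext z
      rw [grad_rot hv.1, mul_pow, ← pow_mul, show 2 * 2 = 4 by norm_num, pair_om4]
    rw [e1, integral_const_mul]
    congr 1
    exact integral_E_rot (fun y => grad v y ^ 2)
  refine ⟨h1, ?_⟩
  have h2 : (∫ z in E, (grad v z + grad (fun z => v (om * z)) z) ^ 2) =
      om * ∫ z in E, grad (fun z => v (om * z)) z ^ 2 := by
    have e1 : (fun z => (grad v z + grad (fun z => v (om * z)) z) ^ 2) =
        fun z => om * (grad (fun z => v (om * z)) (om * z) ^ 2) := by
      funext z
      have h3 := pair_G2 hv z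
      have h4 : (grad v z + grad (fun z => v (om * z)) z) ^ 2 =
          (om ^ 2 * grad (fun z => v (om * z)) (om * z)) ^ 2 := by rw [h3]; ring
      rw [h4, mul_pow, ← pow_mul, show 2 * 2 = 4 by norm_num, pair_om4]
    rw [e1, integral_const_mul]
    congr 1
    exact integral_E_rot (fun y => grad (fun z => v (om * z)) y ^ 2)
  have h3 : (∫ z in E, (grad v z + grad (fun z => v (om * z)) z) ^ 2) =
      1 * (∫ z in E, grad v z ^ 2) + 2 * (∫ z in E, grad v z * grad (fun z => v (om * z)) z) +
        1 * ∫ z in E, grad (fun z => v (om * z)) z ^ 2 := by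
    have cf : Continuous (fun z => grad v z ^ 2) := c0.pow 2
    have cg : Continuous (fun z => grad v z * grad (fun z => v (om * z)) z) := c0.mul c1
    have ck : Continuous (fun z => grad (fun z => v (om * z)) z ^ 2) := c1.pow 2
    rw [← pair_lin cf cg ck]
    refine integral_congr_ae (Filter.Eventually.of_forall fun z => ?_)
    simp only
    ring
  rw [h3, h1] at h2
  linear_combination (1 / 2) * h2 - (1 / 2) * (∫ z in E, grad v z ^ 2) * om_sum

/-- the three real integrals -/
theorem pair_b (hv : Good v) :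
    (∫ z in E, ‖grad (fun z => v (om * z)) z‖ ^ 2) = tauv v ∧
    (∫ z in E, (grad v z * (starRingEnd ℂ) (grad (fun z => v (om * z)) z)).re) =
      -(tauv v / 2) := by
  have c0 : Continuous (grad v) := grad_continuous hv.1
  have c1 : Continuous (grad (fun z => v (om * z))) := grad_continuous (contDiff_rot hv.1)
  have h1 : (∫ z in E, ‖grad (fun z => v (om * z)) z‖ ^ 2) = tauv v := by
    have e1 : (fun z => ‖grad (fun z => v (om * z)) z‖ ^ 2) =
        fun z => ‖grad v (om * z)‖ ^ 2 := by
      funext z
      rw [grad_rot hv.1, norm_mul, norm_pow, om_norm, one_pow, one_mul]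
    rw [e1]
    exact integral_E_rot (fun y => ‖grad v y‖ ^ 2)
  refine ⟨h1, ?_⟩
  have h2 : (∫ z in E, ‖grad v z + grad (fun z => v (om * z)) z‖ ^ 2) = tauv v := by
    have e1 : (fun z => ‖grad v z + grad (fun z => v (om * z)) z‖ ^ 2) =
        fun z => ‖grad (fun z => v (om * z)) (om * z)‖ ^ 2 := by
      funext z
      have h3 := pair_G2 hv z
      have h4 : ‖grad v z + grad (fun z => v (om * z)) z‖ =
          ‖om ^ 2 * grad (fun z => v (om * z)) (om * z)‖ := by rw [h3, norm_neg]
      rw [h4, norm_mul, norm_pow, om_norm, one_pow, one_mul]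
    rw [e1, ← h1]
    exact integral_E_rot (fun y => ‖grad (fun z => v (om * z)) y‖ ^ 2)
  have c2 : Continuous (fun z => (grad v z *
      (starRingEnd ℂ) (grad (fun z => v (om * z)) z)).re) :=
    Complex.continuous_re.comp (c0.mul (Complex.continuous_conj.comp c1))
  have h3 : (∫ z in E, ‖grad v z + grad (fun z => v (om * z)) z‖ ^ 2) =
      1 * (∫ z in E, ‖grad v z‖ ^ 2) +
        2 * (∫ z in E, (grad v z * (starRingEnd ℂ) (grad (fun z => v (om * z)) z)).re) +
        1 * ∫ z in E, ‖grad (fun z => v (om * z)) z‖ ^ 2 := by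
    have cf : Continuous (fun z => ‖grad v z‖ ^ 2) := c0.norm.pow 2
    have ck : Continuous (fun z => ‖grad (fun z => v (om * z)) z‖ ^ 2) := c1.norm.pow 2
    rw [← pair_linR cf c2 ck]
    refine integral_congr_ae (Filter.Eventually.of_forall fun z => ?_)
    simp only
    rw [← Complex.normSq_eq_norm_sq, ← Complex.normSq_eq_norm_sq, ← Complex.normSq_eq_norm_sq,
      Complex.normSq_add]
    ring
  rw [h3, h1] at h2
  have h4 : (∫ z in E, ‖grad v z‖ ^ 2) = tauv v := rfl
  rw [h4] at h2
  linarith

/-- `∫ g_v² = -K` -/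
theorem pair_K (hv : Good v) : (∫ z in E, grad v z ^ 2) = -(Kv v : ℂ) := by
  have c0 : Continuous (grad v) := grad_continuous hv.1
  have h1 : (∫ z in E, grad v z ^ 2) = (starRingEnd ℂ) (∫ z in E, grad v z ^ 2) := by
    have e1 : ∀ z, grad v ((starRingEnd ℂ) z) = -(starRingEnd ℂ) (grad v z) := by
      intro z
      have h2 := grad_conj hv.1 z
      have h3 : (fun z => v ((starRingEnd ℂ) z)) = fun z => (-1) * v z := by
        funext z
        rw [hv.2.1]
        ring
      rw [h3, grad_smul hv.1] at h2
      have h4 := congrArg (starRingEnd ℂ) h2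
      rw [Complex.conj_conj] at h4
      rw [← h4]
      push_cast
      simp
    calc (∫ z in E, grad v z ^ 2) = ∫ z in E, grad v ((starRingEnd ℂ) z) ^ 2 :=
          (integral_E_conj (fun z => grad v z ^ 2)).symm
      _ = ∫ z in E, (starRingEnd ℂ) (grad v z ^ 2) := by
          refine integral_congr_ae (Filter.Eventually.of_forall fun z => ?_)
          simp only
          rw [e1, map_pow]
          ring
      _ = _ := integral_conj
  have h2 : (∫ z in E, grad v z ^ 2).im = 0 := by
    have := congrArg Complex.im h1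
    rw [Complex.conj_im] at this
    linarith
  have h3 : (∫ z in E, grad v z ^ 2).re = -Kv v := by
    have h4 := integral_re (𝕜 := ℂ) (μ := volume.restrict E)
      (integrableOn_E (c0.pow 2) : Integrable (fun z => grad v z ^ 2) (volume.restrict E))
    simp only [RCLike.re_eq_complex_re] at h4
    rw [← h4, Kv, ← integral_neg]
    refine integral_congr_ae (Filter.Eventually.of_forall fun z => ?_)
    simp only [sq, Complex.mul_re]
    ring
  apply Complex.ext
  · rw [h3]; simp
  · rw [h2]; simp

theorem pair_grad (hv : Good v) (c z : ℂ) : grad (tst v c) z =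
    ((c.re / √3 + c.im : ℝ) : ℂ) * grad v z +
      ((2 * c.re / √3 : ℝ) : ℂ) * grad (fun z => v (om * z)) z := by
  have h1 : tst v c = fun z => (c.re / √3 + c.im) * v z + (2 * c.re / √3) * v (om * z) :=
    funext fun z => tst_eq hv c z
  rw [h1, grad_add (contDiff_const.mul hv.1) (contDiff_const.mul (contDiff_rot hv.1)),
    grad_smul hv.1, grad_smul (contDiff_rot hv.1)]

/-- F1. With `H(f,g) = ∫ g_f g_g`: `H(v,v) = -K` is real, `H(Rf,Rg) = ω H(f,g)`,
so `H(v,Rv) = ω² H(v,v)` and `H(w,w) = K c²`; similarly `∫ |g_w|² = |c|² τ`. -/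
theorem NE_tst {v : ℂ → ℝ} (hv : Good v) (c β : ℂ) :
    NE β (tst v c) = ((1 + ‖β‖ ^ 2) * ‖c‖ ^ 2 * tauv v -
      2 * Kv v * ((starRingEnd ℂ) β * c ^ 2).re) / (1 - ‖β‖ ^ 2) := by
  have c0 : Continuous (grad v) := grad_continuous hv.1
  have c1 : Continuous (grad (fun z => v (om * z))) := grad_continuous (contDiff_rot hv.1)
  have cw : Continuous (grad (tst v c)) := grad_continuous (tst_contDiff hv c)
  obtain ⟨a1, a2⟩ := pair_a hv
  obtain ⟨b1, b2⟩ := pair_b hv
  have a0 := pair_K hv
  set A : ℝ := c.re / √3 + c.im with hA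
  set B : ℝ := 2 * c.re / √3 with hB
  have h3 := s3pos
  have h3' := s3sq
  have hs : √3 ≠ 0 := h3.ne'
  -- complex square
  have hH : (∫ z in E, grad (tst v c) z ^ 2) = (Kv v : ℂ) * c ^ 2 := by
    have e1 : (∫ z in E, grad (tst v c) z ^ 2) = (A : ℂ) ^ 2 * (∫ z in E, grad v z ^ 2) +
        (2 * A * B : ℂ) * (∫ z in E, grad v z * grad (fun z => v (om * z)) z) +
        (B : ℂ) ^ 2 * ∫ z in E, grad (fun z => v (om * z)) z ^ 2 := by
      have cf : Continuous (fun z => grad v z ^ 2) := c0.pow 2
      have cg : Continuous (fun z => grad v z * grad (fun z => v (om * z)) z) := c0.mul c1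
      have ck : Continuous (fun z => grad (fun z => v (om * z)) z ^ 2) := c1.pow 2
      rw [← pair_lin cf cg ck]
      refine integral_congr_ae (Filter.Eventually.of_forall fun z => ?_)
      simp only
      rw [pair_grad hv]
      ring
    rw [e1, a1, a2, a0]
    have e2 : (A : ℂ) ^ 2 + 2 * A * B * om ^ 2 + (B : ℂ) ^ 2 * om = -c ^ 2 := by
      have e3 : (√3 : ℝ) ^ 2 = 3 := s3sq
      apply Complex.ext
      · rw [om_sq]
        simp only [Complex.add_re, Complex.mul_re, Complex.neg_re, pow_two, Complex.ofReal_re,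
          Complex.ofReal_im, Complex.mul_im, om_re, om_im, Complex.re_ofNat, Complex.im_ofNat]
        rw [hA, hB]
        field_simp
        ring_nf
        rw [e3]
        ring
      · rw [om_sq]
        simp only [Complex.add_im, Complex.mul_re, Complex.neg_im, pow_two, Complex.ofReal_re,
          Complex.ofReal_im, Complex.mul_im, om_re, om_im, Complex.re_ofNat, Complex.im_ofNat]
        rw [hA, hB]
        field_simp
        ring_nf
        try rw [e3]
        try ring
    linear_combination (-(Kv v : ℂ)) * e2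
  -- real square
  have hN : (∫ z in E, ‖grad (tst v c) z‖ ^ 2) = ‖c‖ ^ 2 * tauv v := by
    have c2 : Continuous (fun z => (grad v z *
        (starRingEnd ℂ) (grad (fun z => v (om * z)) z)).re) :=
      Complex.continuous_re.comp (c0.mul (Complex.continuous_conj.comp c1))
    have e1 : (∫ z in E, ‖grad (tst v c) z‖ ^ 2) = A ^ 2 * (∫ z in E, ‖grad v z‖ ^ 2) +
        (2 * A * B) * (∫ z in E, (grad v z *
          (starRingEnd ℂ) (grad (fun z => v (om * z)) z)).re) +
        B ^ 2 * ∫ z in E, ‖grad (fun z => v (om * z)) z‖ ^ 2 := by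
      have cf : Continuous (fun z => ‖grad v z‖ ^ 2) := c0.norm.pow 2
      have ck : Continuous (fun z => ‖grad (fun z => v (om * z)) z‖ ^ 2) := c1.norm.pow 2
      rw [← pair_linR cf c2 ck]
      refine integral_congr_ae (Filter.Eventually.of_forall fun z => ?_)
      simp only
      rw [pair_grad hv, ← Complex.normSq_eq_norm_sq, ← Complex.normSq_eq_norm_sq,
        ← Complex.normSq_eq_norm_sq, Complex.normSq_add, Complex.normSq_mul, Complex.normSq_mul,
        Complex.normSq_ofReal, Complex.normSq_ofReal]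
      simp only [map_mul, Complex.conj_ofReal, Complex.mul_re, Complex.mul_im, Complex.conj_re,
        Complex.conj_im, Complex.ofReal_re, Complex.ofReal_im]
      ring
    rw [e1, b1, b2]
    have e2 : (∫ z in E, ‖grad v z‖ ^ 2) = tauv v := rfl
    have e3 : ‖c‖ ^ 2 = c.re ^ 2 + c.im ^ 2 := by
      rw [← Complex.normSq_eq_norm_sq, Complex.normSq_apply]
      ring
    rw [e2, e3, hA, hB]
    field_simp
    ring_nf
    try rw [h3']
    try ring
  rw [NE]
  congr 1
  have e4 : (∫ z in E, ‖grad (tst v c) z - β * (starRingEnd ℂ) (grad (tst v c) z)‖ ^ 2) =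
      (1 + ‖β‖ ^ 2) * (∫ z in E, ‖grad (tst v c) z‖ ^ 2) +
        (-2) * (∫ z in E, ((starRingEnd ℂ) β * grad (tst v c) z ^ 2).re) +
        0 * ∫ z in E, (0 : ℝ) := by
    have cf : Continuous (fun z => ‖grad (tst v c) z‖ ^ 2) := cw.norm.pow 2
    have cg : Continuous (fun z => ((starRingEnd ℂ) β * grad (tst v c) z ^ 2).re) :=
      Complex.continuous_re.comp (continuous_const.mul (cw.pow 2))
    have ck : Continuous (fun _ : ℂ => (0 : ℝ)) := continuous_const
    rw [← pair_linR cf cg ck]
    refine integral_congr_ae (Filter.Eventually.of_forall fun z => ?_)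
    simp only
    rw [← Complex.normSq_eq_norm_sq, ← Complex.normSq_eq_norm_sq, ← Complex.normSq_eq_norm_sq,
      Complex.normSq_sub, Complex.normSq_mul, Complex.normSq_conj]
    simp only [map_mul, Complex.conj_conj, Complex.mul_re, Complex.mul_im, Complex.conj_re,
      Complex.conj_im, sq]
    ring
  have e5 : (∫ z in E, ((starRingEnd ℂ) β * grad (tst v c) z ^ 2).re) =
      ((starRingEnd ℂ) β * ((Kv v : ℂ) * c ^ 2)).re := by
    have h4 := integral_re (𝕜 := ℂ) (μ := volume.restrict E)
      (integrableOn_E (continuous_const.mul (cw.pow 2)) :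
        Integrable (fun z => (starRingEnd ℂ) β * grad (tst v c) z ^ 2) (volume.restrict E))
    simp only [RCLike.re_eq_complex_re] at h4
    rw [h4, integral_const_mul, hH]
  rw [e4, e5, hN]
  have e6 : ((starRingEnd ℂ) β * ((Kv v : ℂ) * c ^ 2)).re =
      Kv v * ((starRingEnd ℂ) β * c ^ 2).re := by
    have : (starRingEnd ℂ) β * ((Kv v : ℂ) * c ^ 2) =
        ((Kv v : ℝ) : ℂ) * ((starRingEnd ℂ) β * c ^ 2) := by ring
    rw [this, Complex.re_ofReal_mul]
  rw [e6]
  ring

end energy

section sides
variable {v : ℂ → ℝ}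

theorem pair_lin_side {f g k : ℂ → ℝ} (hf : Continuous f) (hg : Continuous g)
    (hk : Continuous k) (a b c : ℝ) (i : ℕ) :
    side i (fun z => a * f z + b * g z + c * k z) =
      a * side i f + b * side i g + c * side i k := by
  rw [side_add (f := fun z => a * f z + b * g z) (g := fun z => c * k z)
    ((continuous_const.mul hf).add (continuous_const.mul hg)) (continuous_const.mul hk),
    side_add (f := fun z => a * f z) (g := fun z => b * g z) (continuous_const.mul hf)
      (continuous_const.mul hg), side_smul, side_smul, side_smul]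

theorem side2_sq {v : ℂ → ℝ} (hv : Good v) : side 2 (fun z => v z ^ 2) = qv v := by
  rw [qv, ← side_conj2 (fun z => v z ^ 2)]
  congr 1
  funext z
  rw [hv.2.1]
  ring

theorem pair_s3 : side 3 (fun z => v z ^ 2) = pv v := side_period 0 _

/-- `∫_{side i} v v(ω·)` -/
theorem pair_mix (hv : Good v) (i : ℕ) :
    side i (fun z => v z * v (om * z)) = (side (i + 2) (fun z => v z ^ 2) -
      side i (fun z => v z ^ 2) - side (i + 1) (fun z => v z ^ 2)) / 2 := by
  have cv : Continuous v := hv.1.continuous
  have c1 : Continuous (fun z => v (om * z)) := (contDiff_rot hv.1).continuous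
  have h1 : side i (fun z => v (om ^ 2 * z) ^ 2) = side (i + 2) (fun z => v z ^ 2) := by
    have e1 := side_rot (i + 1) (fun z => v z ^ 2)
    have e2 := side_rot i (fun z => v (om * z) ^ 2)
    rw [show i + 2 = i + 1 + 1 by ring, ← e1, ← e2]
    congr 1
    funext z
    rw [show om ^ 2 * z = om * (om * z) by ring]
  have h2 : side i (fun z => v (om ^ 2 * z) ^ 2) = 1 * side i (fun z => v z ^ 2) +
      2 * side i (fun z => v z * v (om * z)) + 1 * side i (fun z => v (om * z) ^ 2) := by
    have cf : Continuous (fun z => v z ^ 2) := cv.pow 2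
    have cg : Continuous (fun z => v z * v (om * z)) := cv.mul c1
    have ck : Continuous (fun z => v (om * z) ^ 2) := c1.pow 2
    rw [← pair_lin_side cf cg ck]
    congr 1
    funext z
    have h3 := hv.2.2 z
    have h4 : v (om ^ 2 * z) = -v z - v (om * z) := by linarith
    rw [h4]
    ring
  have h3 : side i (fun z => v (om * z) ^ 2) = side (i + 1) (fun z => v z ^ 2) :=
    side_rot i (fun z => v z ^ 2)
  rw [h1, h3] at h2
  linarith

theorem pair_side_sq (hv : Good v) (c : ℂ) (i : ℕ) :
    side i (fun z => tst v c z ^ 2) =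
      (c.re / √3 + c.im) ^ 2 * side i (fun z => v z ^ 2) +
        2 * (c.re / √3 + c.im) * (2 * c.re / √3) * ((side (i + 2) (fun z => v z ^ 2) -
          side i (fun z => v z ^ 2) - side (i + 1) (fun z => v z ^ 2)) / 2) +
        (2 * c.re / √3) ^ 2 * side (i + 1) (fun z => v z ^ 2) := by
  have cv : Continuous v := hv.1.continuous
  have c1 : Continuous (fun z => v (om * z)) := (contDiff_rot hv.1).continuous
  have h3 : side i (fun z => v (om * z) ^ 2) = side (i + 1) (fun z => v z ^ 2) :=
    side_rot i (fun z => v z ^ 2)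
  have cf : Continuous (fun z => v z ^ 2) := cv.pow 2
  have cg : Continuous (fun z => v z * v (om * z)) := cv.mul c1
  have ck : Continuous (fun z => v (om * z) ^ 2) := c1.pow 2
  rw [← pair_mix hv, ← h3, ← pair_lin_side cf cg ck]
  congr 1
  funext z
  rw [tst_eq hv]
  ring

/-- F2. -/
theorem side_sq_tst {v : ℂ → ℝ} (hv : Good v) (c : ℂ) {i : ℕ} (hi : i < 3) :
    side i (fun z => tst v c z ^ 2) = ‖c‖ ^ 2 * ((pv v + 2 * qv v) / 3) +
      2 / 3 * (pv v - qv v) * ((starRingEnd ℂ) c ^ 2 * (-om ^ (2 * i))).re := by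
  have h0 : side 0 (fun z => v z ^ 2) = pv v := rfl
  have h1 : side 1 (fun z => v z ^ 2) = qv v := rfl
  have h2 := side2_sq hv
  have h3 := pair_s3 (v := v)
  have h4 : side 4 (fun z => v z ^ 2) = qv v := side_period 1 _
  have e3 : ‖c‖ ^ 2 = c.re ^ 2 + c.im ^ 2 := by
    rw [← Complex.normSq_eq_norm_sq, Complex.normSq_apply]
    ring
  have hs := s3pos.ne'
  have hs2 := s3sq
  have hs3 : √3 ^ 3 = 3 * √3 := by rw [pow_succ, hs2]
  rw [pair_side_sq hv, e3]
  interval_cases i
  · simp only [zero_add, h0, h1, h2]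
    simp only [mul_zero, pow_zero, mul_neg, mul_one, Complex.neg_re, sq, Complex.mul_re,
      Complex.conj_re, Complex.conj_im]
    field_simp
    ring_nf
    rw [hs2]
    ring
  · simp only [show 1 + 2 = 3 by norm_num, show 1 + 1 = 2 by norm_num, h1, h2, h3, mul_one]
    rw [om_sq]
    simp only [Complex.neg_re, Complex.neg_im, sq, Complex.mul_re, Complex.mul_im,
      Complex.conj_re, Complex.conj_im]
    field_simp
    ring_nf
    rw [hs2, hs3]
    ring
  · simp only [show 2 + 2 = 4 by norm_num, show 2 + 1 = 3 by norm_num, h4, h2, h3,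
      show 2 * 2 = 4 by norm_num]
    rw [pair_om4]
    simp only [Complex.neg_re, Complex.neg_im, sq, Complex.mul_re, Complex.mul_im,
      Complex.conj_re, Complex.conj_im, om_re, om_im]
    field_simp
    ring_nf
    rw [hs2, hs3]
    ring

theorem pair_m (hv : Good v) : side 0 v = 0 ∧ side 1 v = -Mv v := by
  have e1 : (fun z => v ((starRingEnd ℂ) z)) = fun z => (-1) * v z := by
    funext z
    rw [hv.2.1]
    ring
  constructor
  · have h1 := side_conj0 v
    rw [e1, side_smul] at h1
    linarith
  · have h1 := side_conj2 v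
    rw [e1, side_smul] at h1
    rw [Mv]
    linarith

/-- F3. -/
theorem side_tst {v : ℂ → ℝ} (hv : Good v) (c : ℂ) {i : ℕ} (hi : i < 3) :
    side i (tst v c) = 2 * Mv v / √3 * ((starRingEnd ℂ) c * (-om ^ i)).re := by
  have cv : Continuous v := hv.1.continuous
  have c1 : Continuous (fun z => v (om * z)) := (contDiff_rot hv.1).continuous
  obtain ⟨m0, m1⟩ := pair_m hv
  have m2 : side 2 v = Mv v := rfl
  have m3 : side 3 v = 0 := (side_period 0 v).trans m0
  have e1 : side i (tst v c) = (c.re / √3 + c.im) * side i v +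
      (2 * c.re / √3) * side (i + 1) v := by
    have h1 : tst v c = fun z => (c.re / √3 + c.im) * v z + (2 * c.re / √3) * v (om * z) :=
      funext fun z => tst_eq hv c z
    rw [h1, side_add (f := fun z => (c.re / √3 + c.im) * v z)
      (g := fun z => (2 * c.re / √3) * v (om * z)) (continuous_const.mul cv)
      (continuous_const.mul c1), side_smul, side_smul (2 * c.re / √3) (fun z => v (om * z)),
      side_rot i v]
  have hs := s3pos.ne'
  have hs2 := s3sq
  rw [e1]
  interval_cases i
  · simp only [zero_add, m0, m1, pow_zero, mul_neg, mul_one, Complex.neg_re, Complex.conj_re]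
    field_simp
    ring
  · simp only [show 1 + 1 = 2 by norm_num, m1, m2, pow_one, mul_neg, Complex.neg_re,
      Complex.mul_re, Complex.conj_re, Complex.conj_im, om_re, om_im]
    field_simp
    ring_nf
    try rw [hs2]
    try ring
  · simp only [show 2 + 1 = 3 by norm_num, m2, m3]
    rw [om_sq]
    simp only [mul_neg, Complex.neg_re, Complex.mul_re, Complex.conj_re, Complex.conj_im]
    field_simp
    ring_nf
    try rw [hs2]
    try ring

theorem pair_u1 (hv : Good v) : side 0 (fun z => tst v 1 z ^ 2) = (4 * qv v - pv v) / 3 := by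
  rw [side_sq_tst hv 1 (by norm_num)]
  simp
  ring

/-- F4. -/
theorem four_q_ge {v : ℂ → ℝ} (hv : Good v) : pv v ≤ 4 * qv v := by
  have h1 := pair_u1 hv
  have h2 : 0 ≤ side 0 (fun z => tst v 1 z ^ 2) := side_nonneg (fun z => sq_nonneg _) 0
  rw [h1] at h2
  linarith

theorem M_bound {v : ℂ → ℝ} (hv : Good v) :
    (2 * Mv v / √3) ^ 2 ≤ 2 * √3 * ((4 * qv v - pv v) / 3) := by
  have h1 := side_cs (tst_contDiff hv 1).continuous 0
  rw [pair_u1 hv, side_tst hv 1 (by norm_num)] at h1
  simpa using h1

end sides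

end Pool.Agent.H32.Stek
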