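import Mathlib
import Pool.Agent.H32.Stek.Reg
import Pool.Agent.H32.Stek.Side

set_option autoImplicit false

open Complex MeasureTheory

namespace Pool.Agent.H32.Stek

/-! Rotation invariant functions: eigenvalue at least `1/2`. -/

/-- Cauchy-Schwarz for an interval integral -/
private lemma cs_aux {g : ℝ → ℝ} (hg : Continuous g) {a b : ℝ} (hab : a ≤ b) :
    (∫ s in a..b, g s) ^ 2 ≤ (b - a) * ∫ s in a..b, g s ^ 2 := by
  rcases eq_or_lt_of_le hab with rfl | hlt
  · simp
  · have hba : 0 < b - a := sub_pos.mpr hlt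
    set c : ℝ := (∫ s in a..b, g s) / (b - a) with hc
    have h0 : 0 ≤ ∫ s in a..b, (g s - c) ^ 2 :=
      intervalIntegral.integral_nonneg hab (fun s _ => sq_nonneg _)
    have h1 : (∫ s in a..b, (g s - c) ^ 2) =
        (∫ s in a..b, g s ^ 2) - 2 * c * (∫ s in a..b, g s) + c ^ 2 * (b - a) := by
      have e : (fun s => (g s - c) ^ 2) = fun s => (g s ^ 2 - 2 * c * g s) + c ^ 2 := by
        funext s; ring
      rw [e, intervalIntegral.integral_add, intervalIntegral.integral_sub,
        intervalIntegral.integral_const_mul, intervalIntegral.integral_const]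
      · simp only [smul_eq_mul]; ring
      · exact (hg.pow 2).intervalIntegrable _ _
      · exact (continuous_const.mul hg).intervalIntegrable _ _
      · exact ((hg.pow 2).sub (continuous_const.mul hg)).intervalIntegrable _ _
      · exact continuous_const.intervalIntegrable _ _
    have h2 : c * (b - a) = ∫ s in a..b, g s := by
      rw [hc]; field_simp
    rw [h1] at h0
    have h3 : 0 ≤ (b - a) * ((∫ s in a..b, g s ^ 2) - 2 * c * (∫ s in a..b, g s)
        + c ^ 2 * (b - a)) := mul_nonneg hba.le h0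
    nlinarith [h3, h2]

/-- Hardy type bound: `∫_0^a G²/(a-t) ≤ (a/2) ∫ g²`, for `G' = g`, `G(0) = G(a) = 0`.
(`G(t)² (1/t + 1/(a-t)) ≤ ∫ g²`.) -/
theorem hardy {G g : ℝ → ℝ} {a : ℝ} (ha : 0 < a) (hG : ∀ t, HasDerivAt G (g t) t)
    (hg : Continuous g) (h0 : G 0 = 0) (h1 : G a = 0) {t : ℝ} (ht : t ∈ Set.Ioo 0 a) :
    G t ^ 2 ≤ t * (a - t) / a * ∫ s in (0:ℝ)..a, g s ^ 2 := by
  obtain ⟨ht0, hta⟩ := ht
  have e1 : (∫ s in (0:ℝ)..t, g s) = G t := by
    rw [intervalIntegral.integral_eq_sub_of_hasDerivAt (fun x _ => hG x)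
      (hg.intervalIntegrable _ _), h0, sub_zero]
  have e2 : (∫ s in t..a, g s) = -G t := by
    rw [intervalIntegral.integral_eq_sub_of_hasDerivAt (fun x _ => hG x)
      (hg.intervalIntegrable _ _), h1, zero_sub]
  have c1 := cs_aux hg ht0.le
  have c2 := cs_aux hg hta.le
  rw [e1] at c1
  rw [e2] at c2
  have e3 : (∫ s in (0:ℝ)..a, g s ^ 2) =
      (∫ s in (0:ℝ)..t, g s ^ 2) + ∫ s in t..a, g s ^ 2 :=
    (intervalIntegral.integral_add_adjacent_intervals ((hg.pow 2).intervalIntegrable _ _)
      ((hg.pow 2).intervalIntegrable _ _)).symm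
  rw [e3, div_mul_eq_mul_div, le_div_iff₀ ha]
  have p1 : 0 ≤ a - t := by linarith
  nlinarith [mul_le_mul_of_nonneg_left c1 p1, mul_le_mul_of_nonneg_left c2 ht0.le]

/-- swap of two interval integrals -/
private lemma swap_aux {F : ℝ → ℝ → ℝ} (hF : Continuous (Function.uncurry F)) {a b c d : ℝ}
    (hab : a ≤ b) (hcd : c ≤ d) :
    (∫ t in a..b, ∫ s in c..d, F t s) = ∫ s in c..d, ∫ t in a..b, F t s := by
  simp only [intervalIntegral.integral_of_le hab, intervalIntegral.integral_of_le hcd]
  apply integral_integral_swap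
  rw [Measure.prod_restrict]
  have h := hF.continuousOn.integrableOn_compact
    (isCompact_Icc.prod isCompact_Icc : IsCompact (Set.Icc a b ×ˢ Set.Icc c d))
    (μ := (volume : Measure ℝ).prod (volume : Measure ℝ))
  exact h.mono_set (Set.prod_mono Set.Ioc_subset_Icc_self Set.Ioc_subset_Icc_self)

private lemma rad_cont_mk {X : Type*} [TopologicalSpace X] {a b : X → ℝ} (ha : Continuous a)
    (hb : Continuous b) : Continuous (fun x => (⟨a x, b x⟩ : ℂ)) :=
  equivRealProdCLM.symm.continuous.comp (ha.prodMk hb)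

private lemma norm_sq_grad (w : ℂ) : ‖w‖ ^ 2 = w.re ^ 2 + w.im ^ 2 := by
  rw [← Complex.normSq_eq_norm_sq, Complex.normSq_apply]; ring

private lemma grad_norm_rot {f : ℂ → ℝ} (hf : ContDiff ℝ 1 f) (hr : ∀ z, f (om * z) = f z)
    (z : ℂ) : ‖grad f (om * z)‖ ^ 2 = ‖grad f z‖ ^ 2 := by
  have h := grad_rot hf z
  have e : (fun z => f (om * z)) = f := funext hr
  rw [e] at h
  rw [h, norm_mul, norm_pow, om_norm]; ring

private lemma continuous_normsq {f : ℂ → ℝ} (hf : ContDiff ℝ 1 f) :
    Continuous (fun z => ‖grad f z‖ ^ 2) := (grad_continuous hf).norm.pow 2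

/-- D2. rotation invariant and antisymmetric functions: they vanish on the rays `ℝ ω^j`, so
`f(-1,y)² ≤ ∫_{-1}^{-y/√3} f_x² dx`. -/
theorem sign_bound {f : ℂ → ℝ} (hf : ContDiff ℝ 1 f) (hr : ∀ z, f (om * z) = f z)
    (hc : ∀ z, f ((starRingEnd ℂ) z) = -f z) :
    1 / 2 * (3 * side 0 (fun z => f z ^ 2)) ≤ ∫ z in E, ‖grad f z‖ ^ 2 := by
  have hcont : Continuous f := hf.continuous
  have hconj : ∀ z, ‖grad f ((starRingEnd ℂ) z)‖ ^ 2 = ‖grad f z‖ ^ 2 := by
    intro z
    have h := grad_conj hf z
    have e : (fun z => f ((starRingEnd ℂ) z)) = fun z => (-1) * f z := by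
      funext z; rw [hc]; ring
    rw [e, grad_smul hf] at h
    have h2 : ‖((-1 : ℝ) : ℂ) * grad f z‖ = ‖(starRingEnd ℂ) (grad f ((starRingEnd ℂ) z))‖ := by
      rw [h]
    rw [norm_mul, RCLike.norm_conj] at h2
    simp only [ofReal_neg, ofReal_one, norm_neg, norm_one, one_mul] at h2
    rw [h2]
  have h6 := six_fold (continuous_normsq hf) (fun z => by positivity) (grad_norm_rot hf hr) hconj
  -- the ray
  have hray : ∀ y : ℝ, f ⟨-y / √3, y⟩ = 0 := by
    intro y
    have hreal : ∀ x : ℝ, f (x : ℂ) = 0 := by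
      intro x
      have := hc (x : ℂ)
      rw [conj_ofReal] at this
      linarith
    have e : (⟨-y / √3, y⟩ : ℂ) = om * ((2 * y / √3 : ℝ) : ℂ) := by
      have h3 := s3pos.ne'
      apply Complex.ext
      · simp only [mul_re, om_re, om_im, ofReal_re, ofReal_im]; ring
      · simp only [mul_im, om_re, om_im, ofReal_re, ofReal_im]; field_simp; ring
    rw [e, hr, hreal]
  have hpt : ∀ y ∈ Set.Icc (0:ℝ) √3, f ⟨-1, y⟩ ^ 2 ≤
      ∫ x in (-1:ℝ)..(-y / √3), ‖grad f ⟨x, y⟩‖ ^ 2 := by
    rintro y ⟨hy0, hy1⟩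
    have hle : (-1:ℝ) ≤ -y / √3 := by
      rw [le_div_iff₀ s3pos]; linarith
    have hcx : Continuous (fun x : ℝ => (⟨x, y⟩ : ℂ)) :=
      rad_cont_mk continuous_id continuous_const
    have hgc : Continuous (fun x : ℝ => grad f ⟨x, y⟩) := (grad_continuous hf).comp hcx
    have hre : Continuous (fun x : ℝ => (grad f ⟨x, y⟩).re) := Complex.continuous_re.comp hgc
    have e1 : (∫ x in (-1:ℝ)..(-y / √3), (grad f ⟨x, y⟩).re) = -f ⟨-1, y⟩ := by
      rw [intervalIntegral.integral_eq_sub_of_hasDerivAt (fun x _ => hasDerivAt_x hf x y)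
        (hre.intervalIntegrable _ _), hray, zero_sub]
    have c1 := cs_aux hre hle
    rw [e1] at c1
    have hlen : -y / √3 - -1 ≤ 1 := by
      have : 0 ≤ y / √3 := by positivity
      have e : -y / √3 = -(y / √3) := by ring
      linarith
    have hI0 : 0 ≤ ∫ x in (-1:ℝ)..(-y / √3), (grad f ⟨x, y⟩).re ^ 2 :=
      intervalIntegral.integral_nonneg hle (fun x _ => sq_nonneg _)
    have hI1 : (∫ x in (-1:ℝ)..(-y / √3), (grad f ⟨x, y⟩).re ^ 2) ≤
        ∫ x in (-1:ℝ)..(-y / √3), ‖grad f ⟨x, y⟩‖ ^ 2 := by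
      apply intervalIntegral.integral_mono_on hle ((hre.pow 2).intervalIntegrable _ _)
        ((hgc.norm.pow 2).intervalIntegrable _ _)
      intro x _
      simp only [Pi.pow_apply]
      rw [norm_sq_grad]
      nlinarith [sq_nonneg (grad f ⟨x, y⟩).im]
    nlinarith
  have hcy : Continuous (fun y : ℝ => (⟨-1, y⟩ : ℂ)) :=
    rad_cont_mk continuous_const continuous_id
  have hcy' : Continuous (fun y : ℝ => (⟨-1, -y⟩ : ℂ)) :=
    rad_cont_mk continuous_const continuous_neg
  have hside : side 0 (fun z => f z ^ 2) = 2 * ∫ y in (0:ℝ)..√3, f ⟨-1, y⟩ ^ 2 := by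
    have hsq : Continuous (fun z => f z ^ 2) := hcont.pow 2
    rw [side0_eq hsq, ← intervalIntegral.integral_const_mul]
    apply intervalIntegral.integral_congr
    intro y _
    have e : (⟨-1, -y⟩ : ℂ) = (starRingEnd ℂ) ⟨-1, y⟩ := by
      apply Complex.ext <;> simp
    simp only [e, hc]
    ring
  have hJ0 : 0 ≤ ∫ y in (0:ℝ)..√3, f ⟨-1, y⟩ ^ 2 :=
    intervalIntegral.integral_nonneg s3pos.le (fun x _ => sq_nonneg _)
  have hmono : (∫ y in (0:ℝ)..√3, f ⟨-1, y⟩ ^ 2) ≤
      ∫ y in (0:ℝ)..√3, ∫ x in (-1:ℝ)..(-y / √3), ‖grad f ⟨x, y⟩‖ ^ 2 := by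
    apply intervalIntegral.integral_mono_on s3pos.le
      ((((hcont.comp hcy)).pow 2).intervalIntegrable _ _)
    · apply Continuous.intervalIntegrable
      apply intervalIntegral.continuous_parametric_intervalIntegral_of_continuous
        (f := fun (y x : ℝ) => ‖grad f ⟨x, y⟩‖ ^ 2)
      · have : Continuous (fun p : ℝ × ℝ => (⟨p.2, p.1⟩ : ℂ)) :=
          rad_cont_mk continuous_snd continuous_fst
        exact ((grad_continuous hf).comp this).norm.pow 2
      · exact continuous_neg.div_const _
    · exact hpt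
  rw [hside]
  linarith

/-- derivative in the slanted coordinates -/
private lemma hasDerivAt_slant {f : ℂ → ℝ} (hf : ContDiff ℝ 1 f) (s t : ℝ) :
    HasDerivAt (fun t : ℝ => f ⟨-1 + s * (1 - t / √3), t⟩)
      ((grad f ⟨-1 + s * (1 - t / √3), t⟩).im
        - s / √3 * (grad f ⟨-1 + s * (1 - t / √3), t⟩).re) t := by
  have h1 : HasDerivAt (fun t : ℝ => (-1 + s * (1 - t / √3) : ℝ)) (-(s / √3)) t := by
    have h := ((((hasDerivAt_id' t).div_const √3).const_sub 1).const_mul s).const_add (-1)
    refine h.congr_deriv ?_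
    ring
  have h2 : HasDerivAt (fun t : ℝ => (⟨-1 + s * (1 - t / √3), t⟩ : ℂ)) ⟨-(s / √3), 1⟩ t :=
    equivRealProdCLM.symm.toContinuousLinearMap.hasFDerivAt.comp_hasDerivAt t
      (h1.prodMk (hasDerivAt_id' t))
  have hfd : HasFDerivAt f (fderiv ℝ f ⟨-1 + s * (1 - t / √3), t⟩)
      ((fun t : ℝ => (⟨-1 + s * (1 - t / √3), t⟩ : ℂ)) t) :=
    ((hf.differentiable one_ne_zero) _).hasFDerivAt
  have h4 : HasDerivAt (fun t : ℝ => f ⟨-1 + s * (1 - t / √3), t⟩)
      (fderiv ℝ f ⟨-1 + s * (1 - t / √3), t⟩ ⟨-(s / √3), 1⟩) t :=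
    HasFDerivAt.comp_hasDerivAt (f := fun t : ℝ => (⟨-1 + s * (1 - t / √3), t⟩ : ℂ)) t hfd h2
  refine h4.congr_deriv ?_
  have e : (⟨-(s / √3), 1⟩ : ℂ) = (-(s / √3)) • (1 : ℂ) + (1 : ℝ) • I := by
    apply Complex.ext <;> simp
  rw [e, map_add, map_smul, map_smul]
  simp only [grad, smul_eq_mul]
  ring

/-- D1. fully symmetric functions with mean zero on the boundary -/
theorem triv_bound {f : ℂ → ℝ} (hf : ContDiff ℝ 1 f) (hr : ∀ z, f (om * z) = f z)
    (hc : ∀ z, f ((starRingEnd ℂ) z) = f z) (h0 : side 0 f = 0) :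
    1 / 2 * (3 * side 0 (fun z => f z ^ 2)) ≤ ∫ z in E, ‖grad f z‖ ^ 2 := by
  have hcont : Continuous f := hf.continuous
  have hgc := grad_continuous hf
  have h3 := s3pos
  have hconj : ∀ z, ‖grad f ((starRingEnd ℂ) z)‖ ^ 2 = ‖grad f z‖ ^ 2 := by
    intro z
    have h := grad_conj hf z
    have e : (fun z => f ((starRingEnd ℂ) z)) = f := funext hc
    rw [e] at h
    rw [h, RCLike.norm_conj]
  have h6 := six_fold (continuous_normsq hf) (fun z => by positivity) (grad_norm_rot hf hr) hconj
  have hcy : Continuous (fun y : ℝ => (⟨-1, y⟩ : ℂ)) := rad_cont_mk continuous_const continuous_id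
  -- `g`, `G`
  set g : ℝ → ℝ := fun t => f ⟨-1, t⟩ with hgdef
  have hg : Continuous g := hcont.comp hcy
  set G : ℝ → ℝ := fun t => ∫ s in (0:ℝ)..t, g s with hGdef
  have hG : ∀ t, HasDerivAt G (g t) t := fun t =>
    intervalIntegral.integral_hasDerivAt_right (hg.intervalIntegrable _ _)
      hg.aestronglyMeasurable.stronglyMeasurableAtFilter hg.continuousAt
  have hGc : Continuous G := continuous_iff_continuousAt.mpr fun t => (hG t).continuousAt
  have hG0 : G 0 = 0 := by simp [hGdef]
  have hconjp : ∀ y : ℝ, f ⟨-1, -y⟩ = f ⟨-1, y⟩ := by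
    intro y
    have e : (⟨-1, -y⟩ : ℂ) = (starRingEnd ℂ) ⟨-1, y⟩ := by
      apply Complex.ext <;> simp
    rw [e, hc]
  have hG1 : G √3 = 0 := by
    rw [side0_eq hcont] at h0
    have e : (∫ y in (0:ℝ)..√3, (f ⟨-1, y⟩ + f ⟨-1, -y⟩)) = 2 * ∫ y in (0:ℝ)..√3, g y := by
      rw [← intervalIntegral.integral_const_mul]
      apply intervalIntegral.integral_congr
      intro y _
      simp only [hconjp, hgdef]
      ring
    rw [e] at h0
    simp only [hGdef]
    linarith
  set J : ℝ := ∫ t in (0:ℝ)..√3, g t ^ 2 with hJ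
  have hJ0 : 0 ≤ J := intervalIntegral.integral_nonneg h3.le (fun x _ => sq_nonneg _)
  have hside : side 0 (fun z => f z ^ 2) = 2 * J := by
    have hsq : Continuous (fun z => f z ^ 2) := hcont.pow 2
    rw [side0_eq hsq, hJ, ← intervalIntegral.integral_const_mul]
    apply intervalIntegral.integral_congr
    intro y _
    simp only [hconjp, hgdef]
    ring
  -- coordinates
  set P : ℝ → ℝ → ℂ := fun t s => ⟨-1 + s * (1 - t / √3), t⟩ with hP
  have hPc : Continuous (Function.uncurry P) := by
    apply rad_cont_mk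
    · exact continuous_const.add (continuous_snd.mul
        (continuous_const.sub (continuous_fst.div_const _)))
    · exact continuous_fst
  set X : ℝ → ℝ → ℝ := fun t s => (grad f (P t s)).re with hX
  set Y : ℝ → ℝ → ℝ := fun t s => (grad f (P t s)).im with hY
  have hXc : Continuous (Function.uncurry X) := Complex.continuous_re.comp (hgc.comp hPc)
  have hYc : Continuous (Function.uncurry Y) := Complex.continuous_im.comp (hgc.comp hPc)
  have hhc : Continuous (Function.uncurry fun t s => f (P t s)) := hcont.comp hPc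
  have hXt : ∀ t, Continuous (X t) := fun t => hXc.comp (continuous_const.prodMk continuous_id)
  have hYt : ∀ t, Continuous (Y t) := fun t => hYc.comp (continuous_const.prodMk continuous_id)
  have hXs : ∀ s, Continuous (fun t => X t s) :=
    fun s => hXc.comp (continuous_id.prodMk continuous_const)
  have hYs : ∀ s, Continuous (fun t => Y t s) :=
    fun s => hYc.comp (continuous_id.prodMk continuous_const)
  have hht : ∀ t, Continuous (fun s => f (P t s)) :=
    fun t => hhc.comp (continuous_const.prodMk continuous_id)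
  have hhs : ∀ s, Continuous (fun t => f (P t s)) :=
    fun s => hhc.comp (continuous_id.prodMk continuous_const)
  -- first part of the identity
  have hA1 : (∫ t in (0:ℝ)..√3, ∫ s in (0:ℝ)..1, G t * (Y t s - s / √3 * X t s)) =
      ∫ t in (0:ℝ)..√3, ∫ s in (0:ℝ)..1, -(g t * f (P t s)) := by
    have c1 : Continuous (Function.uncurry fun t s => G t * (Y t s - s / √3 * X t s)) :=
      (hGc.comp continuous_fst).mul (hYc.sub ((continuous_snd.div_const _).mul hXc))
    have c2 : Continuous (Function.uncurry fun t s => -(g t * f (P t s))) :=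
      ((hg.comp continuous_fst).mul hhc).neg
    rw [swap_aux c1 h3.le zero_le_one, swap_aux c2 h3.le zero_le_one]
    apply intervalIntegral.integral_congr
    intro s _
    have hp := intervalIntegral.integral_mul_deriv_eq_deriv_mul (a := (0:ℝ)) (b := √3)
      (u := G) (v := fun t => f (P t s)) (u' := g) (v' := fun t => Y t s - s / √3 * X t s)
      (fun x _ => hG x) (fun x _ => hasDerivAt_slant hf s x)
      (hg.intervalIntegrable _ _)
      (((hYs s).sub (continuous_const.mul (hXs s))).intervalIntegrable _ _)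
    simp only [hG0, hG1, zero_mul, sub_zero, zero_sub] at hp
    beta_reduce
    rw [hp, ← intervalIntegral.integral_neg]
  -- second part
  have hA2 : ∀ t, (∫ s in (0:ℝ)..1, (1 - s) * ((1 - t / √3) * X t s)) =
      -g t + ∫ s in (0:ℝ)..1, f (P t s) := by
    intro t
    have hd : ∀ s : ℝ, HasDerivAt (fun s => f (P t s)) ((1 - t / √3) * X t s) s := by
      intro s
      have h := (hasDerivAt_x hf (-1 + s * (1 - t / √3)) t)
      have h2 : HasDerivAt (fun s : ℝ => -1 + s * (1 - t / √3)) (1 - t / √3) s := by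
        have := ((hasDerivAt_id s).mul_const (1 - t / √3)).const_add (-1)
        simpa using this
      have h4 := h.comp s h2
      refine h4.congr_deriv ?_
      simp only [hX, hP]
      ring
    have hp := intervalIntegral.integral_mul_deriv_eq_deriv_mul (a := (0:ℝ)) (b := 1)
      (u := fun s => 1 - s) (v := fun s => f (P t s)) (u' := fun _ => -1)
      (v' := fun s => (1 - t / √3) * X t s)
      (fun x _ => by simpa using (hasDerivAt_id x).const_sub 1) (fun x _ => hd x)
      (continuous_const.intervalIntegrable _ _)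
      ((continuous_const.mul (hXt t)).intervalIntegrable _ _)
    rw [hp]
    have e0 : f (P t 0) = g t := by simp [hP, hgdef]
    simp only [sub_self, zero_mul, sub_zero, one_mul, e0, neg_mul,
      intervalIntegral.integral_neg]
    ring
  -- the vector field
  have hΦc : Continuous (Function.uncurry fun t s =>
      -G t * Y t s + (G t * s / √3 - g t * (1 - s) * (1 - t / √3)) * X t s) := by
    apply Continuous.add
    · exact (hGc.comp continuous_fst).neg.mul hYc
    · apply Continuous.mul _ hXc
      apply Continuous.sub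
      · exact ((hGc.comp continuous_fst).mul continuous_snd).div_const _
      · exact ((hg.comp continuous_fst).mul (continuous_const.sub continuous_snd)).mul
          (continuous_const.sub (continuous_fst.div_const _))
  have hΦi : Continuous (fun t => ∫ s in (0:ℝ)..1,
      (-G t * Y t s + (G t * s / √3 - g t * (1 - s) * (1 - t / √3)) * X t s)) :=
    intervalIntegral.continuous_parametric_intervalIntegral_of_continuous' hΦc 0 1
  have hident : (∫ t in (0:ℝ)..√3, ∫ s in (0:ℝ)..1,
      (-G t * Y t s + (G t * s / √3 - g t * (1 - s) * (1 - t / √3)) * X t s)) = J := by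
    have e1 : ∀ t, (∫ s in (0:ℝ)..1,
        (-G t * Y t s + (G t * s / √3 - g t * (1 - s) * (1 - t / √3)) * X t s)) =
        -(∫ s in (0:ℝ)..1, G t * (Y t s - s / √3 * X t s)) +
          (g t ^ 2 - g t * ∫ s in (0:ℝ)..1, f (P t s)) := by
      intro t
      have e2 : (fun s => -G t * Y t s + (G t * s / √3 - g t * (1 - s) * (1 - t / √3)) * X t s) =
          fun s => -(G t * (Y t s - s / √3 * X t s)) +
            (-g t) * ((1 - s) * ((1 - t / √3) * X t s)) := by
        funext s; ring
      have e5 : (∫ s in (0:ℝ)..1, (-g t) * ((1 - s) * ((1 - t / √3) * X t s))) =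
          (-g t) * (-g t + ∫ s in (0:ℝ)..1, f (P t s)) := by
        rw [intervalIntegral.integral_const_mul, hA2 t]
      rw [e2, intervalIntegral.integral_add, intervalIntegral.integral_neg, e5]
      · ring
      · exact (continuous_const.mul ((hYt t).sub ((continuous_id.div_const _).mul
          (hXt t)))).neg.intervalIntegrable _ _
      · exact (continuous_const.mul ((continuous_const.sub continuous_id).mul
          (continuous_const.mul (hXt t)))).intervalIntegrable _ _
    have ci1 : Continuous (fun t => ∫ s in (0:ℝ)..1, G t * (Y t s - s / √3 * X t s)) :=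
      intervalIntegral.continuous_parametric_intervalIntegral_of_continuous'
        (f := fun t s => G t * (Y t s - s / √3 * X t s))
        ((hGc.comp continuous_fst).mul (hYc.sub ((continuous_snd.div_const _).mul hXc))) 0 1
    have ci2 : Continuous (fun t => ∫ s in (0:ℝ)..1, f (P t s)) :=
      intervalIntegral.continuous_parametric_intervalIntegral_of_continuous'
        (f := fun t s => f (P t s)) hhc 0 1
    simp only [e1]
    rw [intervalIntegral.integral_add, intervalIntegral.integral_neg, hA1,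
      intervalIntegral.integral_sub]
    · have e3 : (∫ t in (0:ℝ)..√3, ∫ s in (0:ℝ)..1, -(g t * f (P t s))) =
          -∫ t in (0:ℝ)..√3, g t * ∫ s in (0:ℝ)..1, f (P t s) := by
        rw [← intervalIntegral.integral_neg]
        apply intervalIntegral.integral_congr
        intro t _
        simp only [intervalIntegral.integral_neg, intervalIntegral.integral_const_mul]
      rw [e3]
      ring
    · exact (hg.pow 2).intervalIntegrable _ _
    · exact (hg.mul ci2).intervalIntegrable _ _
    · exact ci1.neg.intervalIntegrable _ _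
    · exact ((hg.pow 2).sub (hg.mul ci2)).intervalIntegrable _ _
  -- the pointwise bound
  have hbound : ∀ t ∈ Set.Ioo (0:ℝ) √3, (∫ s in (0:ℝ)..1,
      (-G t * Y t s + (G t * s / √3 - g t * (1 - s) * (1 - t / √3)) * X t s)) ≤
      (5 / 18 * J) * t - 1 / (12 * √3) * (G t * g t) + 1 / 12 * g t ^ 2 +
        ∫ x in (-1:ℝ)..(-t / √3), ‖grad f ⟨x, t⟩‖ ^ 2 := by
    intro t ht
    obtain ⟨ht0, ht1⟩ := ht
    set l : ℝ := 1 - t / √3 with hl
    have hl0 : 0 < l := by
      have : t / √3 < 1 := by rw [div_lt_one h3]; exact ht1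
      rw [hl]; linarith
    have hl1 : l ≤ 1 := by
      have : 0 ≤ t / √3 := by positivity
      rw [hl]; linarith
    have hh := hardy h3 hG hg hG0 hG1 ⟨ht0, ht1⟩
    have hh' : G t ^ 2 ≤ t * l * J := by
      have e : t * (√3 - t) / √3 = t * l := by
        rw [hl]; field_simp
      rw [e] at hh
      exact hh
    -- change of variables
    have ecv : (∫ x in (-1:ℝ)..(-t / √3), ‖grad f ⟨x, t⟩‖ ^ 2) =
        l * ∫ s in (0:ℝ)..1, (X t s ^ 2 + Y t s ^ 2) := by
      have h := intervalIntegral.smul_integral_comp_add_mul (a := (0:ℝ)) (b := 1)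
        (fun x : ℝ => ‖grad f ⟨x, t⟩‖ ^ 2) l (-1)
      have e1 : -1 + l * 0 = -1 := by ring
      have e2 : -1 + l * 1 = -t / √3 := by rw [hl]; ring
      rw [e1, e2] at h
      rw [← h, smul_eq_mul]
      congr 1
      apply intervalIntegral.integral_congr
      intro s _
      simp only [norm_sq_grad, hX, hY, hP, ← hl, mul_comm l s]
    rw [ecv]
    have hpoly : (∫ s in (0:ℝ)..1, (G t ^ 2 + ((G t / √3 + g t * l) * s - g t * l) ^ 2)) =
        10 / 9 * G t ^ 2 - G t * g t * l / (3 * √3) + g t ^ 2 * l ^ 2 / 3 := by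
      have e : (fun s : ℝ => G t ^ 2 + ((G t / √3 + g t * l) * s - g t * l) ^ 2) =
          fun s => (G t ^ 2 + (g t * l) ^ 2) + ((G t / √3 + g t * l) ^ 2 * s ^ 2
            - 2 * (G t / √3 + g t * l) * (g t * l) * s ^ 1) := by
        funext s; ring
      rw [e, intervalIntegral.integral_add, intervalIntegral.integral_sub,
        intervalIntegral.integral_const, intervalIntegral.integral_const_mul,
        intervalIntegral.integral_const_mul, integral_pow, integral_pow]
      · have e3 := s3sq
        simp only [smul_eq_mul]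
        field_simp
        have h33 : √3 ^ 2 = (3:ℝ) := s3sq
        ring_nf
        simp only [h33]
        ring
      · exact ((continuous_const.mul (continuous_pow 2))).intervalIntegrable _ _
      · exact ((continuous_const.mul (continuous_pow 1))).intervalIntegrable _ _
      · exact continuous_const.intervalIntegrable _ _
      · exact ((continuous_const.mul (continuous_pow 2)).sub
          (continuous_const.mul (continuous_pow 1))).intervalIntegrable _ _
    have hcA : Continuous (fun s : ℝ => G t ^ 2 + ((G t / √3 + g t * l) * s - g t * l) ^ 2) :=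
      continuous_const.add (((continuous_const.mul continuous_id).sub continuous_const).pow 2)
    have hcB : Continuous (fun s : ℝ => X t s ^ 2 + Y t s ^ 2) :=
      ((hXt t).pow 2).add ((hYt t).pow 2)
    have hmono : (∫ s in (0:ℝ)..1, (-G t * Y t s + (G t * s / √3 - g t * (1 - s) * l) * X t s)) ≤
        ∫ s in (0:ℝ)..1, (1 / (4 * l) * (G t ^ 2 + ((G t / √3 + g t * l) * s - g t * l) ^ 2) +
          l * (X t s ^ 2 + Y t s ^ 2)) := by
      apply intervalIntegral.integral_mono_on zero_le_one
      · exact (hΦc.comp (continuous_const.prodMk continuous_id)).intervalIntegrable _ _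
      · exact ((continuous_const.mul hcA).add (continuous_const.mul hcB)).intervalIntegrable _ _
      · intro s _
        have key : ∀ a b : ℝ, a * b ≤ 1 / (4 * l) * a ^ 2 + l * b ^ 2 := by
          intro a b
          have : 0 ≤ 1 / (4 * l) * (a - 2 * l * b) ^ 2 := by positivity
          have e : 1 / (4 * l) * (a - 2 * l * b) ^ 2 =
              1 / (4 * l) * a ^ 2 - a * b + l * b ^ 2 := by
            field_simp; ring
          linarith
        have k1 := key (-G t) (Y t s)
        have k2 := key (G t * s / √3 - g t * (1 - s) * l) (X t s)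
        have e : (G t * s / √3 - g t * (1 - s) * l) = (G t / √3 + g t * l) * s - g t * l := by
          ring
        rw [e] at k2 ⊢
        have e2 : (-G t) ^ 2 = G t ^ 2 := by ring
        rw [e2] at k1
        linarith
    refine hmono.trans ?_
    have hsplit : (∫ s in (0:ℝ)..1,
        (1 / (4 * l) * (G t ^ 2 + ((G t / √3 + g t * l) * s - g t * l) ^ 2) +
          l * (X t s ^ 2 + Y t s ^ 2))) = 1 / (4 * l) * (10 / 9 * G t ^ 2 -
            G t * g t * l / (3 * √3) + g t ^ 2 * l ^ 2 / 3) +
          l * ∫ s in (0:ℝ)..1, (X t s ^ 2 + Y t s ^ 2) := by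
      rw [intervalIntegral.integral_add, intervalIntegral.integral_const_mul,
        intervalIntegral.integral_const_mul, hpoly]
      · exact (continuous_const.mul hcA).intervalIntegrable _ _
      · exact (continuous_const.mul hcB).intervalIntegrable _ _
    rw [hsplit]
    have hfin : 1 / (4 * l) * (10 / 9 * G t ^ 2 - G t * g t * l / (3 * √3) +
        g t ^ 2 * l ^ 2 / 3) ≤ (5 / 18 * J) * t - 1 / (12 * √3) * (G t * g t) +
          1 / 12 * g t ^ 2 := by
      have e : 1 / (4 * l) * (10 / 9 * G t ^ 2 - G t * g t * l / (3 * √3) +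
          g t ^ 2 * l ^ 2 / 3) = 5 / 18 * (G t ^ 2 / l) - 1 / (12 * √3) * (G t * g t) +
          1 / 12 * (g t ^ 2 * l) := by
        field_simp; ring
      have e2 : G t ^ 2 / l ≤ t * J := by
        rw [div_le_iff₀ hl0]; linarith
      have e4 : g t ^ 2 * l ≤ g t ^ 2 := mul_le_of_le_one_right (sq_nonneg _) hl1
      rw [e]
      linarith
    linarith
  -- integrate
  have hcont2 : Continuous (fun t => ∫ x in (-1:ℝ)..(-t / √3), ‖grad f ⟨x, t⟩‖ ^ 2) := by
    apply intervalIntegral.continuous_parametric_intervalIntegral_of_continuous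
      (f := fun (y x : ℝ) => ‖grad f ⟨x, y⟩‖ ^ 2)
    · exact (hgc.comp (rad_cont_mk continuous_snd continuous_fst)).norm.pow 2
    · exact continuous_neg.div_const _
  have c1 : Continuous (fun t => (5 / 18 * J) * t) := continuous_const.mul continuous_id
  have c2 : Continuous (fun t => 1 / (12 * √3) * (G t * g t)) :=
    continuous_const.mul (hGc.mul hg)
  have c3 : Continuous (fun t => 1 / 12 * g t ^ 2) := continuous_const.mul (hg.pow 2)
  have c12 : Continuous (fun t => (5 / 18 * J) * t - 1 / (12 * √3) * (G t * g t)) := c1.sub c2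
  have c123 : Continuous (fun t => (5 / 18 * J) * t - 1 / (12 * √3) * (G t * g t) +
      1 / 12 * g t ^ 2) := c12.add c3
  have c1234 : Continuous (fun t => (5 / 18 * J) * t - 1 / (12 * √3) * (G t * g t) +
      1 / 12 * g t ^ 2 + ∫ x in (-1:ℝ)..(-t / √3), ‖grad f ⟨x, t⟩‖ ^ 2) := c123.add hcont2
  have hint := intervalIntegral.integral_mono_on_of_le_Ioo h3.le
    (hΦi.intervalIntegrable (μ := volume) 0 √3)
    (c1234.intervalIntegrable (μ := volume) 0 √3) hbound
  rw [hident] at hint
  have hGg : (∫ t in (0:ℝ)..√3, G t * g t) = 0 := by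
    have hd : ∀ t, HasDerivAt (fun t => G t ^ 2 / 2) (G t * g t) t := by
      intro t
      have := ((hG t).pow 2).div_const 2
      refine this.congr_deriv ?_
      push_cast
      ring
    rw [intervalIntegral.integral_eq_sub_of_hasDerivAt (fun x _ => hd x)
      ((hGc.mul hg).intervalIntegrable _ _), hG0, hG1]
    ring
  have hexp : (∫ t in (0:ℝ)..√3, ((5 / 18 * J) * t - 1 / (12 * √3) * (G t * g t) +
      1 / 12 * g t ^ 2 + ∫ x in (-1:ℝ)..(-t / √3), ‖grad f ⟨x, t⟩‖ ^ 2)) =
      J / 2 + ∫ t in (0:ℝ)..√3, ∫ x in (-1:ℝ)..(-t / √3), ‖grad f ⟨x, t⟩‖ ^ 2 := by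
    rw [intervalIntegral.integral_add (c123.intervalIntegrable _ _)
        (hcont2.intervalIntegrable _ _),
      intervalIntegral.integral_add (c12.intervalIntegrable _ _)
        (c3.intervalIntegrable _ _),
      intervalIntegral.integral_sub (c1.intervalIntegrable _ _) (c2.intervalIntegrable _ _),
      intervalIntegral.integral_const_mul, intervalIntegral.integral_const_mul,
      intervalIntegral.integral_const_mul, integral_id, hGg, ← hJ, s3sq]
    ring
  rw [hexp] at hint
  rw [hside]
  linarith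

end Pool.Agent.H32.Stek
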