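import Mathlib
import Pool.Agent.H32.Stek.Barta
import Pool.Agent.H32.Stek.Rad
import Pool.Agent.H32.Stek.Pair

set_option autoImplicit false

open Complex MeasureTheory

namespace Pool.Agent.H32.Stek

/-! From an arbitrary near-minimiser to a good antisymmetric one. -/

namespace RedAux

lemma rr1 (z : ℂ) : om * (om * z) = om ^ 2 * z := by ring

lemma rr2 (z : ℂ) : om ^ 2 * (om * z) = z := by
  linear_combination z * om_cube

lemma rr3 (z : ℂ) : om * (om ^ 2 * z) = z := by
  linear_combination z * om_cube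

lemma rr4 (z : ℂ) : om ^ 2 * (om ^ 2 * z) = om * z := by
  linear_combination om * z * om_cube

lemma cc1 (z : ℂ) : (starRingEnd ℂ) (om * z) = om ^ 2 * (starRingEnd ℂ) z := by
  rw [map_mul, om_conj]

lemma cc2 (z : ℂ) : (starRingEnd ℂ) (om ^ 2 * z) = om * (starRingEnd ℂ) z := by
  rw [map_mul, map_pow, om_conj]
  linear_combination om * (starRingEnd ℂ) z * om_cube

lemma cc3 (z : ℂ) : (starRingEnd ℂ) ((starRingEnd ℂ) z) = z := Complex.conj_conj z

/-- symmetric bilinear forms on `C^1` functions, invariant under the symmetries of `E` -/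
structure Inv (b : (ℂ → ℝ) → (ℂ → ℝ) → ℝ) : Prop where
  add : ∀ f g k : ℂ → ℝ, ContDiff ℝ 1 f → ContDiff ℝ 1 g → ContDiff ℝ 1 k →
    b (fun z => f z + g z) k = b f k + b g k
  smul : ∀ (c : ℝ) (f k : ℂ → ℝ), ContDiff ℝ 1 f → ContDiff ℝ 1 k →
    b (fun z => c * f z) k = c * b f k
  symm : ∀ f g : ℂ → ℝ, b f g = b g f
  rot : ∀ f g : ℂ → ℝ, ContDiff ℝ 1 f → ContDiff ℝ 1 g →
    b (fun z => f (om * z)) (fun z => g (om * z)) = b f g
  conj : ∀ f g : ℂ → ℝ, ContDiff ℝ 1 f → ContDiff ℝ 1 g →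
    b (fun z => f ((starRingEnd ℂ) z)) (fun z => g ((starRingEnd ℂ) z)) = b f g
  nonneg : ∀ f : ℂ → ℝ, ContDiff ℝ 1 f → 0 ≤ b f f

section Forms

variable {b : (ℂ → ℝ) → (ℂ → ℝ) → ℝ}

lemma Inv.add' (h : Inv b) {f g k : ℂ → ℝ} (hf : ContDiff ℝ 1 f) (hg : ContDiff ℝ 1 g)
    (hk : ContDiff ℝ 1 k) : b k (fun z => f z + g z) = b k f + b k g := by
  rw [h.symm, h.add f g k hf hg hk, h.symm k f, h.symm k g]

lemma Inv.smul' (h : Inv b) (c : ℝ) {f k : ℂ → ℝ} (hf : ContDiff ℝ 1 f)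
    (hk : ContDiff ℝ 1 k) : b k (fun z => c * f z) = c * b k f := by
  rw [h.symm, h.smul c f k hf hk, h.symm k f]

lemma Inv.sq_smul (h : Inv b) (c : ℝ) {f : ℂ → ℝ} (hf : ContDiff ℝ 1 f) :
    b (fun z => c * f z) (fun z => c * f z) = c ^ 2 * b f f := by
  rw [h.smul c f _ hf (contDiff_const.mul hf), h.smul' c hf hf]
  ring

lemma Inv.sq_add (h : Inv b) {f g : ℂ → ℝ} (hf : ContDiff ℝ 1 f) (hg : ContDiff ℝ 1 g) :
    b (fun z => f z + g z) (fun z => f z + g z) = b f f + 2 * b f g + b g g := by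
  rw [h.add f g _ hf hg (hf.add hg), h.add' hf hg hf, h.add' hf hg hg, h.symm g f]
  ring

lemma rot2_contDiff {f : ℂ → ℝ} (hf : ContDiff ℝ 1 f) :
    ContDiff ℝ 1 (fun z => f (om ^ 2 * z)) := by
  have h := contDiff_rot (contDiff_rot hf)
  have e : (fun z : ℂ => f (om * (om * z))) = fun z => f (om ^ 2 * z) := by
    funext z; rw [rr1]
  rwa [e] at h

lemma Inv.rot2 (h : Inv b) {f g : ℂ → ℝ} (hf : ContDiff ℝ 1 f) (hg : ContDiff ℝ 1 g) :
    b (fun z => f (om ^ 2 * z)) (fun z => g (om ^ 2 * z)) = b f g := by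
  have h1 := h.rot (fun z => f (om * z)) (fun z => g (om * z)) (contDiff_rot hf) (contDiff_rot hg)
  rw [h.rot f g hf hg] at h1
  have e : (fun z : ℂ => f (om * (om * z))) = fun z => f (om ^ 2 * z) := by
    funext z; rw [rr1]
  have e' : (fun z : ℂ => g (om * (om * z))) = fun z => g (om ^ 2 * z) := by
    funext z; rw [rr1]
  rw [e, e'] at h1
  exact h1

lemma Inv.orth_rot (h : Inv b) {f g : ℂ → ℝ} (hf : ContDiff ℝ 1 f) (hg : ContDiff ℝ 1 g)
    (h1 : ∀ z, f (om * z) = f z) (h2 : ∀ z, g z + g (om * z) + g (om ^ 2 * z) = 0) :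
    b f g = 0 := by
  have ef : (fun z => f (om * z)) = f := funext h1
  have ef2 : (fun z => f (om ^ 2 * z)) = f := by
    funext z
    rw [← rr1, h1, h1]
  have e1 : b f (fun z => g (om * z)) = b f g := by
    have := h.rot f g hf hg
    rwa [ef] at this
  have e2 : b f (fun z => g (om ^ 2 * z)) = b f g := by
    have := h.rot2 hf hg
    rwa [ef2] at this
  have e3 : b f (fun z => (g z + g (om * z)) + g (om ^ 2 * z)) = b f g + b f g + b f g := by
    rw [h.add' (hg.add (contDiff_rot hg)) (rot2_contDiff hg) hf,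
      h.add' hg (contDiff_rot hg) hf, e1, e2]
  have e4 : b f (fun z => (0:ℝ) * g z) = 0 * b f g := h.smul' 0 hg hf
  have e5 : (fun z => g z + g (om * z) + g (om ^ 2 * z)) = fun z => (0:ℝ) * g z := by
    funext z; rw [h2]; ring
  rw [e5, e4] at e3
  linarith

lemma Inv.orth_conj (h : Inv b) {f g : ℂ → ℝ} (hf : ContDiff ℝ 1 f) (hg : ContDiff ℝ 1 g)
    (h1 : ∀ z, f ((starRingEnd ℂ) z) = f z) (h2 : ∀ z, g ((starRingEnd ℂ) z) = -g z) :
    b f g = 0 := by
  have ef : (fun z => f ((starRingEnd ℂ) z)) = f := funext h1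
  have eg : (fun z => g ((starRingEnd ℂ) z)) = fun z => (-1:ℝ) * g z := by
    funext z; rw [h2]; ring
  have e1 := h.conj f g hf hg
  rw [ef, eg, h.smul' (-1) hg hf] at e1
  linarith

/-- the rotation average and its complement -/
noncomputable def av (f : ℂ → ℝ) (z : ℂ) : ℝ := 1 / 3 * (f z + f (om * z) + f (om ^ 2 * z))
noncomputable def de (f : ℂ → ℝ) (z : ℂ) : ℝ := f z + (-1) * av f z
/-- even and odd part under the reflection -/
noncomputable def pl (f : ℂ → ℝ) (z : ℂ) : ℝ := 1 / 2 * (f z + f ((starRingEnd ℂ) z))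
noncomputable def mi (f : ℂ → ℝ) (z : ℂ) : ℝ := 1 / 2 * (f z + (-1) * f ((starRingEnd ℂ) z))

lemma av_contDiff {f : ℂ → ℝ} (hf : ContDiff ℝ 1 f) : ContDiff ℝ 1 (av f) :=
  contDiff_const.mul ((hf.add (contDiff_rot hf)).add (rot2_contDiff hf))

lemma de_contDiff {f : ℂ → ℝ} (hf : ContDiff ℝ 1 f) : ContDiff ℝ 1 (de f) :=
  hf.add (contDiff_const.mul (av_contDiff hf))

lemma pl_contDiff {f : ℂ → ℝ} (hf : ContDiff ℝ 1 f) : ContDiff ℝ 1 (pl f) :=
  contDiff_const.mul (hf.add (contDiff_conj hf))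

lemma mi_contDiff {f : ℂ → ℝ} (hf : ContDiff ℝ 1 f) : ContDiff ℝ 1 (mi f) :=
  contDiff_const.mul (hf.add (contDiff_const.mul (contDiff_conj hf)))

lemma av_rot (f : ℂ → ℝ) (z : ℂ) : av f (om * z) = av f z := by
  unfold av
  rw [rr1, rr2]
  ring

lemma de_sum (f : ℂ → ℝ) (z : ℂ) : de f z + de f (om * z) + de f (om ^ 2 * z) = 0 := by
  have h1 : av f (om ^ 2 * z) = av f z := by rw [← rr1, av_rot, av_rot]
  unfold de
  rw [h1, av_rot]
  unfold av
  ring

lemma pl_conj (f : ℂ → ℝ) (z : ℂ) : pl f ((starRingEnd ℂ) z) = pl f z := by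
  unfold pl
  rw [cc3]
  ring

lemma mi_conj (f : ℂ → ℝ) (z : ℂ) : mi f ((starRingEnd ℂ) z) = -mi f z := by
  unfold mi
  rw [cc3]
  ring

lemma pl_rot {f : ℂ → ℝ} (h : ∀ z, f (om * z) = f z) (z : ℂ) : pl f (om * z) = pl f z := by
  have h2 : ∀ w, f (om ^ 2 * w) = f w := fun w => by rw [← rr1, h, h]
  unfold pl
  rw [cc1, h2, h]

lemma mi_rot {f : ℂ → ℝ} (h : ∀ z, f (om * z) = f z) (z : ℂ) : mi f (om * z) = mi f z := by
  have h2 : ∀ w, f (om ^ 2 * w) = f w := fun w => by rw [← rr1, h, h]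
  unfold mi
  rw [cc1, h2, h]

lemma pl_sum {f : ℂ → ℝ} (h : ∀ z, f z + f (om * z) + f (om ^ 2 * z) = 0) (z : ℂ) :
    pl f z + pl f (om * z) + pl f (om ^ 2 * z) = 0 := by
  have h1 := h z
  have h2 := h ((starRingEnd ℂ) z)
  unfold pl
  rw [cc1, cc2]
  linarith

lemma mi_sum {f : ℂ → ℝ} (h : ∀ z, f z + f (om * z) + f (om ^ 2 * z) = 0) (z : ℂ) :
    mi f z + mi f (om * z) + mi f (om ^ 2 * z) = 0 := by
  have h1 := h z
  have h2 := h ((starRingEnd ℂ) z)
  unfold mi
  rw [cc1, cc2]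
  linarith

lemma Inv.split_av (h : Inv b) {f : ℂ → ℝ} (hf : ContDiff ℝ 1 f) :
    b f f = b (av f) (av f) + b (de f) (de f) := by
  have e : f = fun z => av f z + de f z := by
    funext z; unfold de; ring
  have h1 := h.sq_add (av_contDiff hf) (de_contDiff hf)
  rw [← e, h.orth_rot (av_contDiff hf) (de_contDiff hf) (av_rot f) (de_sum f)] at h1
  linarith

lemma Inv.split_pl (h : Inv b) {f : ℂ → ℝ} (hf : ContDiff ℝ 1 f) :
    b f f = b (pl f) (pl f) + b (mi f) (mi f) := by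
  have e : f = fun z => pl f z + mi f z := by
    funext z; unfold pl mi; ring
  have h1 := h.sq_add (pl_contDiff hf) (mi_contDiff hf)
  rw [← e, h.orth_conj (pl_contDiff hf) (mi_contDiff hf) (pl_conj f) (mi_conj f)] at h1
  linarith

/-- the quarter turn in the two-dimensional representation -/
noncomputable def tw (f : ℂ → ℝ) (z : ℂ) : ℝ := 1 / √3 * (f (om * z) + (-1) * f (om ^ 2 * z))

lemma tw_contDiff {f : ℂ → ℝ} (hf : ContDiff ℝ 1 f) : ContDiff ℝ 1 (tw f) :=
  contDiff_const.mul ((contDiff_rot hf).add (contDiff_const.mul (rot2_contDiff hf)))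

lemma tw_sum (f : ℂ → ℝ) (z : ℂ) : tw f z + tw f (om * z) + tw f (om ^ 2 * z) = 0 := by
  unfold tw
  rw [rr1, rr2, rr3, rr4]
  ring

lemma tw_conj {f : ℂ → ℝ} (h : ∀ z, f ((starRingEnd ℂ) z) = f z) (z : ℂ) :
    tw f ((starRingEnd ℂ) z) = -tw f z := by
  have h1 : f (om * (starRingEnd ℂ) z) = f (om ^ 2 * z) := by
    rw [← cc2, h]
  have h2 : f (om ^ 2 * (starRingEnd ℂ) z) = f (om * z) := by
    rw [← cc1, h]
  unfold tw
  rw [h1, h2]
  ring

lemma Inv.twist (h : Inv b) {f : ℂ → ℝ} (hf : ContDiff ℝ 1 f)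
    (hs : ∀ z, f z + f (om * z) + f (om ^ 2 * z) = 0) : b (tw f) (tw f) = b f f := by
  have hR := contDiff_rot hf
  have hR2 := rot2_contDiff hf
  have e1 : b (fun z => f (om * z)) (fun z => f (om * z)) = b f f := h.rot f f hf hf
  have e2 : b (fun z => f (om ^ 2 * z)) (fun z => f (om ^ 2 * z)) = b f f := h.rot2 hf hf
  have e3 : b (fun z => f (om * z)) (fun z => f (om ^ 2 * z)) = b f (fun z => f (om * z)) := by
    have h1 := h.rot f (fun z => f (om * z)) hf hR
    have e : (fun z : ℂ => f (om * (om * z))) = fun z => f (om ^ 2 * z) := by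
      funext z; rw [rr1]
    rw [e] at h1
    exact h1
  have e4 : b f (fun z => f (om ^ 2 * z)) = b f (fun z => f (om * z)) := by
    have h1 := h.rot f (fun z => f (om ^ 2 * z)) hf hR2
    have e : (fun z : ℂ => f (om ^ 2 * (om * z))) = f := by
      funext z; rw [rr2]
    rw [e, h.symm] at h1
    exact h1.symm
  have e5 : b f f + b f (fun z => f (om * z)) + b f (fun z => f (om ^ 2 * z)) = 0 := by
    have h1 : b f (fun z => (f z + f (om * z)) + f (om ^ 2 * z)) =
        b f f + b f (fun z => f (om * z)) + b f (fun z => f (om ^ 2 * z)) := by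
      rw [h.add' (hf.add hR) hR2 hf, h.add' hf hR hf]
    have h2 : b f (fun z => (0:ℝ) * f z) = 0 * b f f := h.smul' 0 hf hf
    have h3 : (fun z => f z + f (om * z) + f (om ^ 2 * z)) = fun z => (0:ℝ) * f z := by
      funext z; rw [hs]; ring
    rw [h3, h2] at h1
    linarith
  have e6 : b (tw f) (tw f) = (1 / √3) ^ 2 *
      b (fun z => f (om * z) + (-1) * f (om ^ 2 * z))
        (fun z => f (om * z) + (-1) * f (om ^ 2 * z)) :=
    h.sq_smul (1 / √3) (hR.add (contDiff_const.mul hR2))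
  rw [e6, h.sq_add hR (contDiff_const.mul hR2), h.sq_smul (-1) hR2, h.smul' (-1) hR2 hR, e1, e2,
    e3, div_pow, s3sq]
  linarith

end Forms

/-! ### the two forms -/

noncomputable def bN (f g : ℂ → ℝ) : ℝ :=
  ∫ z in E, ((grad f z).re * (grad g z).re + (grad f z).im * (grad g z).im)

noncomputable def bB (f g : ℂ → ℝ) : ℝ :=
  side 0 (fun z => f z * g z) + side 1 (fun z => f z * g z) + side 2 (fun z => f z * g z)

lemma bN_cont {f g : ℂ → ℝ} (hf : ContDiff ℝ 1 f) (hg : ContDiff ℝ 1 g) :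
    Continuous (fun z => (grad f z).re * (grad g z).re + (grad f z).im * (grad g z).im) := by
  have h1 := grad_continuous hf
  have h2 := grad_continuous hg
  have h3 := Complex.continuous_re
  have h4 := Complex.continuous_im
  fun_prop

lemma bN_inv : Inv bN where
  add := by
    intro f g k hf hg hk
    unfold bN
    rw [← integral_add (integrableOn_E (bN_cont hf hk)) (integrableOn_E (bN_cont hg hk))]
    congr 1
    funext z
    rw [grad_add hf hg, Complex.add_re, Complex.add_im]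
    ring
  smul := by
    intro c f k hf hk
    unfold bN
    rw [← integral_const_mul]
    congr 1
    funext z
    rw [grad_smul hf, Complex.re_ofReal_mul, Complex.im_ofReal_mul]
    ring
  symm := by
    intro f g
    unfold bN
    congr 1
    funext z
    ring
  rot := by
    intro f g hf hg
    unfold bN
    rw [← integral_E_rot (fun z => (grad f z).re * (grad g z).re + (grad f z).im * (grad g z).im)]
    congr 1
    funext z
    rw [grad_rot hf, grad_rot hg, om_sq]
    simp only [Complex.mul_re, Complex.mul_im]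
    have h := s3sq
    linear_combination (1 / 4 * ((grad f (om * z)).re * (grad g (om * z)).re +
      (grad f (om * z)).im * (grad g (om * z)).im)) * h
  conj := by
    intro f g hf hg
    unfold bN
    rw [← integral_E_conj (fun z => (grad f z).re * (grad g z).re + (grad f z).im * (grad g z).im)]
    congr 1
    funext z
    rw [grad_conj hf, grad_conj hg]
    simp only [Complex.conj_re, Complex.conj_im]
    ring
  nonneg := by
    intro f _
    unfold bN
    apply integral_nonneg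
    intro z
    exact add_nonneg (mul_self_nonneg _) (mul_self_nonneg _)

lemma bB_inv : Inv bB where
  add := by
    intro f g k hf hg hk
    have h : ∀ i, side i (fun z => (f z + g z) * k z) =
        side i (fun z => f z * k z) + side i (fun z => g z * k z) := by
      intro i
      have h1 : side i (fun z => f z * k z + g z * k z) =
          side i (fun z => f z * k z) + side i (fun z => g z * k z) :=
        side_add (hf.continuous.mul hk.continuous) (hg.continuous.mul hk.continuous) i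
      rw [← h1]
      congr 1
      funext z
      ring
    unfold bB
    rw [h, h, h]
    ring
  smul := by
    intro c f k _ _
    have h : ∀ i, side i (fun z => (c * f z) * k z) = c * side i (fun z => f z * k z) := by
      intro i
      rw [← side_smul]
      congr 1
      funext z
      ring
    unfold bB
    rw [h, h, h]
    ring
  symm := by
    intro f g
    unfold bB
    simp only [mul_comm]
  rot := by
    intro f g _ _
    unfold bB
    rw [side_rot 0 (fun z => f z * g z), side_rot 1 (fun z => f z * g z),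
      side_rot 2 (fun z => f z * g z), side_period 0 (fun z => f z * g z)]
    ring
  conj := by
    intro f g _ _
    unfold bB
    rw [side_conj0 (fun z => f z * g z), side_conj1 (fun z => f z * g z),
      side_conj2 (fun z => f z * g z)]
    ring
  nonneg := by
    intro f _
    have h : ∀ i, 0 ≤ side i (fun z => f z * f z) := fun i =>
      side_nonneg (fun z => mul_self_nonneg (f z)) i
    unfold bB
    have h0 := h 0
    have h1 := h 1
    have h2 := h 2
    linarith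

lemma lam0 (i : ℕ) : lam 0 i = 1 := by
  unfold lam
  simp

lemma DE0 (f : ℂ → ℝ) : DE 0 f = side 0 f + side 1 f + side 2 f := by
  unfold DE
  rw [lam0, lam0, lam0]
  ring

lemma DE0_sq (f : ℂ → ℝ) : DE 0 (fun z => f z ^ 2) = bB f f := by
  rw [DE0]
  unfold bB
  simp only [pow_two]

lemma norm_sq_eq (w : ℂ) : ‖w‖ ^ 2 = w.re * w.re + w.im * w.im := by
  rw [Complex.sq_norm, Complex.normSq_apply]

lemma bN_eq (f : ℂ → ℝ) : ∫ z in E, ‖grad f z‖ ^ 2 = bN f f := by
  unfold bN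
  congr 1
  funext z
  rw [norm_sq_eq]

lemma NE0 (f : ℂ → ℝ) : NE 0 f = bN f f := by
  rw [← bN_eq]
  unfold NE
  simp

/-- `B` of a rotation invariant function -/
lemma bB_rot {f : ℂ → ℝ} (h : ∀ z, f (om * z) = f z) :
    bB f f = 3 * side 0 (fun z => f z ^ 2) := by
  have h1 : side 1 (fun z => f z ^ 2) = side 0 (fun z => f z ^ 2) := by
    rw [← side_rot 0 (fun z => f z ^ 2)]
    simp only [h]
  have h2 : side 2 (fun z => f z ^ 2) = side 1 (fun z => f z ^ 2) := by
    rw [← side_rot 1 (fun z => f z ^ 2)]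
    simp only [h]
  rw [← DE0_sq, DE0, h2, h1]
  ring

lemma tauv_eq (v : ℂ → ℝ) : tauv v = bN v v := by
  unfold tauv
  exact bN_eq v

lemma pq_eq {v : ℂ → ℝ} (hv : Good v) : pv v + 2 * qv v = bB v v := by
  rw [← DE0_sq, DE0, side2_sq hv]
  unfold pv qv
  ring

/-- the final normalisation -/
lemma finish {p : ℂ → ℝ} (hp : Good p) {l : ℝ} (hB : 0 < bB p p) (hN : bN p p ≤ l * bB p p) :
    ∃ v : ℂ → ℝ, Good v ∧ pv v + 2 * qv v = 1 ∧ tauv v ≤ l := by
  obtain ⟨h1, h2, h3⟩ := hp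
  have hs : 0 < √(bB p p) := Real.sqrt_pos.mpr hB
  have hsq : √(bB p p) ^ 2 = bB p p := Real.sq_sqrt hB.le
  have hg : Good (fun z => 1 / √(bB p p) * p z) := by
    refine ⟨contDiff_const.mul h1, fun z => ?_, fun z => ?_⟩
    · change 1 / √(bB p p) * p ((starRingEnd ℂ) z) = -(1 / √(bB p p) * p z)
      rw [h2]; ring
    · have := h3 z
      linear_combination (1 / √(bB p p)) * this
  refine ⟨_, hg, ?_, ?_⟩
  · rw [pq_eq hg, bB_inv.sq_smul _ h1, div_pow, hsq]
    field_simp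
  · rw [tauv_eq, bN_inv.sq_smul _ h1, div_pow, hsq]
    rw [one_pow, div_mul_eq_mul_div, one_mul, div_le_iff₀ hB]
    exact hN

end RedAux

open RedAux

/-- G1. -/
theorem reduce {u : ℂ → ℝ} (hu : ContDiff ℝ 1 u) (h0 : DE 0 u = 0)
    (hpos : 0 < DE 0 (fun z => u z ^ 2)) {l : ℝ} (hl : l < 1 / 2)
    (hq : NE 0 u ≤ l * DE 0 (fun z => u z ^ 2)) :
    ∃ v : ℂ → ℝ, Good v ∧ pv v + 2 * qv v = 1 ∧ tauv v ≤ l := by
  rw [DE0_sq] at hpos
  rw [NE0, DE0_sq] at hq
  have ha := av_contDiff hu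
  have hd := de_contDiff hu
  have N1 := bN_inv.split_av hu
  have N2 := bN_inv.split_pl ha
  have N3 := bN_inv.split_pl hd
  have B1 := bB_inv.split_av hu
  have B2 := bB_inv.split_pl ha
  have B3 := bB_inv.split_pl hd
  -- the mean of the average on side 0
  have m0 : side 0 (av u) = 0 := by
    have e : side 0 (av u) = 1 / 3 * (side 0 u + side 1 u + side 2 u) := by
      have e1 : side 0 (fun z => u (om * z)) = side 1 u := side_rot 0 u
      have e2 : side 0 (fun z => u (om ^ 2 * z)) = side 2 u := by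
        have h := side_rot 0 (fun z => u (om * z))
        rw [side_rot 1 u] at h
        rw [← h]
        congr 1
        funext z
        rw [rr1]
      have hc := hu.continuous
      have hc1 := (contDiff_rot hu).continuous
      have hc2 := (rot2_contDiff hu).continuous
      have e3 : side 0 (fun z => (u z + u (om * z)) + u (om ^ 2 * z)) =
          side 0 (fun z => u z + u (om * z)) + side 0 (fun z => u (om ^ 2 * z)) :=
        side_add (hc.add hc1) hc2 0
      have e4 : side 0 (fun z => u z + u (om * z)) =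
          side 0 (fun z => u z) + side 0 (fun z => u (om * z)) := side_add hc hc1 0
      unfold av
      rw [side_smul, e3, e4, e1, e2]
    rw [e, ← DE0, h0]
    ring
  have m1 : side 0 (pl (av u)) = 0 := by
    have hc := ha.continuous
    have hc1 := (contDiff_conj ha).continuous
    have e3 : side 0 (fun z => av u z + av u ((starRingEnd ℂ) z)) =
        side 0 (fun z => av u z) + side 0 (fun z => av u ((starRingEnd ℂ) z)) :=
      side_add hc hc1 0
    have e4 : side 0 (fun z => av u z) = 0 := m0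
    unfold pl
    rw [side_smul, e3, side_conj0 (fun z => av u z), e4]
    ring
  have L1 : 1 / 2 * bB (pl (av u)) (pl (av u)) ≤ bN (pl (av u)) (pl (av u)) := by
    rw [bB_rot (pl_rot (av_rot u)), ← bN_eq]
    exact triv_bound (pl_contDiff ha) (pl_rot (av_rot u)) (pl_conj _) m1
  have L2 : 1 / 2 * bB (mi (av u)) (mi (av u)) ≤ bN (mi (av u)) (mi (av u)) := by
    rw [bB_rot (mi_rot (av_rot u)), ← bN_eq]
    exact sign_bound (mi_contDiff ha) (mi_rot (av_rot u)) (mi_conj _)
  have P1 := bB_inv.nonneg _ (pl_contDiff ha)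
  have P2 := bB_inv.nonneg _ (mi_contDiff ha)
  have P3 := bB_inv.nonneg _ (pl_contDiff hd)
  have P4 := bB_inv.nonneg _ (mi_contDiff hd)
  have Q3 := bN_inv.nonneg _ (pl_contDiff hd)
  have Q4 := bN_inv.nonneg _ (mi_contDiff hd)
  by_cases c1 : 0 < bB (pl (de u)) (pl (de u)) ∧
      bN (pl (de u)) (pl (de u)) ≤ l * bB (pl (de u)) (pl (de u))
  · -- the even part: twist it
    obtain ⟨c11, c12⟩ := c1
    have hs := pl_sum (de_sum u)
    have hg : Good (tw (pl (de u))) :=
      ⟨tw_contDiff (pl_contDiff hd), tw_conj (pl_conj _), tw_sum _⟩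
    apply finish hg
    · rw [bB_inv.twist (pl_contDiff hd) hs]
      exact c11
    · rw [bB_inv.twist (pl_contDiff hd) hs, bN_inv.twist (pl_contDiff hd) hs]
      exact c12
  · by_cases c2 : 0 < bB (mi (de u)) (mi (de u)) ∧
        bN (mi (de u)) (mi (de u)) ≤ l * bB (mi (de u)) (mi (de u))
    · obtain ⟨c21, c22⟩ := c2
      have hg : Good (mi (de u)) := ⟨mi_contDiff hd, mi_conj _, mi_sum (de_sum u)⟩
      exact finish hg c21 c22
    · exfalso
      have K1 : l * bB (pl (de u)) (pl (de u)) ≤ bN (pl (de u)) (pl (de u)) ∧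
          (0 < bB (pl (de u)) (pl (de u)) →
            l * bB (pl (de u)) (pl (de u)) < bN (pl (de u)) (pl (de u))) := by
        rcases P3.eq_or_lt with h | h
        · rw [← h]
          exact ⟨by linarith, fun h' => absurd h' (lt_irrefl _)⟩
        · have : l * bB (pl (de u)) (pl (de u)) < bN (pl (de u)) (pl (de u)) := by
            by_contra h'
            exact c1 ⟨h, not_lt.mp h'⟩
          exact ⟨this.le, fun _ => this⟩
      have K2 : l * bB (mi (de u)) (mi (de u)) ≤ bN (mi (de u)) (mi (de u)) ∧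
          (0 < bB (mi (de u)) (mi (de u)) →
            l * bB (mi (de u)) (mi (de u)) < bN (mi (de u)) (mi (de u))) := by
        rcases P4.eq_or_lt with h | h
        · rw [← h]
          exact ⟨by linarith, fun h' => absurd h' (lt_irrefl _)⟩
        · have : l * bB (mi (de u)) (mi (de u)) < bN (mi (de u)) (mi (de u)) := by
            by_contra h'
            exact c2 ⟨h, not_lt.mp h'⟩
          exact ⟨this.le, fun _ => this⟩
      have M1 : l * bB (pl (av u)) (pl (av u)) ≤ 1 / 2 * bB (pl (av u)) (pl (av u)) :=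
        mul_le_mul_of_nonneg_right hl.le P1
      have M2 : l * bB (mi (av u)) (mi (av u)) ≤ 1 / 2 * bB (mi (av u)) (mi (av u)) :=
        mul_le_mul_of_nonneg_right hl.le P2
      have tot : l * bB u u = l * bB (pl (av u)) (pl (av u)) + l * bB (mi (av u)) (mi (av u)) +
          (l * bB (pl (de u)) (pl (de u)) + l * bB (mi (de u)) (mi (de u))) := by
        rw [B1, B2, B3]
        ring
      rcases P3.eq_or_lt with h3 | h3
      · rcases P4.eq_or_lt with h4 | h4
        · -- all mass in the average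
          have h5 : 0 < bB (pl (av u)) (pl (av u)) + bB (mi (av u)) (mi (av u)) := by
            linarith
          have h6 : l * (bB (pl (av u)) (pl (av u)) + bB (mi (av u)) (mi (av u))) <
              1 / 2 * (bB (pl (av u)) (pl (av u)) + bB (mi (av u)) (mi (av u))) :=
            mul_lt_mul_of_pos_right hl h5
          rw [← h3, ← h4] at tot
          linarith
        · have := K2.2 h4
          have := K1.1
          linarith
      · have := K1.2 h3
        have := K2.1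
        linarith

namespace RedAux

/-! ### the test function -/

noncomputable def tf (z : ℂ) : ℝ := z.im * (1 - 2 / 3 * z.re)

lemma pw (n : ℕ) (y : ℝ) : HasDerivAt (fun y : ℝ => y ^ (n + 1)) ((n + 1) * y ^ n) y := by
  have h := hasDerivAt_pow (n + 1) y
  simpa using h

lemma tf_contDiff : ContDiff ℝ 1 tf := by
  have h1 : ContDiff ℝ 1 (fun z : ℂ => z.re) := Complex.reCLM.contDiff
  have h2 : ContDiff ℝ 1 (fun z : ℂ => z.im) := Complex.imCLM.contDiff
  exact h2.mul (contDiff_const.sub (contDiff_const.mul h1))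

lemma tf_grad (z : ℂ) : grad tf z = ⟨-(2 / 3) * z.im, 1 - 2 / 3 * z.re⟩ := by
  have h1 : HasFDerivAt (fun z : ℂ => z.re) Complex.reCLM z := Complex.reCLM.hasFDerivAt
  have h2 : HasFDerivAt (fun z : ℂ => z.im) Complex.imCLM z := Complex.imCLM.hasFDerivAt
  have h3 : HasFDerivAt tf (z.im • (-((2 / 3 : ℝ) • Complex.reCLM)) +
      (1 - 2 / 3 * z.re) • Complex.imCLM) z := by
    have h4 : HasFDerivAt (fun z : ℂ => 1 - 2 / 3 * z.re) (-((2 / 3 : ℝ) • Complex.reCLM)) z :=
      (h1.const_mul (2 / 3 : ℝ)).const_sub 1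
    exact h2.mul h4
  unfold grad
  rw [h3.fderiv]
  apply Complex.ext
  · simp
    ring
  · simp

lemma tf_conj (z : ℂ) : tf ((starRingEnd ℂ) z) = -tf z := by
  unfold tf
  rw [Complex.conj_re, Complex.conj_im]
  ring

lemma tf_DE : DE 0 tf = 0 := by
  have e : (fun z => tf ((starRingEnd ℂ) z)) = fun z => (-1:ℝ) * tf z := by
    funext z; rw [tf_conj]; ring
  have h0 := side_conj0 tf
  have h1 := side_conj1 tf
  rw [e, side_smul] at h0 h1
  rw [DE0]
  linarith

lemma tf_bN : bN tf tf = 13 / 3 * √3 := by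
  have e : bN tf tf = ∫ z in E, (4 / 9 * z.im ^ 2 + (1 - 2 / 3 * z.re) ^ 2) := by
    unfold bN
    congr 1
    funext z
    rw [tf_grad]
    ring
  have hF : Continuous (fun z : ℂ => 4 / 9 * z.im ^ 2 + (1 - 2 / 3 * z.re) ^ 2) := by
    have h3 := Complex.continuous_re
    have h4 := Complex.continuous_im
    fun_prop
  rw [e, integral_E_yx hF]
  have inner : ∀ y : ℝ, (∫ x in (-1:ℝ)..(2 - √3 * y),
      ((4 / 9 * (⟨x, y⟩ : ℂ).im ^ 2 + (1 - 2 / 3 * (⟨x, y⟩ : ℂ).re) ^ 2) +
        (4 / 9 * (⟨x, -y⟩ : ℂ).im ^ 2 + (1 - 2 / 3 * (⟨x, -y⟩ : ℂ).re) ^ 2))) =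
      8 / 9 * (3 * y ^ 2 - √3 * y ^ 3) + 125 / 27 -
        1 / 27 * (24 * √3 * y ^ 3 - 36 * y ^ 2 + 6 * √3 * y - 1) := by
    intro y
    have hd : ∀ x ∈ Set.uIcc (-1:ℝ) (2 - √3 * y), HasDerivAt
        (fun x : ℝ => 8 / 9 * y ^ 2 * x - (1 - 2 / 3 * x) ^ 3)
        ((4 / 9 * y ^ 2 + (1 - 2 / 3 * x) ^ 2) + (4 / 9 * (-y) ^ 2 + (1 - 2 / 3 * x) ^ 2)) x := by
      intro x _
      have h1 : HasDerivAt (fun x : ℝ => 8 / 9 * y ^ 2 * x) (8 / 9 * y ^ 2) x := by
        simpa using (hasDerivAt_id x).const_mul (8 / 9 * y ^ 2)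
      have h2 : HasDerivAt (fun x : ℝ => 1 - 2 / 3 * x) (-(2 / 3)) x := by
        simpa using ((hasDerivAt_id x).const_mul (2 / 3)).const_sub 1
      have h3 := h1.sub (h2.pow 3)
      refine h3.congr_deriv ?_
      norm_num
      ring
    have hi : IntervalIntegrable (fun x : ℝ =>
        ((4 / 9 * y ^ 2 + (1 - 2 / 3 * x) ^ 2) + (4 / 9 * (-y) ^ 2 + (1 - 2 / 3 * x) ^ 2)))
        volume (-1) (2 - √3 * y) := by
      apply Continuous.intervalIntegrable
      fun_prop
    have h := intervalIntegral.integral_eq_sub_of_hasDerivAt hd hi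
    have h3 := s3sq
    change (∫ x in (-1:ℝ)..(2 - √3 * y),
      ((4 / 9 * y ^ 2 + (1 - 2 / 3 * x) ^ 2) + (4 / 9 * (-y) ^ 2 + (1 - 2 / 3 * x) ^ 2))) = _
    rw [h]
    linear_combination (-(8 / 27) * √3 * y ^ 3 + 12 / 27 * y ^ 2) * h3
  simp only [inner]
  have hd : ∀ y ∈ Set.uIcc (0:ℝ) √3, HasDerivAt
      (fun y : ℝ => 8 / 9 * (y ^ 3 - √3 / 4 * y ^ 4) + 125 / 27 * y -
        1 / 27 * (6 * √3 * y ^ 4 - 12 * y ^ 3 + 3 * √3 * y ^ 2 - y))
      (8 / 9 * (3 * y ^ 2 - √3 * y ^ 3) + 125 / 27 -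
        1 / 27 * (24 * √3 * y ^ 3 - 36 * y ^ 2 + 6 * √3 * y - 1)) y := by
    intro y _
    have p1 : HasDerivAt (fun y : ℝ => y) 1 y := hasDerivAt_id y
    have p2 : HasDerivAt (fun y : ℝ => y ^ 2) (2 * y) y := by
      refine (pw 1 y).congr_deriv ?_
      norm_num
    have p3 : HasDerivAt (fun y : ℝ => y ^ 3) (3 * y ^ 2) y := by
      refine (pw 2 y).congr_deriv ?_
      norm_num
    have p4 : HasDerivAt (fun y : ℝ => y ^ 4) (4 * y ^ 3) y := by
      refine (pw 3 y).congr_deriv ?_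
      norm_num
    have q1 := (p3.sub (p4.const_mul (√3 / 4))).const_mul (8 / 9 : ℝ)
    have q2 := p1.const_mul (125 / 27 : ℝ)
    have q3 := ((((p4.const_mul (6 * √3)).sub (p3.const_mul 12)).add
      (p2.const_mul (3 * √3))).sub p1).const_mul (1 / 27 : ℝ)
    refine ((q1.add q2).sub q3).congr_deriv ?_
    ring
  have hi : IntervalIntegrable (fun y : ℝ => (8 / 9 * (3 * y ^ 2 - √3 * y ^ 3) + 125 / 27 -
        1 / 27 * (24 * √3 * y ^ 3 - 36 * y ^ 2 + 6 * √3 * y - 1))) volume 0 √3 := by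
    apply Continuous.intervalIntegrable
    fun_prop
  rw [intervalIntegral.integral_eq_sub_of_hasDerivAt hd hi]
  have h3 := s3sq
  have h4 : √3 ^ 3 = 3 * √3 := by rw [pow_succ, h3]
  have h5 : √3 ^ 4 = 9 := by
    rw [show √3 ^ 4 = (√3 ^ 2) ^ 2 by ring, h3]; norm_num
  rw [h3, h4, h5]
  ring

lemma tf_sq_cont : Continuous (fun z => tf z ^ 2) := tf_contDiff.continuous.pow 2

lemma tf_side0 : side 0 (fun z => tf z ^ 2) = 50 / 9 * √3 := by
  rw [side0_eq tf_sq_cont]
  have e : ∀ y : ℝ, tf ⟨-1, y⟩ ^ 2 + tf ⟨-1, -y⟩ ^ 2 = 50 / 9 * y ^ 2 := by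
    intro y
    unfold tf
    simp only
    ring
  simp only [e]
  rw [intervalIntegral.integral_const_mul, integral_pow]
  have h3 := s3sq
  have h4 : √3 ^ 3 = 3 * √3 := by rw [pow_succ, h3]
  norm_num
  rw [h4]
  ring

lemma tf_side2 : side 2 (fun z => tf z ^ 2) = 136 / 45 * √3 := by
  rw [side2_eq tf_sq_cont]
  have h3 := s3sq
  have e : ∀ y : ℝ, 2 * tf ⟨2 - √3 * y, y⟩ ^ 2 =
      2 / 9 * (12 * y ^ 4 - 4 * √3 * y ^ 3 + y ^ 2) := by
    intro y
    unfold tf
    simp only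
    linear_combination (8 / 9 * y ^ 4) * h3
  simp only [e]
  have hd : ∀ y ∈ Set.uIcc (0:ℝ) √3, HasDerivAt
      (fun y : ℝ => 2 / 9 * (12 / 5 * y ^ 5 - √3 * y ^ 4 + 1 / 3 * y ^ 3))
      (2 / 9 * (12 * y ^ 4 - 4 * √3 * y ^ 3 + y ^ 2)) y := by
    intro y _
    have p1 : HasDerivAt (fun y : ℝ => y) 1 y := hasDerivAt_id y
    have p3 : HasDerivAt (fun y : ℝ => y ^ 3) (3 * y ^ 2) y := by
      refine (pw 2 y).congr_deriv ?_
      norm_num
    have p4 : HasDerivAt (fun y : ℝ => y ^ 4) (4 * y ^ 3) y := by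
      refine (pw 3 y).congr_deriv ?_
      norm_num
    have p5 : HasDerivAt (fun y : ℝ => y ^ 5) (5 * y ^ 4) y := by
      refine (pw 4 y).congr_deriv ?_
      norm_num
    refine ((((p5.const_mul (12 / 5)).sub (p4.const_mul √3)).add
      (p3.const_mul (1 / 3))).const_mul (2 / 9 : ℝ)).congr_deriv ?_
    ring
  have hi : IntervalIntegrable (fun y : ℝ => 2 / 9 * (12 * y ^ 4 - 4 * √3 * y ^ 3 + y ^ 2))
      volume 0 √3 := by
    apply Continuous.intervalIntegrable
    fun_prop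
  rw [intervalIntegral.integral_eq_sub_of_hasDerivAt hd hi]
  have h4 : √3 ^ 3 = 3 * √3 := by rw [pow_succ, h3]
  have h5 : √3 ^ 4 = 9 := by
    rw [show √3 ^ 4 = (√3 ^ 2) ^ 2 by ring, h3]; norm_num
  have h6 : √3 ^ 5 = 9 * √3 := by rw [pow_succ, h5]
  rw [h4, h5, h6]
  ring

lemma tf_bB : bB tf tf = 58 / 5 * √3 := by
  have e : (fun z => tf ((starRingEnd ℂ) z) ^ 2) = fun z => tf z ^ 2 := by
    funext z; rw [tf_conj]; ring
  have h1 := side_conj1 (fun z => tf z ^ 2)
  rw [e] at h1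
  rw [← DE0_sq, DE0, h1, tf_side2, tf_side0]
  ring

lemma Sb_set_bdd : BddBelow {s | ∃ u : ℂ → ℝ, ContDiff ℝ 1 u ∧ DE 0 u = 0 ∧
    0 < DE 0 (fun z => u z ^ 2) ∧ s = NE 0 u / DE 0 (fun z => u z ^ 2)} := by
  refine ⟨0, ?_⟩
  rintro s ⟨u, hu, _, hp, rfl⟩
  rw [NE0]
  exact div_nonneg (bN_inv.nonneg u hu) hp.le

lemma Sb_set_mem : (65 / 174 : ℝ) ∈ {s | ∃ u : ℂ → ℝ, ContDiff ℝ 1 u ∧ DE 0 u = 0 ∧
    0 < DE 0 (fun z => u z ^ 2) ∧ s = NE 0 u / DE 0 (fun z => u z ^ 2)} := by
  have hs := s3pos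
  refine ⟨tf, tf_contDiff, tf_DE, ?_, ?_⟩
  · rw [DE0_sq, tf_bB]
    positivity
  · rw [DE0_sq, tf_bB, NE0, tf_bN]
    field_simp
    norm_num

end RedAux

/-- explicit test function `y (1 - 2x/3)` -/
theorem Sb_zero_le : Sb 0 ≤ 65 / 174 := csInf_le Sb_set_bdd Sb_set_mem

theorem le_Sb_zero : 1 / 3 ≤ Sb 0 := by
  refine le_csInf ⟨_, Sb_set_mem⟩ ?_
  rintro s ⟨u, hu, h0, hp, hs⟩
  rcases le_or_gt (1 / 2) s with h | h
  · linarith
  · have hq : NE 0 u ≤ s * DE 0 (fun z => u z ^ 2) := by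
      rw [hs, div_mul_cancel₀ _ hp.ne']
    obtain ⟨v, hv, hv1, hv2⟩ := reduce hu h0 hp h hq
    have hb := barta_third hv.1 hv.2.1
    have e : side 0 (fun z => v z ^ 2) + 2 * side 1 (fun z => v z ^ 2) = 1 := hv1
    rw [e] at hb
    have e2 : ∫ z in E, ‖grad v z‖ ^ 2 ≤ s := hv2
    linarith

/-- near-minimisers -/
theorem near_min {ε : ℝ} (hε : 0 < ε) (hε2 : ε ≤ 1 / 10000) :
    ∃ v : ℂ → ℝ, Good v ∧ pv v + 2 * qv v = 1 ∧ tauv v ≤ Sb 0 + ε := by
  obtain ⟨s, ⟨u, hu, h0, hp, hs⟩, hlt⟩ :=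
    exists_lt_of_csInf_lt ⟨_, Sb_set_mem⟩ (show Sb 0 < Sb 0 + ε by linarith)
  have hle := Sb_zero_le
  have h : s < 1 / 2 := by linarith
  have hq : NE 0 u ≤ s * DE 0 (fun z => u z ^ 2) := by
    rw [hs, div_mul_cancel₀ _ hp.ne']
  obtain ⟨v, hv, hv1, hv2⟩ := reduce hu h0 hp h hq
  exact ⟨v, hv, hv1, hv2.trans hlt.le⟩

end Pool.Agent.H32.Stek
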