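import Mathlib
import Pool.Agent.H32.Stek.Red
import Pool.Agent.H32.Stek.Num

set_option autoImplicit false

open Complex MeasureTheory

namespace Pool.Agent.H32.Stek

/-- the mean correction of the test function -/
theorem DE_tst {v : ℂ → ℝ} (hv : Good v) (β c : ℂ) :
    DE β (tst v c) = 2 * Mv v / √3 * YY β c := by
  unfold DE YY
  rw [side_tst hv c (by norm_num : 0 < 3), side_tst hv c (by norm_num : 1 < 3),
    side_tst hv c (by norm_num : 2 < 3)]
  ring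

theorem DE_sq_tst {v : ℂ → ℝ} (hv : Good v) (β c : ℂ) :
    DE β (fun z => tst v c z ^ 2) = ‖c‖ ^ 2 * ((pv v + 2 * qv v) / 3) * Lam β +
      2 / 3 * (pv v - qv v) * XX β c := by
  unfold DE XX Lam
  rw [side_sq_tst hv c (by norm_num : 0 < 3), side_sq_tst hv c (by norm_num : 1 < 3),
    side_sq_tst hv c (by norm_num : 2 < 3)]
  ring

theorem conj_mul_c {β c : ℂ} (h0 : β ≠ 0) (hc : c ^ 2 = β / ‖β‖) :
    ((starRingEnd ℂ) β * c ^ 2).re = ‖β‖ := by
  have hn : (‖β‖ : ℂ) ≠ 0 := by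
    simpa using h0
  have h : (starRingEnd ℂ) β * c ^ 2 = (‖β‖ : ℂ) := by
    rw [hc, ← mul_div_assoc, mul_comm ((starRingEnd ℂ) β) β, Complex.mul_conj,
      Complex.normSq_eq_norm_sq]
    field_simp
    push_cast
    ring
  rw [h, Complex.ofReal_re]

/-- lower bound for `K` -/
theorem K_bound {v : ℂ → ℝ} (hv : Good v) (hp : pv v + 2 * qv v = 1) (hp0 : 0 ≤ pv v)
    (hq0 : 0 ≤ qv v) :
    4 / 3 * (0.6282 - 0.2243 * pv v - 1.25 * tauv v) ≤ Kv v := by
  have h := barta_weighted hv.1 hv.2.1 (μ := 2) (θ := 0.7) (by norm_num) (by norm_num)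
    (by linarith [Real.pi_gt_three])
  have hc := cot_num
  have he := eta_num
  have hgc := grad_continuous hv.1
  have hre : Continuous (fun z => (grad v z).re ^ 2) := (Complex.continuous_re.comp hgc).pow 2
  have him : Continuous (fun z => (grad v z).im ^ 2) := (Complex.continuous_im.comp hgc).pow 2
  have e : ∫ z in E, ((2:ℝ)⁻¹ * (grad v z).re ^ 2 + 2 * (grad v z).im ^ 2) =
      5 / 4 * tauv v + 3 / 4 * Kv v := by
    unfold tauv Kv
    rw [← integral_const_mul, ← integral_const_mul, ← integral_add]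
    · congr 1
      funext z
      rw [← Complex.normSq_eq_norm_sq, Complex.normSq_apply]
      ring
    · apply integrableOn_E
      exact (hgc.norm.pow 2).const_mul (5 / 4) |> fun h => by simpa using h
    · apply integrableOn_E
      exact (him.sub hre).const_mul (3 / 4) |> fun h => by simpa using h
  rw [e] at h
  have h1 : 0.404 * pv v ≤ 0.7 / √3 * side 0 (fun z => v z ^ 2) :=
    mul_le_mul_of_nonneg_right he hp0
  have h2 : 0.404 * 3.11 * qv v ≤ 0.7 / √3 * (√3 * 2 * (Real.cos 0.7 / Real.sin 0.7) - 1) *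
      side 1 (fun z => v z ^ 2) := by
    apply mul_le_mul_of_nonneg_right _ hq0
    exact mul_le_mul he hc (by norm_num) (by have := s3pos; positivity)
  nlinarith

theorem D_lower {v : ℂ → ℝ} (hv : Good v) (hp : pv v + 2 * qv v = 1) (β : ℂ) {c : ℂ}
    (hc : ‖c‖ = 1) :
    Lam β / 3 * (1 + (3 * pv v - 1) * (XX β c / Lam β) -
      (2 - 3 * pv v) * (YY β c / Lam β) ^ 2) ≤
    DE β (fun z => tst v c z ^ 2) - (DE β (tst v c)) ^ 2 / (2 * √3 * Lam β) := by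
  have hL := Lam_pos β
  have hM := M_bound hv
  rw [DE_tst hv, DE_sq_tst hv, hc, hp]
  set p := pv v
  set q := qv v
  set m := 2 * Mv v / √3
  set X := XX β c
  set Y := YY β c
  set Λ := Lam β
  have hq : q = (1 - p) / 2 := by linarith
  have hs := s3pos
  have h1 : (m * Y) ^ 2 / (2 * √3 * Λ) ≤ ((4 * q - p) / 3) * Y ^ 2 / Λ := by
    rw [div_le_div_iff₀ (by positivity) hL]
    have : (m * Y) ^ 2 ≤ 2 * √3 * ((4 * q - p) / 3) * Y ^ 2 := by
      rw [mul_pow]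
      exact mul_le_mul_of_nonneg_right hM (sq_nonneg _)
    nlinarith
  have h2 : Λ / 3 * (1 + (3 * p - 1) * (X / Λ) - (2 - 3 * p) * (Y / Λ) ^ 2) =
      (1:ℝ) ^ 2 * (1 / 3) * Λ + 2 / 3 * (p - q) * X - ((4 * q - p) / 3) * Y ^ 2 / Λ := by
    rw [hq]
    field_simp
    ring
  rw [h2]
  linarith

theorem near_eps {β : ℂ} (h0 : β ≠ 0) (hβ : ‖β‖ ≤ 0.21) {ε : ℝ} (hε : 0 < ε)
    (hε2 : ε ≤ 1 / 10000) :
    Sb β * Lam β ≤ 3 * ((1 - ‖β‖ / 100) * (Sb 0 + ε)) := by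
  obtain ⟨v, hv, hp, ht⟩ := near_min hε hε2
  obtain ⟨c, hc1, hc⟩ := exists_c h0
  have hr0 : 0 < ‖β‖ := norm_pos_iff.mpr h0
  have hb1 : ‖β‖ < 1 := by linarith
  have hL := Lam_pos β
  have hp0 : 0 ≤ pv v := side_nonneg (fun z => sq_nonneg _) 0
  have hq0 : 0 ≤ qv v := side_nonneg (fun z => sq_nonneg _) 1
  have hp2 : pv v ≤ 2 / 3 := by linarith [four_q_ge hv]
  have hK := K_bound hv hp hp0 hq0
  have hS1 := Sb_zero_le
  have hS0 := le_Sb_zero
  have hx0 : ‖β‖ * (1 - ‖β‖) / 2 ≤ XX β c / Lam β := by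
    rw [le_div_iff₀ hL]; exact XX_ge h0 hb1 hc
  have hx1 : XX β c / Lam β ≤ ‖β‖ / (2 - ‖β‖) := by
    rw [div_le_iff₀ hL]; exact XX_le h0 hb1 hc
  have hy : (YY β c / Lam β) ^ 2 ≤ (‖β‖ / (2 - ‖β‖)) ^ 2 := by
    have h := YY_abs_le hb1 hc1
    apply sq_le_sq'
    · rw [neg_le, ← neg_div, div_le_iff₀ hL]
      exact (neg_le_abs _).trans h
    · rw [div_le_iff₀ hL]
      exact (le_abs_self _).trans h
  have hN := near_ineq hr0 hβ (L := Sb 0 + ε) (by linarith) (by norm_num at *; linarith) ht hp0 hp2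
    hK hx0 hx1 hy
  have hD0 := near_pos hr0 hβ hp0 hp2 hx0 hx1 hy
  have hNE := NE_tst hv c β
  rw [hc1, mul_assoc 2, conj_mul_c h0 hc] at hNE
  set Dh := 1 + (3 * pv v - 1) * (XX β c / Lam β) - (2 - 3 * pv v) * (YY β c / Lam β) ^ 2 with hDh
  have hD := D_lower hv hp β hc1
  rw [← hDh] at hD
  have hDpos : 0 < Lam β / 3 * Dh := by positivity
  have hSb := Sb_le hb1 (tst_contDiff hv c) (lt_of_lt_of_le hDpos hD)
  have hNEn : 0 ≤ NE β (tst v c) := NE_nonneg hb1 _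
  have h3 : Sb β ≤ NE β (tst v c) / (Lam β / 3 * Dh) :=
    hSb.trans (div_le_div_of_nonneg_left hNEn hDpos hD)
  have h4 : NE β (tst v c) ≤ (1 - ‖β‖ / 100) * ((Sb 0 + ε) * Dh) := by
    rw [hNE]
    refine le_trans (le_of_eq ?_) hN
    ring
  have h5 : NE β (tst v c) / (Lam β / 3 * Dh) ≤
      (1 - ‖β‖ / 100) * ((Sb 0 + ε) * Dh) / (Lam β / 3 * Dh) :=
    div_le_div_of_nonneg_right h4 hDpos.le
  have h6 : (1 - ‖β‖ / 100) * ((Sb 0 + ε) * Dh) / (Lam β / 3 * Dh) * Lam β =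
      3 * ((1 - ‖β‖ / 100) * (Sb 0 + ε)) := by
    field_simp
  calc Sb β * Lam β ≤ (1 - ‖β‖ / 100) * ((Sb 0 + ε) * Dh) / (Lam β / 3 * Dh) * Lam β :=
        mul_le_mul_of_nonneg_right (h3.trans h5) hL.le
    _ = _ := h6

/-- near region -/
theorem near {β : ℂ} (h0 : β ≠ 0) (hβ : ‖β‖ ≤ 0.21) : Sb β * Lam β < 3 * Sb 0 := by
  have hr0 : 0 < ‖β‖ := norm_pos_iff.mpr h0
  have hS0 := le_Sb_zero
  have h : Sb β * Lam β ≤ 3 * ((1 - ‖β‖ / 100) * Sb 0) := by
    apply le_of_forall_pos_le_add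
    intro ε hε
    have hm : 0 < min (ε / 3) (1 / 10000) := by positivity
    have h1 := near_eps h0 hβ hm (min_le_right _ _)
    have h2 : min (ε / 3) (1 / 10000 : ℝ) ≤ ε / 3 := min_le_left _ _
    have h3 : (1 - ‖β‖ / 100) * min (ε / 3) (1 / 10000 : ℝ) ≤ 1 * (ε / 3) := by
      apply mul_le_mul _ h2 hm.le (by norm_num)
      linarith
    nlinarith
  have h2 : 3 * ((1 - ‖β‖ / 100) * Sb 0) < 3 * Sb 0 := by nlinarith
  linarith

theorem good_im : Good (fun z : ℂ => z.im) := by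
  refine ⟨Complex.imCLM.contDiff, fun z => by simp, fun z => ?_⟩
  have h : (1 + om + om ^ 2) * z = 0 := by rw [om_sum, zero_mul]
  have h2 := congrArg Complex.im h
  have h3 : ((1 + om + om ^ 2) * z).im = z.im + (om * z).im + (om ^ 2 * z).im := by
    rw [add_mul, add_mul, one_mul]; rfl
  rw [h3] at h2
  simpa using h2

theorem grad_im (z : ℂ) : grad (fun z : ℂ => z.im) z = I := by
  have h : HasFDerivAt (fun z : ℂ => z.im) Complex.imCLM z := Complex.imCLM.hasFDerivAt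
  unfold grad
  rw [h.fderiv]
  apply Complex.ext <;> simp

theorem tauv_im : tauv (fun z : ℂ => z.im) = 3 * √3 := by
  unfold tauv
  simp only [grad_im]
  rw [← volume_E]
  simp [Measure.real]

theorem Kv_im : Kv (fun z : ℂ => z.im) = 3 * √3 := by
  unfold Kv
  simp only [grad_im]
  rw [← volume_E]
  simp [Measure.real]

theorem pv_im : pv (fun z : ℂ => z.im) = 2 * √3 := by
  unfold pv
  rw [side0_eq (by fun_prop)]
  have h : ∀ y : ℝ, ((⟨-1, y⟩ : ℂ).im ^ 2 + (⟨-1, -y⟩ : ℂ).im ^ 2) = 2 * y ^ 2 := by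
    intro y; simp; ring
  simp only [h]
  rw [intervalIntegral.integral_const_mul, integral_pow]
  have := s3sq
  have h3 : √3 ^ 3 = 3 * √3 := by rw [pow_succ, this]
  norm_num
  rw [h3]
  ring

theorem qv_im : qv (fun z : ℂ => z.im) = 2 * √3 := by
  unfold qv
  rw [side1_eq (by fun_prop)]
  have h : ∀ y : ℝ, 2 * (⟨2 - √3 * y, -y⟩ : ℂ).im ^ 2 = 2 * y ^ 2 := by
    intro y; simp
  simp only [h]
  rw [intervalIntegral.integral_const_mul, integral_pow]
  have := s3sq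
  have h3 : √3 ^ 3 = 3 * √3 := by rw [pow_succ, this]
  norm_num
  rw [h3]
  ring

theorem Mv_im : Mv (fun z : ℂ => z.im) = 3 := by
  unfold Mv
  rw [side2_eq (by fun_prop)]
  simp only
  rw [intervalIntegral.integral_const_mul, integral_id]
  have := s3sq
  rw [this]
  norm_num

/-- far region -/
theorem far {β : ℂ} (h0 : 0.21 ≤ ‖β‖) (hβ : ‖β‖ < 1) : Sb β * Lam β < 3 * Sb 0 := by
  have hr0 : 0 < ‖β‖ := by linarith
  have hb0 : β ≠ 0 := norm_pos_iff.mp hr0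
  obtain ⟨c, hc1, hc⟩ := exists_c hb0
  have hL := Lam_pos β
  have hs := s3pos
  have hy : (YY β c / Lam β) ^ 2 ≤ (‖β‖ / (2 - ‖β‖)) ^ 2 := by
    have h := YY_abs_le hβ hc1
    apply sq_le_sq'
    · rw [neg_le, ← neg_div, div_le_iff₀ hL]
      exact (neg_le_abs _).trans h
    · rw [div_le_iff₀ hL]
      exact (le_abs_self _).trans h
  have hfar := far_ineq h0 hβ hy
  have hS0 := le_Sb_zero
  have hNE := NE_tst good_im c β
  rw [hc1, mul_assoc 2, conj_mul_c hb0 hc, tauv_im, Kv_im] at hNE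
  have hD1 := DE_sq_tst good_im β c
  have hD2 := DE_tst good_im β c
  rw [hc1, pv_im, qv_im] at hD1
  rw [Mv_im] at hD2
  set y := YY β c / Lam β with hyd
  have hY : YY β c = Lam β * y := by rw [hyd]; field_simp
  have hrr : 0 < 1 - ‖β‖ ^ 2 := by nlinarith
  have h1y : 0 < 1 - y ^ 2 := by
    have : 0 < (1 - ‖β‖) / (1 + ‖β‖) := by
      apply div_pos <;> linarith
    nlinarith
  have hDD : DE β (fun z => tst (fun z : ℂ => z.im) c z ^ 2) -
      (DE β (tst (fun z : ℂ => z.im) c)) ^ 2 / (2 * √3 * Lam β) =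
      2 * √3 * Lam β * (1 - y ^ 2) := by
    rw [hD1, hD2, hY]
    have h3 : √3 ^ 4 = (9:ℝ) := by
      rw [show (4:ℕ) = 2 * 2 by norm_num, pow_mul, s3sq]; norm_num
    field_simp
    rw [h3]
    ring
  have hNN : NE β (tst (fun z : ℂ => z.im) c) = 3 * √3 * ((1 - ‖β‖) / (1 + ‖β‖)) := by
    rw [hNE]
    have : 1 - ‖β‖ ^ 2 = (1 - ‖β‖) * (1 + ‖β‖) := by ring
    rw [this]
    have h1 : 1 - ‖β‖ ≠ 0 := by linarith
    have h2 : 1 + ‖β‖ ≠ 0 := by positivity
    field_simp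
    ring
  have hDpos : 0 < 2 * √3 * Lam β * (1 - y ^ 2) := by positivity
  have hSb := Sb_le hβ (tst_contDiff good_im c) (by rw [hDD]; exact hDpos)
  rw [hDD, hNN] at hSb
  have h7 : 3 * √3 * ((1 - ‖β‖) / (1 + ‖β‖)) / (2 * √3 * Lam β * (1 - y ^ 2)) * Lam β =
      3 / 2 * ((1 - ‖β‖) / (1 + ‖β‖)) / (1 - y ^ 2) := by
    field_simp
  have h8 : Sb β * Lam β ≤ 3 / 2 * ((1 - ‖β‖) / (1 + ‖β‖)) / (1 - y ^ 2) := by
    rw [← h7]
    exact mul_le_mul_of_nonneg_right hSb hL.le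
  have h9 : 3 / 2 * ((1 - ‖β‖) / (1 + ‖β‖)) / (1 - y ^ 2) < 1 := by
    rw [div_lt_one h1y]
    linarith
  linarith

theorem key {β : ℂ} (h0 : β ≠ 0) (hβ : ‖β‖ < 1) : Sb β * Lam β < 3 * Sb 0 := by
  rcases le_total ‖β‖ 0.21 with h | h
  · exact near h0 h
  · exact far h hβ

end Pool.Agent.H32.Stek
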