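import Mathlib
import Pool.Agent.H32.Stek.Near
import Pool.Agent.H32.Stek.Cov

set_option autoImplicit false

open Complex MeasureTheory

namespace Pool.Agent.H32.Stek

/-- equilateral -/
def Equi (A B C : ℂ) : Prop := dist A B = dist B C ∧ dist B C = dist C A

theorem equi_swap {A B C : ℂ} : Equi A C B ↔ Equi A B C := by
  unfold Equi
  rw [dist_comm A C, dist_comm C B, dist_comm B A]
  constructor
  · rintro ⟨h1, h2⟩
    exact ⟨h2.symm, h1.symm⟩
  · rintro ⟨h1, h2⟩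
    exact ⟨h2.symm, h1.symm⟩

/-- everything in terms of `β` -/
theorem normal {P Q R : ℂ} (h : AffineIndependent ℝ ![P, Q, R]) :
    ∃ a β : ℂ, a ≠ 0 ∧ ‖β‖ < 1 ∧ (β = 0 ↔ Equi P Q R) ∧
      sigma1 P Q R = Sb β / ‖a‖ ∧ perim P Q R = ‖a‖ * (2 * √3) * Lam β ∧
      area P Q R = ‖a‖ ^ 2 * (1 - ‖β‖ ^ 2) * (3 * √3) := by
  obtain ⟨a, β, t, ha, hβ, hE, h1 | h1⟩ := normal_form h
  · obtain ⟨rfl, rfl, rfl⟩ := h1
    refine ⟨a, β, ha, hβ, hE, sigma1_aff ha hβ, perim_aff a β t, ?_⟩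
    rw [area_aff_eq ha hβ, volume_E]
  · obtain ⟨rfl, rfl, rfl⟩ := h1
    refine ⟨a, β, ha, hβ, hE, ?_, ?_, ?_⟩
    · rw [sigma1_swap, sigma1_aff ha hβ]
    · rw [perim_swap, perim_aff]
    · rw [area_swap, area_aff_eq ha hβ, volume_E]

/-- an equilateral triangle with two different vertices is nondegenerate -/
theorem indep_of_equi {A B C : ℂ} (h : Equi A B C) (hAB : A ≠ B) :
    AffineIndependent ℝ ![A, B, C] := by
  rw [affineIndependent_iff_not_collinear_set]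
  intro hcol
  have hd : 0 < dist A B := dist_pos.mpr hAB
  obtain ⟨h1, h2⟩ := h
  rcases hcol.wbtw_or_wbtw_or_wbtw with hw | hw | hw
  · have := hw.dist_add_dist
    rw [dist_comm A C] at this
    linarith
  · have := hw.dist_add_dist
    rw [dist_comm B A] at this
    linarith
  · have := hw.dist_add_dist
    rw [dist_comm C B] at this
    linarith

theorem perimeter_main {P Q R A B C : ℂ} (h : AffineIndependent ℝ ![P, Q, R])
    (hE : dist A B = dist B C ∧ dist B C = dist C A ∧ A ≠ B) :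
    sigma1 P Q R * perim P Q R ≤ sigma1 A B C * perim A B C ∧
      (sigma1 P Q R * perim P Q R = sigma1 A B C * perim A B C →
        dist P Q = dist Q R ∧ dist Q R = dist R P) := by
  have hs := s3pos
  obtain ⟨a, β, ha, hβ, hβ0, e1, e2, -⟩ := normal h
  obtain ⟨a', β', ha', hβ', hβ0', e1', e2', -⟩ := normal (indep_of_equi ⟨hE.1, hE.2.1⟩ hE.2.2)
  have hb' : β' = 0 := hβ0'.mpr ⟨hE.1, hE.2.1⟩
  subst hb'
  have hna : 0 < ‖a‖ := norm_pos_iff.mpr ha
  have hna' : 0 < ‖a'‖ := norm_pos_iff.mpr ha'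
  have f1 : sigma1 P Q R * perim P Q R = 2 * √3 * (Sb β * Lam β) := by
    rw [e1, e2]; field_simp
  have f2 : sigma1 A B C * perim A B C = 2 * √3 * (3 * Sb 0) := by
    rw [e1', e2', Lam_zero]; field_simp
  rw [f1, f2]
  by_cases hb : β = 0
  · constructor
    · rw [hb, Lam_zero]
      apply le_of_eq
      ring
    · intro _
      exact hβ0.mp hb
  · have hk := key hb hβ
    have hlt : 2 * √3 * (Sb β * Lam β) < 2 * √3 * (3 * Sb 0) :=
      mul_lt_mul_of_pos_left hk (by positivity)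
    exact ⟨hlt.le, fun he => absurd he hlt.ne⟩

theorem area_main {P Q R A B C : ℂ} (h : AffineIndependent ℝ ![P, Q, R])
    (hE : dist A B = dist B C ∧ dist B C = dist C A ∧ A ≠ B) :
    sigma1 P Q R * √(area P Q R) ≤ sigma1 A B C * √(area A B C) ∧
      (sigma1 P Q R * √(area P Q R) = sigma1 A B C * √(area A B C) →
        dist P Q = dist Q R ∧ dist Q R = dist R P) := by
  have hs := s3pos
  obtain ⟨a, β, ha, hβ, hβ0, e1, -, e3⟩ := normal h
  obtain ⟨a', β', ha', hβ', hβ0', e1', -, e3'⟩ := normal (indep_of_equi ⟨hE.1, hE.2.1⟩ hE.2.2)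
  have hb' : β' = 0 := hβ0'.mpr ⟨hE.1, hE.2.1⟩
  subst hb'
  have hna : 0 < ‖a‖ := norm_pos_iff.mpr ha
  have hna' : 0 < ‖a'‖ := norm_pos_iff.mpr ha'
  have hrt : 0 < √(3 * √3) := Real.sqrt_pos.mpr (by positivity)
  have hb1 : 0 ≤ 1 - ‖β‖ ^ 2 := by nlinarith [norm_nonneg β]
  have g1 : √(area P Q R) = ‖a‖ * √(1 - ‖β‖ ^ 2) * √(3 * √3) := by
    rw [e3, Real.sqrt_mul (mul_nonneg (sq_nonneg _) hb1),
      Real.sqrt_mul (sq_nonneg _), Real.sqrt_sq hna.le]
  have g2 : √(area A B C) = ‖a'‖ * √(3 * √3) := by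
    rw [e3', norm_zero]
    have : ‖a'‖ ^ 2 * (1 - (0:ℝ) ^ 2) * (3 * √3) = ‖a'‖ ^ 2 * (3 * √3) := by ring
    rw [this, Real.sqrt_mul (sq_nonneg _), Real.sqrt_sq hna'.le]
  have f1 : sigma1 P Q R * √(area P Q R) = √(3 * √3) * (Sb β * √(1 - ‖β‖ ^ 2)) := by
    rw [e1, g1]; field_simp
  have f2 : sigma1 A B C * √(area A B C) = √(3 * √3) * Sb 0 := by
    rw [e1', g2]; field_simp
  rw [f1, f2]
  by_cases hb : β = 0
  · constructor
    · rw [hb]
      simp
    · intro _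
      exact hβ0.mp hb
  · have hk := key hb hβ
    have hS0 := le_Sb_zero
    have hL := Lam_ge β
    have hq1 : √(1 - ‖β‖ ^ 2) ≤ 1 := by
      rw [Real.sqrt_le_one]
      nlinarith [sq_nonneg ‖β‖]
    have hq0 : 0 ≤ √(1 - ‖β‖ ^ 2) := Real.sqrt_nonneg _
    have hSlt : Sb β * √(1 - ‖β‖ ^ 2) < Sb 0 := by
      rcases le_or_gt (Sb β) 0 with hn | hp
      · have : Sb β * √(1 - ‖β‖ ^ 2) ≤ 0 := mul_nonpos_of_nonpos_of_nonneg hn hq0
        linarith
      · have h1 : Sb β * √(1 - ‖β‖ ^ 2) ≤ Sb β * 1 := mul_le_mul_of_nonneg_left hq1 hp.le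
        have h2 : Sb β * 3 ≤ Sb β * Lam β := mul_le_mul_of_nonneg_left hL hp.le
        linarith
    have hlt : √(3 * √3) * (Sb β * √(1 - ‖β‖ ^ 2)) < √(3 * √3) * Sb 0 :=
      mul_lt_mul_of_pos_left hSlt hrt
    exact ⟨hlt.le, fun he => absurd he hlt.ne⟩

end Pool.Agent.H32.Stek
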